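import Pool.Agent.P8H33.QC.App
import Pool.Agent.P8H37.QC.D3
import Pool.Agent.P8H38.QC.Exw
import Pool.Agent.P8H4.QC.Kum
import Pool.Agent.P8H62.QC.Rou
import Pool.Agent.P8H62.QC.Nbe
import Pool.Agent.P8H23.QC.Tau
import Pool.Agent.P8H76.QC.Exa
import Pool.Agent.P8H45.QC.Gra

set_option autoImplicit false

/-!
# Project QC: application to `p`-adic logarithms, signed cyclic permutations; examples
-/

open Matrix Module

namespace Pool.Agent.P8H33.QC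

open Pool.Agent.W245.PB (IsIwasawaLog)
open Pool.Agent.P8H10 (log_gal norm_gal)

variable {p : ℕ} [hp : Fact p.Prime] {L : PadicAlgCl p → PadicAlgCl p}

section wre

variable {ℓ : ℕ} [hℓ : Fact ℓ.Prime]

theorem iter_pow (τ : PadicAlgCl p ≃ₐ[ℚ_[p]] PadicAlgCl p) (α : ZMod ℓ → PadicAlgCl p)
    (hτ : ∀ i, τ (α i) = α (i + 1)) (n : ℕ) (i : ZMod ℓ) : (τ ^ n) (α i) = α (i + n) := by
  induction n with
  | zero => simp
  | succ n ih =>
    rw [pow_succ', AlgEquiv.mul_apply, ih, hτ]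
    congr 1
    push_cast
    ring

theorem iter_inv (τ : PadicAlgCl p ≃ₐ[ℚ_[p]] PadicAlgCl p) (α : ZMod ℓ → PadicAlgCl p)
    (hτ : ∀ i, τ (α i) = α (i + 1)) (n : ℕ) (i : ZMod ℓ) : (τ ^ n)⁻¹ (α i) = α (i - n) := by
  have h1 : (τ ^ n) (α (i - n)) = α i := by
    rw [iter_pow τ α hτ]
    congr 1
    ring
  rw [← h1]
  exact AlgEquiv.symm_apply_apply (τ ^ n) _

/-- the configuration -/
theorem wr_of (hL : IsIwasawaLog p L) (α : ZMod ℓ → PadicAlgCl p) (hα : ∀ i, α i ≠ 0)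
    (τ σ : PadicAlgCl p ≃ₐ[ℚ_[p]] PadicAlgCl p) (hτ : ∀ i, τ (α i) = α (i + 1))
    (hσ0 : σ (α 0) = (α 0)⁻¹) (hσ : ∀ i, i ≠ 0 → σ (α i) = α i) (hx : L (α 0) ≠ 0) :
    Wr ℓ (rh τ) (fun i => rh (τ ^ i.val * σ * (τ ^ i.val)⁻¹)) (fun i => L (α i)) := by
  have hnat : ∀ i : ZMod ℓ, ((i.val : ℕ) : ZMod ℓ) = i := fun i => ZMod.natCast_zmod_val i
  refine ⟨?_, ?_, ?_, ?_⟩
  · intro i
    rw [rh_apply, ← log_gal hL τ (hα i), hτ]
  · intro i
    rw [rh_apply, ← log_gal hL _ (hα i)]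
    have h1 : (τ ^ i.val * σ * (τ ^ i.val)⁻¹) (α i) = (τ ^ i.val) (σ ((τ ^ i.val)⁻¹ (α i))) := rfl
    rw [h1, iter_inv τ α hτ, hnat, sub_self, hσ0, map_inv₀, iter_pow τ α hτ, hnat, zero_add,
      hL.inv (hα i)]
  · intro i j hj
    rw [rh_apply, ← log_gal hL _ (hα j)]
    have h1 : (τ ^ i.val * σ * (τ ^ i.val)⁻¹) (α j) = (τ ^ i.val) (σ ((τ ^ i.val)⁻¹ (α j))) := rfl
    rw [h1, iter_inv τ α hτ, hnat, hσ _ (sub_ne_zero.2 hj), iter_pow τ α hτ, hnat, sub_add_cancel]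
  · intro i
    have h1 : L (α i) = (τ ^ i.val) (L (α 0)) := by
      rw [← log_gal hL _ (hα 0), iter_pow τ α hτ, hnat, zero_add]
    rw [h1]
    exact (map_ne_zero _).2 hx

/-- the logarithms vanish in the degenerate case -/
theorem wr_zero (hL : IsIwasawaLog p L) (α : ZMod ℓ → PadicAlgCl p) (hα : ∀ i, α i ≠ 0)
    (τ : PadicAlgCl p ≃ₐ[ℚ_[p]] PadicAlgCl p) (hτ : ∀ i, τ (α i) = α (i + 1))
    (hx : L (α 0) = 0) : Submodule.span ℚ (Set.range fun i => L (α i)) = ⊥ := by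
  rw [Submodule.span_eq_bot]
  rintro _ ⟨i, rfl⟩
  have h1 : L (α i) = (τ ^ i.val) (L (α 0)) := by
    rw [← log_gal hL _ (hα 0), iter_pow τ α hτ, ZMod.natCast_zmod_val, zero_add]
  change L (α i) = 0
  rw [h1, hx, map_zero]

theorem fix_conj (τ σ : PadicAlgCl p ≃ₐ[ℚ_[p]] PadicAlgCl p) {w : PadicAlgCl p} (hτ : τ w = w)
    (hσ : σ w = w) (n : ℕ) : (τ ^ n * σ * (τ ^ n)⁻¹) w = w := by
  have h1 : ∀ n : ℕ, (τ ^ n) w = w := by
    intro n
    induction n with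
    | zero => simp
    | succ n ih => rw [pow_succ', AlgEquiv.mul_apply, ih, hτ]
  have h2 : (τ ^ n)⁻¹ w = w := by
    conv_lhs => rw [← h1 n]
    exact AlgEquiv.symm_apply_apply (τ ^ n) _
  have h3 : (τ ^ n * σ * (τ ^ n)⁻¹) w = (τ ^ n) (σ ((τ ^ n)⁻¹ w)) := rfl
  rw [h3, h2, hσ, h1]

/-- **Signed cyclic permutations, two by two matrices.** -/
theorem wre_four (hL : IsIwasawaLog p L) (h2 : ℓ ≠ 2) (α : ZMod ℓ → PadicAlgCl p)
    (hα : ∀ i, α i ≠ 0) (U : Submodule ℚ (PadicAlgCl p))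
    (τ σ : PadicAlgCl p ≃ₐ[ℚ_[p]] PadicAlgCl p) (hτ : ∀ i, τ (α i) = α (i + 1))
    (hσ0 : σ (α 0) = (α 0)⁻¹) (hσ : ∀ i, i ≠ 0 → σ (α i) = α i)
    (hUτ : ∀ w ∈ U, τ w = w) (hUσ : ∀ w ∈ U, σ w = w) (hU : QQ 2 U) :
    QQ 2 (U ⊔ Submodule.span ℚ (Set.range fun i => L (α i))) := by
  by_cases hx : L (α 0) = 0
  · rw [wr_zero hL α hα τ hτ hx, sup_bot_eq]
    exact hU
  · exact four_wreath h2 (wr_of hL α hα τ σ hτ hσ0 hσ hx) U (fun w hw => hUτ w hw)
      (fun i w hw => fix_conj τ σ (hUτ w hw) (hUσ w hw) _) hU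

/-- **Signed cyclic permutations, three by three matrices.** -/
theorem wre_three (hL : IsIwasawaLog p L) (h2 : ℓ ≠ 2) (α : ZMod ℓ → PadicAlgCl p)
    (hα : ∀ i, α i ≠ 0) (τ σ : PadicAlgCl p ≃ₐ[ℚ_[p]] PadicAlgCl p)
    (hτ : ∀ i, τ (α i) = α (i + 1)) (hσ0 : σ (α 0) = (α 0)⁻¹)
    (hσ : ∀ i, i ≠ 0 → σ (α i) = α i) :
    QQ 3 (Submodule.span ℚ (Set.range fun i => L (α i))) := by
  by_cases hx : L (α 0) = 0
  · rw [wr_zero hL α hα τ hτ hx]
    exact QQ_bot 3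
  · exact three_wreath Pool.Agent.P8H37.QC.d3 h2 (wr_of hL α hα τ σ hτ hσ0 hσ hx)

end wre

/-- elements of `ℚ_p` are fixed -/
theorem fix_span {β γ : PadicAlgCl p} (hβ : ∃ b : ℚ_[p], L β = b) (hγ : ∃ b : ℚ_[p], L γ = b)
    (σ : PadicAlgCl p ≃ₐ[ℚ_[p]] PadicAlgCl p) : ∀ w ∈ Submodule.span ℚ {L β, L γ}, σ w = w := by
  intro w hw
  obtain ⟨a, b, rfl⟩ := Submodule.mem_span_pair.1 hw
  obtain ⟨x, hx⟩ := hβ
  obtain ⟨y, hy⟩ := hγ
  simp only [Algebra.smul_def, map_add, map_mul, eq_ratCast, map_ratCast, hx, hy]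
  rw [show σ (x : PadicAlgCl p) = x from AlgEquiv.commutes σ x,
    show σ (y : PadicAlgCl p) = y from AlgEquiv.commutes σ y]

/-- **Existence**, for every odd prime. -/
theorem exists_wre {L : PadicAlgCl 2 → PadicAlgCl 2} (hL : IsIwasawaLog 2 L) (ℓ : ℕ)
    [hℓ : Fact ℓ.Prime] (h2 : ℓ ≠ 2) : ∃ α : ZMod ℓ → PadicAlgCl 2,
      (∀ i, α i ≠ 0 ∧ IsAlgebraic ℚ (α i)) ∧ LinearIndependent ℚ (fun i => L (α i)) ∧
      QQ 3 (Submodule.span ℚ (Set.range fun i => L (α i))) ∧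
      ∀ β γ : PadicAlgCl 2, β ≠ 0 → γ ≠ 0 → IsAlgebraic ℚ β → IsAlgebraic ℚ γ →
        (∃ b : ℚ_[2], L β = b) → (∃ b : ℚ_[2], L γ = b) →
        Disjoint (Submodule.span ℚ {L β, L γ}) (Submodule.span ℚ (Set.range fun i => L (α i))) ∧
        QQ 2 (Submodule.span ℚ {L β, L γ} ⊔ Submodule.span ℚ (Set.range fun i => L (α i))) := by
  obtain ⟨α, hα, τ, σ, hτ, hσ0, hσ⟩ := Pool.Agent.P8H38.QC.exw Pool.Agent.P8H23.QC.t_TAU
    Pool.Agent.P8H62.QC.nbe Pool.Agent.P8H62.QC.unr Pool.Agent.P8H4.QC.kum ℓ hℓ.out.one_lt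
  have hα0 : ∀ i, α i ≠ 0 := fun i => (hα i).2.1
  have hx : L (α 0) ≠ 0 := by
    intro h
    refine (hα 0).2.2.1 (hL.eq_one ?_ h)
    have := (hα 0).2.2.2
    push_cast
    linarith
  have hw := wr_of hL α hα0 τ σ hτ hσ0 hσ hx
  refine ⟨α, fun i => ⟨hα0 i, (hα i).1⟩, hw.indep, wre_three hL h2 α hα0 τ σ hτ hσ0 hσ, ?_⟩
  intro β γ hβ hγ hβa hγa hβp hγp
  refine ⟨hw.disj _ fun i w hw' => by rw [rh_apply]; exact fix_span hβp hγp _ w hw', ?_⟩
  exact wre_four hL h2 α hα0 _ τ σ hτ hσ0 hσ (fix_span hβp hγp τ) (fix_span hβp hγp σ)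
    (QQ_small hL hβ hβa hγ hγa 2)

/-- the span of the four logarithms has dimension three -/
theorem alt_finrank (hL : IsIwasawaLog p L) (α : Fin 4 → PadicAlgCl p) (hα : ∀ i, α i ≠ 0)
    (hinj : Function.Injective α) (hA : HasAlt p α) (hsum : ∑ i, L (α i) = 0) :
    finrank ℚ (Submodule.span ℚ (Set.range fun i => L (α i))) = 3 := by
  obtain ⟨σ, hσ⟩ := hA pS pS_mem
  obtain ⟨τ, hτ⟩ := hA pT pT_mem
  have hk := kl_of hL α hα hσ hτ (alt_nonzero hL α hα hinj hA)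
  obtain ⟨x, hx⟩ : ∃ x, x = L (α 0) + L (α 1) - L (α 2) - L (α 3) := ⟨_, rfl⟩
  obtain ⟨y, hy⟩ : ∃ x, x = L (α 0) + L (α 2) - L (α 1) - L (α 3) := ⟨_, rfl⟩
  obtain ⟨z, hz⟩ : ∃ x, x = L (α 0) + L (α 3) - L (α 1) - L (α 2) := ⟨_, rfl⟩
  rw [← hx, ← hy, ← hz] at hk
  have h1 : Submodule.span ℚ (Set.range fun i => L (α i)) = Submodule.span ℚ (Set.range ![x, y, z]) := by
    have hr : Set.range ![x, y, z] = {x, y, z} := by
      ext w
      simp only [Set.mem_range, Set.mem_insert_iff, Set.mem_singleton_iff, Fin.exists_fin_succ,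
        Matrix.cons_val_zero, Matrix.cons_val_succ, IsEmpty.exists_iff, or_false, eq_comm]
    rw [hr]
    refine le_antisymm ?_ ?_
    · have := span_le3 α hsum
      rwa [← hx, ← hy, ← hz] at this
    · rw [Submodule.span_le]
      have hm : ∀ i, L (α i) ∈ Submodule.span ℚ (Set.range fun i => L (α i)) :=
        fun i => Submodule.subset_span ⟨i, rfl⟩
      intro w hw
      simp only [Set.mem_insert_iff, Set.mem_singleton_iff] at hw
      rcases hw with rfl | rfl | rfl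
      · rw [hx]
        exact Submodule.sub_mem _ (Submodule.sub_mem _ (Submodule.add_mem _ (hm 0) (hm 1)) (hm 2))
          (hm 3)
      · rw [hy]
        exact Submodule.sub_mem _ (Submodule.sub_mem _ (Submodule.add_mem _ (hm 0) (hm 2)) (hm 1))
          (hm 3)
      · rw [hz]
        exact Submodule.sub_mem _ (Submodule.sub_mem _ (Submodule.add_mem _ (hm 0) (hm 3)) (hm 1))
          (hm 2)
  rw [h1, finrank_span_eq_card, Fintype.card_fin]
  rw [Fintype.linearIndependent_iff]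
  intro g hg
  simp only [Fin.sum_univ_three, Matrix.cons_val_zero, Matrix.cons_val_one, Matrix.cons_val,
    Algebra.smul_def, eq_ratCast] at hg
  obtain ⟨g0, g1, g2⟩ := hk.indep _ _ _ hg
  intro i
  fin_cases i
  · exact g0
  · exact g1
  · exact g2

/-- the product of the four roots -/
theorem prod_two {K : Type*} [Field K] [CharZero K] (α : Fin 4 → K) (hinj : Function.Injective α)
    (hroot : ∀ i, α i ^ 4 + 2 * α i + 2 = 0) : ∏ i, α i = 2 := by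
  have hne : ∀ i j, i ≠ j → α i - α j ≠ 0 := fun i j hij => sub_ne_zero.2 (hinj.ne hij)
  have h01 := hne 0 1 (by decide)
  have h02 := hne 0 2 (by decide)
  have h12 := hne 1 2 (by decide)
  have h03 := hne 0 3 (by decide)
  have h13 := hne 1 3 (by decide)
  have h23 := hne 2 3 (by decide)
  have r0 := hroot 0
  have r1 := hroot 1
  have r2 := hroot 2
  have r3 := hroot 3
  rw [Fin.prod_univ_four]
  generalize α 0 = a at *
  generalize α 1 = b at *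
  generalize α 2 = c at *
  generalize α 3 = d at *
  -- divided differences
  have d01 : a ^ 3 + a ^ 2 * b + a * b ^ 2 + b ^ 3 + 2 = 0 := by
    apply mul_left_cancel₀ h01
    linear_combination r0 - r1
  have d02 : a ^ 3 + a ^ 2 * c + a * c ^ 2 + c ^ 3 + 2 = 0 := by
    apply mul_left_cancel₀ h02
    linear_combination r0 - r2
  have d03 : a ^ 3 + a ^ 2 * d + a * d ^ 2 + d ^ 3 + 2 = 0 := by
    apply mul_left_cancel₀ h03
    linear_combination r0 - r3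
  have d12 : a ^ 2 + a * b + a * c + b ^ 2 + b * c + c ^ 2 = 0 := by
    apply mul_left_cancel₀ h12
    linear_combination d01 - d02
  have d13 : a ^ 2 + a * b + a * d + b ^ 2 + b * d + d ^ 2 = 0 := by
    apply mul_left_cancel₀ h13
    linear_combination d01 - d03
  have d23 : a + b + c + d = 0 := by
    apply mul_left_cancel₀ h23
    linear_combination d12 - d13
  have hd : d = -a - b - c := by linear_combination d23
  subst hd
  linear_combination a * d01 - r0 - (a * b) * d12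

/-- **The example** `X ^ 4 + 2 X + 2`. -/
theorem example_quartic {L : PadicAlgCl 2 → PadicAlgCl 2} (hL : IsIwasawaLog 2 L) :
    ∃ α : Fin 4 → PadicAlgCl 2, Function.Injective α ∧ (∀ i, α i ^ 4 + 2 * α i + 2 = 0) ∧
      finrank ℚ (Submodule.span ℚ (Set.range fun i => L (α i))) = 3 ∧
      (∀ n, QQ n (Submodule.span ℚ (Set.range fun i => L (α i)))) ∧
      ∀ β γ : PadicAlgCl 2, β ≠ 0 → γ ≠ 0 → IsAlgebraic ℚ β → IsAlgebraic ℚ γ →
        (∃ b : ℚ_[2], L β = b) → (∃ b : ℚ_[2], L γ = b) →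
        QQ 2 (Submodule.span ℚ {L β, L γ} ⊔ Submodule.span ℚ (Set.range fun i => L (α i))) := by
  obtain ⟨α, hinj, hroot, hA⟩ := Pool.Agent.P8H76.QC.exa Pool.Agent.P8H45.QC.gra
  have hα : ∀ i, α i ≠ 0 := by
    intro i h
    have := hroot i
    rw [h] at this
    norm_num at this
  have hsum : ∑ i, L (α i) = 0 := by
    rw [← hL.prod Finset.univ α (fun i _ => hα i), prod_two α hinj hroot]
    have := hL.prime
    exact_mod_cast this
  refine ⟨α, hinj, hroot, alt_finrank hL α hα hinj hA hsum, fun n => alt_all hL α hα hA hsum n, ?_⟩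
  intro β γ hβ hγ hβa hγa hβp hγp
  refine alt_four hL α hα _ (fun π hπ => ?_) (by rw [hsum]; exact Submodule.zero_mem _)
    (QQ_small hL hβ hβa hγ hγa 2)
  obtain ⟨σ, hσ⟩ := hA π hπ
  exact ⟨σ, hσ, fix_span hβp hγp σ⟩

end Pool.Agent.P8H33.QC
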