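import Pool.Agent.P8H33.QC.CoreK
import Pool.Agent.P8H33.QC.App2
import Pool.Agent.P8H68.QC.Ani
import Pool.Agent.P8H41.QC.Sgn

set_option autoImplicit false

/-!
# Project QC: the strong four exponentials over `ℚ_2`
-/

open Matrix Module Polynomial

namespace Pool.Agent.P8H33.QC

open Pool.Agent.W245.PB (IsIwasawaLog brumer)
open Pool.Agent.P8H10 (log_gal norm_gal)

/-- the field of the algebraic numbers in `ℚ_2` -/
noncomputable abbrev K2 := algebraicClosure ℚ ℚ_[2]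

/-- the field of all algebraic numbers -/
noncomputable abbrev QB2 := algebraicClosure ℚ (PadicAlgCl 2)

theorem K2_map (c : K2) : algebraMap K2 (PadicAlgCl 2) c = ((c : ℚ_[2]) : PadicAlgCl 2) := rfl

theorem K2_alg (c : K2) : IsAlgebraic ℚ (algebraMap K2 (PadicAlgCl 2) c) := by
  have h1 : IsAlgebraic ℚ (c : ℚ_[2]) := mem_algebraicClosure_iff.1 c.2
  rw [K2_map]
  exact h1.algebraMap

theorem K2_isAlg : Algebra.IsAlgebraic ℚ K2 :=
  ⟨fun c => (isAlgebraic_algebraMap_iff (algebraMap K2 ℚ_[2]).injective).1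
    (mem_algebraicClosure_iff.1 c.2)⟩

/-- an automorphism over `ℚ_2` as a homomorphism over `K2` -/
noncomputable def kh (σ : PadicAlgCl 2 ≃ₐ[ℚ_[2]] PadicAlgCl 2) : PadicAlgCl 2 →ₐ[K2] PadicAlgCl 2 :=
  { (rh σ : PadicAlgCl 2 →+* PadicAlgCl 2) with
    commutes' := fun c => by
      change σ (algebraMap K2 (PadicAlgCl 2) c) = algebraMap K2 (PadicAlgCl 2) c
      rw [K2_map]
      exact AlgEquiv.commutes σ _ }

theorem kh_apply (σ : PadicAlgCl 2 ≃ₐ[ℚ_[2]] PadicAlgCl 2) (x : PadicAlgCl 2) : kh σ x = σ x := rfl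

theorem K2_three : ∀ s t r : K2, s ^ 2 + t ^ 2 + r ^ 2 = 0 → s = 0 ∧ t = 0 ∧ r = 0 := by
  intro s t r h
  have h1 : (s : ℚ_[2]) ^ 2 + (t : ℚ_[2]) ^ 2 + (r : ℚ_[2]) ^ 2 = 0 := by
    exact_mod_cast congrArg (algebraMap K2 ℚ_[2]) h
  obtain ⟨h2, h3, h4⟩ := Pool.Agent.P8H68.QC.ani.1 _ _ _ h1
  exact ⟨Subtype.ext h2, Subtype.ext h3, Subtype.ext h4⟩

theorem K2_irr {ℓ : ℕ} (h : Irreducible (cyclotomic ℓ ℚ_[2])) : Irreducible (cyclotomic ℓ K2) := by
  refine (cyclotomic.monic ℓ K2).irreducible_of_irreducible_map (algebraMap K2 ℚ_[2]) _ ?_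
  rw [map_cyclotomic]
  exact h

/-- a matrix with dependent rows or columns -/
theorem not_indep_of_dep {M : Matrix (Fin 2) (Fin 2) (PadicAlgCl 2)} (h : DepK K2 M) :
    ¬ (LinearIndependent QB2 M.row ∧ LinearIndependent QB2 M.col) := by
  rintro ⟨hr, hc⟩
  let q : K2 → QB2 := fun c => ⟨algebraMap K2 (PadicAlgCl 2) c, mem_algebraicClosure_iff.2 (K2_alg c)⟩
  have hq : ∀ c, q c = 0 → c = 0 := by
    intro c hc0
    have h1 : algebraMap K2 (PadicAlgCl 2) c = 0 := congrArg Subtype.val hc0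
    exact (map_eq_zero _).1 h1
  have hs : ∀ (c : K2) (y : PadicAlgCl 2), q c • y = algebraMap K2 (PadicAlgCl 2) c * y := by
    intro c y
    rw [Algebra.smul_def]
    rfl
  rcases h with ⟨a, ha, h⟩ | ⟨b, hb, h⟩
  · rw [Fintype.linearIndependent_iff] at hr
    apply ha
    have h1 := hr (fun i => q (a i)) (by
      ext j
      rw [Finset.sum_apply]
      simp only [Pi.smul_apply, hs, Matrix.row, Pi.zero_apply]
      exact h j)
    ext i
    have h2 := hq _ (h1 i)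
    rw [h2]
    rfl
  · rw [Fintype.linearIndependent_iff] at hc
    apply hb
    have h1 := hc (fun i => q (b i)) (by
      ext i
      rw [Finset.sum_apply]
      simp only [Pi.smul_apply, hs, Matrix.col, Pi.zero_apply]
      rw [← h i]
      refine Finset.sum_congr rfl fun j _ => ?_
      rw [mul_comm]
      rfl)
    ext i
    have h2 := hq _ (h1 i)
    rw [h2]
    rfl

/-- two-dimensional spaces -/
theorem two_dimK {k Ω : Type*} [Field k] [Field Ω] [Algebra k Ω] (l : Ω)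
    (hl : l = 0 ∨ ∀ a b c : k, algebraMap k Ω a + algebraMap k Ω b * l + algebraMap k Ω c * l ^ 2 = 0 →
      a = 0 ∧ b = 0 ∧ c = 0)
    (M : Matrix (Fin 2) (Fin 2) Ω) (hM : ∀ i j, M i j ∈ Submodule.span k {1, l})
    (hdet : M.det = 0) : DepK k M := by
  have h1 : ∀ i j, ∃ a b : k, M i j = algebraMap k Ω a + algebraMap k Ω b * l := by
    intro i j
    obtain ⟨a, b, h⟩ := Submodule.mem_span_pair.1 (hM i j)
    refine ⟨a, b, ?_⟩
    rw [← h, Algebra.smul_def, Algebra.smul_def, mul_one]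
  choose A B hAB using h1
  -- the case of constant matrices
  have hconst : ∀ N : Matrix (Fin 2) (Fin 2) k, (∀ i j, M i j = algebraMap k Ω (N i j)) →
      DepK k M := by
    intro N hN
    have hM' : M = N.map (algebraMap k Ω) := by
      ext i j
      exact hN i j
    have hdetN : N.det = 0 := by
      rw [hM', det_mapK] at hdet
      exact (map_eq_zero _).1 hdet
    by_cases hN0 : N = 0
    · left
      refine ⟨fun _ => 1, fun h => one_ne_zero (congrFun h 0), fun j => ?_⟩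
      simp [hN, hN0]
    · obtain ⟨w, v, hw, hv, hwv⟩ := pair_ofK (Ω := Ω) N hN0 hdetN
      refine dep_of_pair M hdet w v hw hv ?_
      rw [hwv M, hM', Bf_self, det_mapK, hdetN, map_zero, mul_zero]
  rcases hl with hl | hl
  · exact hconst (Matrix.of A) fun i j => by rw [hAB, hl, mul_zero, add_zero]; rfl
  · have hdet' := hdet
    rw [Matrix.det_fin_two, hAB, hAB, hAB, hAB] at hdet'
    obtain ⟨-, h2, h3⟩ := hl ((Matrix.of A).det) (Bf (Matrix.of A) (Matrix.of B)) ((Matrix.of B).det) (by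
      simp only [Matrix.det_fin_two, Bf, Matrix.of_apply, map_sub, map_add, map_mul]
      linear_combination hdet')
    by_cases hB0 : Matrix.of B = 0
    · refine hconst (Matrix.of A) fun i j => ?_
      have : B i j = 0 := congrFun (congrFun hB0 i) j
      rw [hAB, this, map_zero, zero_mul, add_zero]
      rfl
    · obtain ⟨w, v, hw, hv, hwv⟩ := pair_ofK (Ω := Ω) (Matrix.of B) hB0 h3
      refine dep_of_pair M hdet w v hw hv ?_
      rw [hwv M]
      have h4 : Bf ((Matrix.of B).map (algebraMap k Ω)) M =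
          algebraMap k Ω (Bf (Matrix.of A) (Matrix.of B)) + l * (2 * algebraMap k Ω (Matrix.of B).det) := by
        simp only [Bf, Matrix.det_fin_two, Matrix.of_apply, Matrix.map_apply, hAB, map_sub, map_add,
          map_mul]
        ring
      rw [h4, h2, h3, map_zero, mul_zero, mul_zero, add_zero]

variable {L : PadicAlgCl 2 → PadicAlgCl 2}

/-- a nonzero logarithm is transcendental -/
theorem log_trans (hL : IsIwasawaLog 2 L) {β : PadicAlgCl 2} (hβ : β ≠ 0) (hβa : IsAlgebraic ℚ β)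
    (h : L β ≠ 0) : ¬ IsAlgebraic ℚ (L β) := by
  intro halg
  have hli : LinearIndependent ℚ (fun _ : Unit => L β) := by
    rw [Fintype.linearIndependent_iff]
    intro g hg i
    simp only [Finset.univ_unique, Finset.sum_singleton] at hg
    rcases smul_eq_zero.1 hg with h1 | h1
    · exact h1
    · exact absurd h1 h
  have := (brumer hL (fun _ : Unit => β) (fun _ => hβ) (fun _ => hβa) hli (-L β) halg.neg
    (fun _ => 1) (fun _ => isAlgebraic_one) (by simp)).2 ()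
  exact one_ne_zero this

theorem quad_free (hL : IsIwasawaLog 2 L) {β : PadicAlgCl 2} (hβ : β ≠ 0) (hβa : IsAlgebraic ℚ β) :
    L β = 0 ∨ ∀ a b c : K2, algebraMap K2 (PadicAlgCl 2) a + algebraMap K2 (PadicAlgCl 2) b * L β +
      algebraMap K2 (PadicAlgCl 2) c * L β ^ 2 = 0 → a = 0 ∧ b = 0 ∧ c = 0 := by
  by_cases h : L β = 0
  · exact Or.inl h
  · right
    intro a b c he
    by_contra hcon
    apply log_trans hL hβ hβa h
    have h1 : IsAlgebraic K2 (L β) := by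
      refine ⟨C a + C b * X + C c * X ^ 2, ?_, ?_⟩
      · intro h0
        apply hcon
        refine ⟨?_, ?_, ?_⟩
        · have := congrArg (fun P : K2[X] => P.coeff 0) h0
          simpa using this
        · have := congrArg (fun P : K2[X] => P.coeff 1) h0
          simpa [coeff_X, coeff_C, coeff_X_pow] using this
        · have := congrArg (fun P : K2[X] => P.coeff 2) h0
          simpa [coeff_X, coeff_C, coeff_X_pow] using this
      · simp only [map_add, map_mul, aeval_C, aeval_X, map_pow]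
        exact he
    have := K2_isAlg
    exact h1.restrictScalars ℚ

section even

variable {ℓ : ℕ} [hℓ : Fact ℓ.Prime]

/-- the configuration -/
theorem ev_of (hL : IsIwasawaLog 2 L) (α : ZMod ℓ → PadicAlgCl 2) (hα : ∀ i, α i ≠ 0)
    (τ σ : PadicAlgCl 2 ≃ₐ[ℚ_[2]] PadicAlgCl 2) (hτ : ∀ i, τ (α i) = α (i + 1))
    (hσ0 : σ (α 0) = (α 0)⁻¹) (hσ1 : σ (α 1) = (α 1)⁻¹) (hσ : ∀ i, i ≠ 0 → i ≠ 1 → σ (α i) = α i)
    (U : Submodule K2 (PadicAlgCl 2)) (hUτ : ∀ w ∈ U, τ w = w) (hUσ : ∀ w ∈ U, σ w = w)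
    (hx : L (α 0) ≠ 0) : Ev ℓ (kh τ) (fun i => L (α i)) U := by
  have htx : ∀ i, τ (L (α i)) = L (α (i + 1)) := fun i => by rw [← log_gal hL τ (hα i), hτ]
  have hinvU : ∀ g : PadicAlgCl 2 ≃ₐ[ℚ_[2]] PadicAlgCl 2, (∀ w ∈ U, g w = w) →
      ∀ w ∈ U, g⁻¹ w = w := by
    intro g hg w hw
    conv_lhs => rw [← hg w hw]
    exact AlgEquiv.symm_apply_apply g w
  refine ⟨fun i => by rw [kh_apply, htx], fun w hw => hUτ w hw, ?_, ?_⟩
  · intro i j hij
    obtain ⟨f, ⟨g, hg, hgU⟩, f1, f2, f3⟩ := Pool.Agent.P8H41.QC.sgn (PadicAlgCl 2) ℓ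
      (fun i => L (α i))
      {f | ∃ g : PadicAlgCl 2 ≃ₐ[ℚ_[2]] PadicAlgCl 2, f = rh g ∧ ∀ w ∈ U, g w = w}
      (rh σ) (rh τ) (rh τ⁻¹) (by
        rintro _ ⟨g, rfl, hg⟩ _ ⟨g', rfl, hg'⟩
        refine ⟨g * g', rfl, fun w hw => ?_⟩
        rw [AlgEquiv.mul_apply, hg' w hw, hg w hw])
      ⟨σ, rfl, hUσ⟩ ⟨τ, rfl, hUτ⟩ ⟨τ⁻¹, rfl, hinvU τ hUτ⟩
      ⟨1, rfl, fun w _ => rfl⟩
      (fun i => by rw [rh_apply, htx])
      (fun i => by
        rw [rh_apply]
        have : L (α i) = τ (L (α (i - 1))) := by rw [htx, sub_add_cancel]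
        rw [this]
        exact AlgEquiv.symm_apply_apply τ _)
      (by rw [rh_apply, ← log_gal hL σ (hα 0), hσ0, hL.inv (hα 0)])
      (by rw [rh_apply, ← log_gal hL σ (hα 1), hσ1, hL.inv (hα 1)])
      (fun i h0 h1 => by rw [rh_apply, ← log_gal hL σ (hα i), hσ i h0 h1])
      i j hij
    refine ⟨kh g, ?_, ?_, ?_, fun w hw => hgU w hw⟩
    · rw [kh_apply, ← rh_apply, ← hg]
      exact f1
    · rw [kh_apply, ← rh_apply, ← hg]
      exact f2
    · intro m h1 h2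
      rw [kh_apply, ← rh_apply, ← hg]
      exact f3 m h1 h2
  · intro i
    have h1 : L (α i) = (τ ^ i.val) (L (α 0)) := by
      rw [← log_gal hL _ (hα 0), iter_pow τ α hτ, ZMod.natCast_zmod_val, zero_add]
    change L (α i) ≠ 0
    rw [h1]
    exact (_root_.map_ne_zero _).2 hx

/-- **Main theorem**, transfer. -/
theorem mainK (hL : IsIwasawaLog 2 L) (h2 : ℓ ≠ 2) (hirr : Irreducible (cyclotomic ℓ ℚ_[2]))
    (α : ZMod ℓ → PadicAlgCl 2) (hα : ∀ i, α i ≠ 0)
    (τ σ : PadicAlgCl 2 ≃ₐ[ℚ_[2]] PadicAlgCl 2) (hτ : ∀ i, τ (α i) = α (i + 1))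
    (hσ0 : σ (α 0) = (α 0)⁻¹) (hσ1 : σ (α 1) = (α 1)⁻¹) (hσ : ∀ i, i ≠ 0 → i ≠ 1 → σ (α i) = α i)
    (U : Submodule K2 (PadicAlgCl 2)) (hUτ : ∀ w ∈ U, τ w = w) (hUσ : ∀ w ∈ U, σ w = w)
    (M : Matrix (Fin 2) (Fin 2) (PadicAlgCl 2))
    (hM : ∀ i j, M i j ∈ U ⊔ Submodule.span K2 (Set.range fun i => L (α i)))
    (hdet : M.det = 0) : (∀ i j, M i j ∈ U) ∨ DepK K2 M := by
  by_cases hx : L (α 0) = 0
  · left
    have h0 : Submodule.span K2 (Set.range fun i => L (α i)) = ⊥ := by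
      rw [Submodule.span_eq_bot]
      rintro _ ⟨i, rfl⟩
      have h1 : L (α i) = (τ ^ i.val) (L (α 0)) := by
        rw [← log_gal hL _ (hα 0), iter_pow τ α hτ, ZMod.natCast_zmod_val, zero_add]
      change L (α i) = 0
      rw [h1, hx, map_zero]
    rw [h0, sup_bot_eq] at hM
    exact hM
  · exact coreK h2 (K2_irr hirr) K2_three (ev_of hL α hα τ σ hτ hσ0 hσ1 hσ U hUτ hUσ hx) M hM hdet

/-- with one more logarithm and the constants -/
theorem mainK_log (hL : IsIwasawaLog 2 L) (h2 : ℓ ≠ 2) (hirr : Irreducible (cyclotomic ℓ ℚ_[2]))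
    (α : ZMod ℓ → PadicAlgCl 2) (hα : ∀ i, α i ≠ 0)
    (τ σ : PadicAlgCl 2 ≃ₐ[ℚ_[2]] PadicAlgCl 2) (hτ : ∀ i, τ (α i) = α (i + 1))
    (hσ0 : σ (α 0) = (α 0)⁻¹) (hσ1 : σ (α 1) = (α 1)⁻¹) (hσ : ∀ i, i ≠ 0 → i ≠ 1 → σ (α i) = α i)
    {β : PadicAlgCl 2} (hβ : β ≠ 0) (hβa : IsAlgebraic ℚ β) (hβτ : τ (L β) = L β)
    (hβσ : σ (L β) = L β) (M : Matrix (Fin 2) (Fin 2) (PadicAlgCl 2))
    (hM : ∀ i j, M i j ∈ Submodule.span K2 {1, L β} ⊔
      Submodule.span K2 (Set.range fun i => L (α i)))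
    (hdet : M.det = 0) : DepK K2 M := by
  have hfix : ∀ g : PadicAlgCl 2 ≃ₐ[ℚ_[2]] PadicAlgCl 2, g (L β) = L β →
      ∀ w ∈ Submodule.span K2 {1, L β}, g w = w := by
    intro g hg w hw
    obtain ⟨a, b, rfl⟩ := Submodule.mem_span_pair.1 hw
    rw [Algebra.smul_def, Algebra.smul_def, map_add, map_mul, map_mul, map_one, hg, K2_map, K2_map,
      show g ((a : ℚ_[2]) : PadicAlgCl 2) = ((a : ℚ_[2]) : PadicAlgCl 2) from AlgEquiv.commutes g _,
      show g ((b : ℚ_[2]) : PadicAlgCl 2) = ((b : ℚ_[2]) : PadicAlgCl 2) from AlgEquiv.commutes g _]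
  rcases mainK hL h2 hirr α hα τ σ hτ hσ0 hσ1 hσ _ (hfix τ hβτ) (hfix σ hβσ) M hM hdet with h | h
  · exact two_dimK (L β) (quad_free hL hβ hβa) M h hdet
  · exact h

end even

end Pool.Agent.P8H33.QC
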