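import Mathlib

set_option autoImplicit false

/-!
# Project QC (helper33; hard row MP_1f047c_nt, singular matrices of `p`-adic logarithms)

Q2 (`n = 2`, the `p`-adic four exponentials, and `n = 3`) for spaces of logarithms of the conjugates of
algebraic numbers of degree four and three over `ℚ_p`.
-/

open Matrix Polynomial

namespace Pool.Agent.P8H33.QC

/-- PEN (Mathlib only, linear algebra, about 120 lines). A pencil of singular `3 × 3` matrices has many
annihilating pairs, so that a third matrix can be arbitrary.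
PROOF. It is enough to have one of: (a) a common kernel vector `v ≠ 0` of `m₁`, `m₂`: take `w ≠ 0` with
`w ⬝ (m₃ v) = 0`; (b) a common cokernel vector `w ≠ 0`: the same with the transposes; (c) independent `v, v₁` and
independent `w, w₁` with `w' ⬝ (mᵢ v') = 0` for `i = 1, 2`, all `w'`, `v'` in the two planes: take `w' = w` and
`v' ≠ 0` in the plane `⟨v, v₁⟩` with `w ⬝ (m₃ v') = 0`.
Choose `x₀ = s m₁ + t m₂` in the pencil of maximal rank. If the rank is at most one for all `(s, t)`: then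
`m₁ = u₁ ⊗ v₁`, `m₂ = u₂ ⊗ v₂` and the `2 × 2` minors of `m₁ + m₂` vanish, so `u₁ ∥ u₂` (b) or `v₁ ∥ v₂` (a).
If `x₀` has rank two let `x₁` be a matrix of the pencil with `⟨x₀, x₁⟩ = ⟨m₁, m₂⟩`, `x₀ v = 0`, `w ⬝ x₀ = 0`. From
`det (x₀ + t x₁) = 0` (coefficient of `t`: `tr (adj x₀ x₁) = 0`, `adj x₀ = c v wᵗ`, `c ≠ 0`) `w ⬝ (x₁ v) = 0`, so
`x₁ v = - x₀ v₁` for some `v₁`. If `x₁ v = 0` we are in case (a). Otherwise take bases `v, v₁, v₂` of the source and
`u₁ = x₁ v`, `u₂ = x₀ v₂`, `u₃` of the target: `x₀ = (0, -u₁, u₂)`, `x₁ = (u₁, a₁ u₁ + a₂ u₂ + a₃ u₃, b₁ u₁ + b₂ u₂ + b₃ u₃)`,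
`det (x₀ + t x₁) = t² (t a₂ b₃ - a₃ - t a₃ b₂)`, so `a₃ = 0`, `a₂ b₃ = 0`. If `b₃ = 0` the third coordinate is a common
cokernel vector (b); otherwise `a₂ = 0` and `x₀, x₁` map `⟨v, v₁⟩` to `⟨u₁⟩`: (c). -/
def S_PEN : Prop := ∀ m₁ m₂ m₃ : Matrix (Fin 3) (Fin 3) ℚ,
  (∀ s t : ℚ, (s • m₁ + t • m₂).det = 0) →
  ∃ w v : Fin 3 → ℚ, w ≠ 0 ∧ v ≠ 0 ∧ w ⬝ᵥ (m₁ *ᵥ v) = 0 ∧ w ⬝ᵥ (m₂ *ᵥ v) = 0 ∧ w ⬝ᵥ (m₃ *ᵥ v) = 0

/-- The roots `α i` are permuted by (at least) the alternating group. -/
def HasAlt (p : ℕ) [Fact p.Prime] (α : Fin 4 → PadicAlgCl p) : Prop :=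
  ∀ π ∈ alternatingGroup (Fin 4), ∃ σ : PadicAlgCl p ≃ₐ[ℚ_[p]] PadicAlgCl p, ∀ i, σ (α i) = α (π i)

/-- GRA (Mathlib only, Galois theory, about 100 lines). If `f` has degree four, is irreducible over `ℚ_p` and
its resolvent cubic (in the form below, in terms of the roots) is irreducible, then all even permutations of
the roots come from automorphisms.
PROOF. The roots are distinct. The group `G` of the permutations `π` of `Fin 4` which are induced by automorphisms
is a subgroup; it is transitive (`f` irreducible), so `4` divides its order; the element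
`α₀ α₁ + α₂ α₃` is a zero of the irreducible cubic `g`, so it has three conjugates under the automorphisms; they
are among `α₀ α₁ + α₂ α₃`, `α₀ α₂ + α₁ α₃`, `α₀ α₃ + α₁ α₂` and `3` divides the order. So `12` divides the order
of `G`, its index is at most two, and `G` contains the alternating group (Mathlib:
`Equiv.Perm.alternatingGroup_le_of_index_le_two` or a similar name; or count: an index two subgroup contains all
squares, so all 3-cycles). -/
def S_GRA : Prop := ∀ (p : ℕ) [Fact p.Prime] (f g : ℚ_[p][X]), Irreducible f → f.natDegree = 4 →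
  Irreducible g → g.natDegree = 3 →
  ∀ α : Fin 4 → PadicAlgCl p, (f.map (algebraMap ℚ_[p] (PadicAlgCl p))).roots = Multiset.map α Finset.univ.val →
    aeval (α 0 * α 1 + α 2 * α 3) g = 0 → HasAlt p α

/-- EXA (about 100 lines; may assume `S_GRA`). The roots of `X ^ 4 + 2 X + 2` in the algebraic closure of `ℚ_2`
(the Galois group over `ℚ_2` is `S₄`).
PROOF. `f = X ^ 4 + 2 X + 2` is an Eisenstein polynomial (irreducible over `ℤ_[2]`, then over the fraction field
`ℚ_[2]`: `Polynomial.IsEisensteinAt.irreducible`, `Polynomial.IsPrimitive.irreducible_iff_irreducible_map_fraction_map`).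
The number `α₀ α₁ + α₂ α₃` is a zero of the resolvent cubic `g = X ^ 3 - 8 X - 4` (Vieta). `g` is irreducible: it has
degree three, so one has to exclude a zero `y ∈ ℚ_2`: from `y ^ 3 = 8 y + 4` one gets `‖y‖ ≤ 1` and then `‖y‖ < 1`,
`‖8 y‖ < ‖4‖ = ‖y‖ ^ 3`, so `‖y‖ ^ 3 = 1 / 4`: impossible, as `‖y‖` is an integral power of `2`. -/
def S_EXA : Prop := ∃ α : Fin 4 → PadicAlgCl 2, Function.Injective α ∧
  (∀ i, α i ^ 4 + 2 * α i + 2 = 0) ∧ HasAlt 2 α

end Pool.Agent.P8H33.QC
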