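import Pool.Agent.P8H33.QC.Wre3
import Pool.Agent.P8H33.QC.Stm
import Pool.Agent.P8H10.Gal1
import Pool.Agent.W245.PB.PSmall

set_option autoImplicit false

/-!
# Project QC: application to `p`-adic logarithms
-/

open Matrix Module

namespace Pool.Agent.P8H33.QC

open Pool.Agent.W245.PB (IsIwasawaLog)
open Pool.Agent.P8H10 (log_gal norm_gal)

variable {p : ℕ} [hp : Fact p.Prime]

/-- an automorphism as a ring homomorphism -/
noncomputable def rh (σ : PadicAlgCl p ≃ₐ[ℚ_[p]] PadicAlgCl p) : PadicAlgCl p →+* PadicAlgCl p :=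
  ((σ : PadicAlgCl p →ₐ[ℚ_[p]] PadicAlgCl p) : PadicAlgCl p →+* PadicAlgCl p)

theorem rh_apply (σ : PadicAlgCl p ≃ₐ[ℚ_[p]] PadicAlgCl p) (x : PadicAlgCl p) : rh σ x = σ x := rfl

section gen

variable {Ω : Type*} [Field Ω] [CharZero Ω]

theorem QQ_mono {n : ℕ} {V W : Submodule ℚ Ω} (h : V ≤ W) (hW : QQ n W) : QQ n V :=
  fun M hM hdet => hW M (fun i j => h (hM i j)) hdet

theorem QQ_of_singular {V : Submodule ℚ Ω} (h : Pool.Agent.W245.SingularHasZero V) (n : ℕ) :
    QQ n V := by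
  intro M hM hdet
  rcases Nat.eq_zero_or_pos n with h0 | h0
  · subst h0
    rw [Matrix.det_isEmpty] at hdet
    exact absurd hdet one_ne_zero
  · exact h n h0 M hM hdet

theorem QQ_large {V : Submodule ℚ Ω} [Module.Finite ℚ V] {n : ℕ} (h : finrank ℚ V < n) :
    QQ n V := fun M hM _ => Pool.Agent.W245.large_space V h M hM

theorem QQ_one (V : Submodule ℚ Ω) : QQ 1 V := by
  intro M _ hdet
  refine ⟨fun _ => 1, fun _ => 1, ?_, ?_, ?_⟩
  · intro h
    simpa using congrFun h 0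
  · intro h
    simpa using congrFun h 0
  · rw [Matrix.det_fin_one] at hdet
    simp [hdet]

theorem QQ_zero (V : Submodule ℚ Ω) : QQ 0 V := by
  intro M _ hdet
  rw [Matrix.det_isEmpty] at hdet
  exact absurd hdet one_ne_zero

theorem QQ_bot (n : ℕ) : QQ n (⊥ : Submodule ℚ Ω) := by
  rcases Nat.eq_zero_or_pos n with h0 | h0
  · subst h0
    exact QQ_zero _
  · exact QQ_large (by rw [finrank_bot]; exact h0)

theorem span3_finrank (x y z : Ω) : Module.Finite ℚ (Submodule.span ℚ {x, y, z}) ∧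
    finrank ℚ (Submodule.span ℚ ({x, y, z} : Set Ω)) ≤ 3 := by
  classical
  have h1 : ({x, y, z} : Set Ω) = (({x, y, z} : Finset Ω) : Set Ω) := by simp
  rw [h1]
  refine ⟨Module.Finite.span_of_finite ℚ (Finset.finite_toSet _), ?_⟩
  refine (finrank_span_finset_le_card _).trans ?_
  exact Finset.card_le_three

/-- the span of `x, y, z` for all sizes -/
theorem Kl.all {σ τ : Ω →+* Ω} {x y z : Ω} (h : Kl σ τ x y z) (n : ℕ) :
    QQ n (Submodule.span ℚ {x, y, z}) := by
  obtain ⟨hf, h3⟩ := span3_finrank x y z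
  rcases Nat.lt_or_ge 3 n with hn | hn
  · exact QQ_large (lt_of_le_of_lt h3 hn)
  · interval_cases n
    · exact QQ_zero _
    · exact QQ_one _
    · have := four_add h ⊥ (by
        intro w hw
        rw [(Submodule.mem_bot ℚ).1 hw, map_zero]) (by
        intro w hw
        rw [(Submodule.mem_bot ℚ).1 hw, map_zero]) (QQ_bot 2)
      rwa [bot_sup_eq] at this
    · exact three h

/-- independence -/
theorem Kl.indep {σ τ : Ω →+* Ω} {x y z : Ω} (h : Kl σ τ x y z) (a b c : ℚ)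
    (he : (a : Ω) * x + b * y + c * z = 0) : a = 0 ∧ b = 0 ∧ c = 0 := by
  have key : ∀ a b c : ℚ, (a : Ω) * x + b * y + c * z = 0 → a = 0 := by
    intro a b c he
    have e1 := congrArg σ he
    simp only [map_add, map_mul, map_ratCast, map_zero, h.sx, h.sy, h.sz] at e1
    have e2 : (2 * (a : Ω)) * x = 0 := by linear_combination he + e1
    have e3 := (mul_eq_zero.1 e2).resolve_right h.nx
    have e4 := (mul_eq_zero.1 e3).resolve_left two_ne_zero
    exact_mod_cast e4
  have e1 := congrArg τ he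
  simp only [map_add, map_mul, map_ratCast, map_zero, h.tx, h.ty, h.tz] at e1
  have e2 := congrArg τ e1
  simp only [map_add, map_mul, map_ratCast, map_zero, h.tx, h.ty, h.tz] at e2
  exact ⟨key a b c he, key b c a (by linear_combination e2), key c a b (by linear_combination e1)⟩

theorem Wr.indep {ℓ : ℕ} [hℓ : Fact ℓ.Prime] {τ : Ω →+* Ω} {σ : ZMod ℓ → Ω →+* Ω} {x : ZMod ℓ → Ω}
    (h : Wr ℓ τ σ x) : LinearIndependent ℚ x := by
  classical
  rw [Fintype.linearIndependent_iff]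
  intro g hg k
  simp only [Algebra.smul_def, eq_ratCast] at hg
  have e1 := congrArg (σ k) hg
  rw [map_sum, map_zero, ← Finset.add_sum_erase _ _ (Finset.mem_univ k)] at e1
  have e2 : ∑ i ∈ Finset.univ.erase k, σ k ((g i : Ω) * x i) =
      ∑ i ∈ Finset.univ.erase k, (g i : Ω) * x i := by
    refine Finset.sum_congr rfl fun i hi => ?_
    rw [map_mul, map_ratCast, h.so k i (Finset.ne_of_mem_erase hi)]
  rw [e2, map_mul, map_ratCast, h.ss] at e1
  rw [← Finset.add_sum_erase _ _ (Finset.mem_univ k)] at hg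
  have e3 : (2 * (g k : Ω)) * x k = 0 := by linear_combination hg - e1
  have e4 := (mul_eq_zero.1 e3).resolve_right (h.nx k)
  have e5 := (mul_eq_zero.1 e4).resolve_left two_ne_zero
  exact_mod_cast e5

/-- the fixed vectors meet the span only in zero -/
theorem Wr.disj {ℓ : ℕ} [hℓ : Fact ℓ.Prime] {τ : Ω →+* Ω} {σ : ZMod ℓ → Ω →+* Ω} {x : ZMod ℓ → Ω}
    (h : Wr ℓ τ σ x) (U : Submodule ℚ Ω) (hU : ∀ i, ∀ w ∈ U, σ i w = w) :
    Disjoint U (Submodule.span ℚ (Set.range x)) := by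
  classical
  rw [Submodule.disjoint_def]
  intro w hw hwx
  obtain ⟨g, hg⟩ := (Submodule.mem_span_range_iff_exists_fun ℚ).1 hwx
  simp only [Algebra.smul_def, eq_ratCast] at hg
  have hz : ∀ k, g k = 0 := by
    intro k
    have e1 := congrArg (σ k) hg
    rw [map_sum, hU k w hw, ← Finset.add_sum_erase _ _ (Finset.mem_univ k)] at e1
    have e2 : ∑ i ∈ Finset.univ.erase k, σ k ((g i : Ω) * x i) =
        ∑ i ∈ Finset.univ.erase k, (g i : Ω) * x i := by
      refine Finset.sum_congr rfl fun i hi => ?_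
      rw [map_mul, map_ratCast, h.so k i (Finset.ne_of_mem_erase hi)]
    rw [e2, map_mul, map_ratCast, h.ss] at e1
    rw [← Finset.add_sum_erase _ _ (Finset.mem_univ k)] at hg
    have e3 : (2 * (g k : Ω)) * x k = 0 := by linear_combination hg - e1
    have e4 := (mul_eq_zero.1 e3).resolve_right (h.nx k)
    have e5 := (mul_eq_zero.1 e4).resolve_left two_ne_zero
    exact_mod_cast e5
  rw [← hg]
  refine Finset.sum_eq_zero fun i _ => ?_
  rw [hz i]
  simp

end gen

/-- small spaces -/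
theorem QQ_small {L : PadicAlgCl p → PadicAlgCl p} (hL : IsIwasawaLog p L)
    {β γ : PadicAlgCl p} (hβ : β ≠ 0) (hβa : IsAlgebraic ℚ β) (hγ : γ ≠ 0) (hγa : IsAlgebraic ℚ γ)
    (n : ℕ) : QQ n (Submodule.span ℚ {L β, L γ}) := by
  classical
  have h1 : ({L β, L γ} : Set (PadicAlgCl p)) = (({L β, L γ} : Finset (PadicAlgCl p)) : Set _) := by
    simp
  have hfin : Module.Finite ℚ (Submodule.span ℚ ({L β, L γ} : Set (PadicAlgCl p))) := by
    rw [h1]
    exact Module.Finite.span_of_finite ℚ (Finset.finite_toSet _)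
  refine QQ_of_singular (Pool.Agent.W245.PB.small_of_logs hL _ ?_ ?_) n
  · intro x hx
    obtain ⟨a, b, rfl⟩ := Submodule.mem_span_pair.1 hx
    have key : ∀ (q : ℚ) (α : PadicAlgCl p), α ≠ 0 → IsAlgebraic ℚ α →
        ∃ β : PadicAlgCl p, β ≠ 0 ∧ IsAlgebraic ℚ β ∧ q • L α = L β := by
      intro q α hα hαa
      obtain ⟨β, hβ⟩ := IsAlgClosed.exists_pow_nat_eq (α ^ q.num) q.den_pos
      have hαz : α ^ q.num ≠ 0 := zpow_ne_zero _ hα
      have hβ0 : β ≠ 0 := by
        rintro rfl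
        rw [zero_pow q.den_nz] at hβ
        exact hαz hβ.symm
      have hβa : IsAlgebraic ℚ β := by
        refine IsAlgebraic.of_pow q.den_pos ?_
        rw [hβ]
        exact Pool.Agent.W245.PB.isAlgebraic_zpow hαa _
      refine ⟨β, hβ0, hβa, ?_⟩
      have h1 : (q.den : PadicAlgCl p) * L β = q.num * L α := by
        rw [← hL.pow hβ0, hβ, hL.zpow hα]
      have hd : (q.den : PadicAlgCl p) ≠ 0 := Nat.cast_ne_zero.2 q.den_nz
      rw [Algebra.smul_def]
      have h2 : (algebraMap ℚ (PadicAlgCl p)) q = (q.num : PadicAlgCl p) / q.den := by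
        rw [eq_ratCast]
        exact_mod_cast congrArg (Rat.cast (K := PadicAlgCl p)) (Rat.num_div_den q).symm
      rw [h2]
      field_simp
      linear_combination -h1
    obtain ⟨β', hβ', hβa', e1⟩ := key a β hβ hβa
    obtain ⟨γ', hγ', hγa', e2⟩ := key b γ hγ hγa
    exact ⟨β' * γ', mul_ne_zero hβ' hγ', hβa'.mul hγa', by rw [e1, e2, hL.mul _ _ hβ' hγ']⟩
  · rw [h1]
    exact (finrank_span_finset_le_card _).trans Finset.card_le_two

/-! ## The alternating group -/

section alt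

/-- the double transposition and the three-cycle -/
def pS : Equiv.Perm (Fin 4) := Equiv.swap 0 1 * Equiv.swap 2 3

/-- the three-cycle -/
def pT : Equiv.Perm (Fin 4) := Equiv.swap 1 2 * Equiv.swap 2 3

/-- another double transposition -/
def pU : Equiv.Perm (Fin 4) := Equiv.swap 0 2 * Equiv.swap 1 3

/-- the third double transposition -/
def pV : Equiv.Perm (Fin 4) := Equiv.swap 0 3 * Equiv.swap 1 2

theorem pS_mem : pS ∈ alternatingGroup (Fin 4) := by
  rw [Equiv.Perm.mem_alternatingGroup]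
  decide

theorem pT_mem : pT ∈ alternatingGroup (Fin 4) := by
  rw [Equiv.Perm.mem_alternatingGroup]
  decide

theorem pU_mem : pU ∈ alternatingGroup (Fin 4) := by
  rw [Equiv.Perm.mem_alternatingGroup]
  decide

theorem pV_mem : pV ∈ alternatingGroup (Fin 4) := by
  rw [Equiv.Perm.mem_alternatingGroup]
  decide

theorem pS_val : pS 0 = 1 ∧ pS 1 = 0 ∧ pS 2 = 3 ∧ pS 3 = 2 := by decide

theorem pT_val : pT 0 = 0 ∧ pT 1 = 2 ∧ pT 2 = 3 ∧ pT 3 = 1 := by decide

theorem pU_comm : pT * pU * pT⁻¹ * pU⁻¹ = pS := by decide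

theorem pV_comm : pT * pV * pT⁻¹ * pV⁻¹ = pU := by decide

theorem pU_val : pU 0 = 2 ∧ pU 2 = 0 := by decide

variable {L : PadicAlgCl p → PadicAlgCl p}

/-- the configuration in terms of the logarithms -/
theorem kl_of (hL : IsIwasawaLog p L) (α : Fin 4 → PadicAlgCl p) (hα : ∀ i, α i ≠ 0)
    {σ τ : PadicAlgCl p ≃ₐ[ℚ_[p]] PadicAlgCl p} (hσ : ∀ i, σ (α i) = α (pS i))
    (hτ : ∀ i, τ (α i) = α (pT i)) (hx : L (α 0) + L (α 1) - L (α 2) - L (α 3) ≠ 0) :
    Kl (rh σ) (rh τ) (L (α 0) + L (α 1) - L (α 2) - L (α 3))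
      (L (α 0) + L (α 2) - L (α 1) - L (α 3)) (L (α 0) + L (α 3) - L (α 1) - L (α 2)) := by
  obtain ⟨s0, s1, s2, s3⟩ := pS_val
  obtain ⟨t0, t1, t2, t3⟩ := pT_val
  have hs : ∀ i, rh σ (L (α i)) = L (α (pS i)) := fun i => by
    rw [rh_apply, ← log_gal hL σ (hα i), hσ]
  have ht : ∀ i, rh τ (L (α i)) = L (α (pT i)) := fun i => by
    rw [rh_apply, ← log_gal hL τ (hα i), hτ]
  refine ⟨?_, ?_, ?_, ?_, ?_, ?_, hx⟩
  all_goals simp only [map_sub, map_add, hs, ht, s0, s1, s2, s3, t0, t1, t2, t3]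
  all_goals ring

/-- **A₄, two by two matrices.** -/
theorem alt_four (hL : IsIwasawaLog p L) (α : Fin 4 → PadicAlgCl p) (hα : ∀ i, α i ≠ 0)
    (U : Submodule ℚ (PadicAlgCl p))
    (hA : ∀ π ∈ alternatingGroup (Fin 4), ∃ σ : PadicAlgCl p ≃ₐ[ℚ_[p]] PadicAlgCl p,
      (∀ i, σ (α i) = α (π i)) ∧ ∀ w ∈ U, σ w = w)
    (hsum : ∑ i, L (α i) ∈ U) (hU : QQ 2 U) :
    QQ 2 (U ⊔ Submodule.span ℚ (Set.range fun i => L (α i))) := by
  obtain ⟨σ, hσ, hσU⟩ := hA pS pS_mem
  obtain ⟨τ, hτ, hτU⟩ := hA pT pT_mem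
  rw [Fin.sum_univ_four] at hsum
  obtain ⟨t0, t1, t2, t3⟩ := pT_val
  have ht : ∀ i, rh τ (L (α i)) = L (α (pT i)) := fun i => by
    rw [rh_apply, ← log_gal hL τ (hα i), hτ]
  by_cases hx : L (α 0) + L (α 1) - L (α 2) - L (α 3) = 0
  · have hy : L (α 0) + L (α 2) - L (α 1) - L (α 3) = 0 := by
      have := congrArg (rh τ) hx
      simp only [map_sub, map_add, ht, t0, t1, t2, t3, map_zero] at this
      linear_combination this
    have hz : L (α 0) + L (α 3) - L (α 1) - L (α 2) = 0 := by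
      have := congrArg (rh τ) hy
      simp only [map_sub, map_add, ht, t0, t1, t2, t3, map_zero] at this
      linear_combination this
    have hall : ∀ i, L (α i) = (1 / 4 : ℚ) • (L (α 0) + L (α 1) + L (α 2) + L (α 3)) := by
      intro i
      rw [Algebra.smul_def, eq_ratCast]
      push_cast
      fin_cases i
      · change L (α 0) = _
        linear_combination (1 / 4) * hx + (1 / 4) * hy + (1 / 4) * hz
      · change L (α 1) = _
        linear_combination (1 / 4) * hx - (1 / 4) * hy - (1 / 4) * hz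
      · change L (α 2) = _
        linear_combination (-1 / 4) * hx + (1 / 4) * hy - (1 / 4) * hz
      · change L (α 3) = _
        linear_combination (-1 / 4) * hx - (1 / 4) * hy + (1 / 4) * hz
    refine QQ_mono ?_ hU
    rw [sup_le_iff]
    refine ⟨le_rfl, Submodule.span_le.2 ?_⟩
    rintro _ ⟨i, rfl⟩
    change L (α i) ∈ U
    rw [hall i]
    exact Submodule.smul_mem _ _ hsum
  · have hk := kl_of hL α hα hσ hτ hx
    refine QQ_mono ?_ (four_add hk U (fun w hw => hσU w hw) (fun w hw => hτU w hw) hU)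
    rw [sup_le_iff]
    refine ⟨le_sup_left, Submodule.span_le.2 ?_⟩
    have hu := (le_sup_left : U ≤ U ⊔ Submodule.span ℚ
      {L (α 0) + L (α 1) - L (α 2) - L (α 3), L (α 0) + L (α 2) - L (α 1) - L (α 3),
        L (α 0) + L (α 3) - L (α 1) - L (α 2)}) hsum
    have hX : L (α 0) + L (α 1) - L (α 2) - L (α 3) ∈ U ⊔ Submodule.span ℚ
      {L (α 0) + L (α 1) - L (α 2) - L (α 3), L (α 0) + L (α 2) - L (α 1) - L (α 3),
        L (α 0) + L (α 3) - L (α 1) - L (α 2)} :=
      Submodule.mem_sup_right (Submodule.subset_span (by simp))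
    have hY : L (α 0) + L (α 2) - L (α 1) - L (α 3) ∈ U ⊔ Submodule.span ℚ
      {L (α 0) + L (α 1) - L (α 2) - L (α 3), L (α 0) + L (α 2) - L (α 1) - L (α 3),
        L (α 0) + L (α 3) - L (α 1) - L (α 2)} :=
      Submodule.mem_sup_right (Submodule.subset_span (by simp))
    have hZ : L (α 0) + L (α 3) - L (α 1) - L (α 2) ∈ U ⊔ Submodule.span ℚ
      {L (α 0) + L (α 1) - L (α 2) - L (α 3), L (α 0) + L (α 2) - L (α 1) - L (α 3),
        L (α 0) + L (α 3) - L (α 1) - L (α 2)} :=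
      Submodule.mem_sup_right (Submodule.subset_span (by simp))
    generalize U ⊔ Submodule.span ℚ
      {L (α 0) + L (α 1) - L (α 2) - L (α 3), L (α 0) + L (α 2) - L (α 1) - L (α 3),
        L (α 0) + L (α 3) - L (α 1) - L (α 2)} = W at hu hX hY hZ ⊢
    have hcomb : ∀ a b c d : ℚ, (a : PadicAlgCl p) * (L (α 0) + L (α 1) + L (α 2) + L (α 3)) +
        b * (L (α 0) + L (α 1) - L (α 2) - L (α 3)) + c * (L (α 0) + L (α 2) - L (α 1) - L (α 3)) +
        d * (L (α 0) + L (α 3) - L (α 1) - L (α 2)) ∈ W := by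
      intro a b c d
      have h1 := W.add_mem (W.add_mem (W.add_mem (W.smul_mem a hu) (W.smul_mem b hX))
        (W.smul_mem c hY)) (W.smul_mem d hZ)
      simpa only [Algebra.smul_def, eq_ratCast] using h1
    rintro _ ⟨i, rfl⟩
    change L (α i) ∈ W
    fin_cases i
    · change L (α 0) ∈ W
      convert hcomb (1 / 4) (1 / 4) (1 / 4) (1 / 4) using 1
      push_cast
      ring
    · change L (α 1) ∈ W
      convert hcomb (1 / 4) (1 / 4) (-1 / 4) (-1 / 4) using 1
      push_cast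
      ring
    · change L (α 2) ∈ W
      convert hcomb (1 / 4) (-1 / 4) (1 / 4) (-1 / 4) using 1
      push_cast
      ring
    · change L (α 3) ∈ W
      convert hcomb (1 / 4) (-1 / 4) (-1 / 4) (1 / 4) using 1
      push_cast
      ring

/-- the span when the sum vanishes -/
theorem span_le3 (α : Fin 4 → PadicAlgCl p) (hsum : ∑ i, L (α i) = 0) :
    Submodule.span ℚ (Set.range fun i => L (α i)) ≤ Submodule.span ℚ
      {L (α 0) + L (α 1) - L (α 2) - L (α 3), L (α 0) + L (α 2) - L (α 1) - L (α 3),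
        L (α 0) + L (α 3) - L (α 1) - L (α 2)} := by
  rw [Fin.sum_univ_four] at hsum
  rw [Submodule.span_le]
  have hcomb : ∀ b c d : ℚ,
      b * (L (α 0) + L (α 1) - L (α 2) - L (α 3)) + c * (L (α 0) + L (α 2) - L (α 1) - L (α 3)) +
      d * (L (α 0) + L (α 3) - L (α 1) - L (α 2)) ∈ Submodule.span ℚ
      {L (α 0) + L (α 1) - L (α 2) - L (α 3), L (α 0) + L (α 2) - L (α 1) - L (α 3),
        L (α 0) + L (α 3) - L (α 1) - L (α 2)} := by
    intro b c d
    refine Submodule.mem_span_triple.2 ⟨b, c, d, ?_⟩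
    simp only [Algebra.smul_def, eq_ratCast]
  rintro _ ⟨i, rfl⟩
  change L (α i) ∈ Submodule.span ℚ _
  fin_cases i
  · change L (α 0) ∈ Submodule.span ℚ _
    convert hcomb (1 / 4) (1 / 4) (1 / 4) using 1
    push_cast
    linear_combination (1 / 4) * hsum
  · change L (α 1) ∈ Submodule.span ℚ _
    convert hcomb (1 / 4) (-1 / 4) (-1 / 4) using 1
    push_cast
    linear_combination (1 / 4) * hsum
  · change L (α 2) ∈ Submodule.span ℚ _
    convert hcomb (-1 / 4) (1 / 4) (-1 / 4) using 1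
    push_cast
    linear_combination (1 / 4) * hsum
  · change L (α 3) ∈ Submodule.span ℚ _
    convert hcomb (-1 / 4) (-1 / 4) (1 / 4) using 1
    push_cast
    linear_combination (1 / 4) * hsum

/-- **A₄, all sizes**, when the sum of the logarithms vanishes. -/
theorem alt_all (hL : IsIwasawaLog p L) (α : Fin 4 → PadicAlgCl p) (hα : ∀ i, α i ≠ 0)
    (hA : HasAlt p α) (hsum : ∑ i, L (α i) = 0) (n : ℕ) :
    QQ n (Submodule.span ℚ (Set.range fun i => L (α i))) := by
  obtain ⟨σ, hσ⟩ := hA pS pS_mem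
  obtain ⟨τ, hτ⟩ := hA pT pT_mem
  refine QQ_mono (span_le3 α hsum) ?_
  obtain ⟨t0, t1, t2, t3⟩ := pT_val
  have ht : ∀ i, rh τ (L (α i)) = L (α (pT i)) := fun i => by
    rw [rh_apply, ← log_gal hL τ (hα i), hτ]
  by_cases hx : L (α 0) + L (α 1) - L (α 2) - L (α 3) = 0
  · have hy : L (α 0) + L (α 2) - L (α 1) - L (α 3) = 0 := by
      have := congrArg (rh τ) hx
      simp only [map_sub, map_add, ht, t0, t1, t2, t3, map_zero] at this
      linear_combination this
    have hz : L (α 0) + L (α 3) - L (α 1) - L (α 2) = 0 := by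
      have := congrArg (rh τ) hy
      simp only [map_sub, map_add, ht, t0, t1, t2, t3, map_zero] at this
      linear_combination this
    rw [hx, hy, hz]
    simp only [Set.insert_eq_of_mem, Set.mem_singleton_iff, Submodule.span_zero_singleton]
    exact QQ_bot n
  · exact (kl_of hL α hα hσ hτ hx).all n

/-- a number of norm one and logarithm zero is a root of unity -/
theorem root_of_log (hL : IsIwasawaLog p L) {u : PadicAlgCl p} (hu : ‖u‖ = 1) (h : L u = 0) :
    ∃ N : ℕ, 0 < N ∧ u ^ N = 1 := by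
  have hp3 : (0 : ℝ) < (p : ℝ) ^ 3 := by
    have : (0 : ℝ) < p := by exact_mod_cast hp.out.pos
    positivity
  obtain ⟨M, hM, hM2⟩ := Pool.Agent.W254.PA.exists_pow_near p u hu (1 / (p : ℝ) ^ 3) (by positivity)
  refine ⟨M, hM, ?_⟩
  have hu0 : u ≠ 0 := by
    rintro rfl
    simp at hu
  refine hL.eq_one ?_ (by rw [hL.pow hu0, h, mul_zero])
  have := hM2.le
  rw [le_div_iff₀ hp3] at this
  exact this

/-- commutators fix the roots of unity -/
theorem comm_root {u : PadicAlgCl p} {N : ℕ} (hN : 0 < N) (hu : u ^ N = 1)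
    (g h : PadicAlgCl p ≃ₐ[ℚ_[p]] PadicAlgCl p) : (g * h * g⁻¹ * h⁻¹) u = u := by
  have hprim : IsPrimitiveRoot u (orderOf u) := IsPrimitiveRoot.orderOf u
  have hpos : 0 < orderOf u := orderOf_pos_iff.2 (isOfFinOrder_iff_pow_eq_one.2 ⟨N, hN, hu⟩)
  have key : ∀ f : PadicAlgCl p ≃ₐ[ℚ_[p]] PadicAlgCl p, ∃ a : ℕ, f u = u ^ a := by
    intro f
    have h1 : (f u) ^ orderOf u = 1 := by
      rw [← map_pow, pow_orderOf_eq_one, map_one]
    have : NeZero (orderOf u) := ⟨hpos.ne'⟩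
    obtain ⟨a, -, ha⟩ := hprim.eq_pow_of_pow_eq_one h1
    exact ⟨a, ha.symm⟩
  have hcomm : ∀ f f' : PadicAlgCl p ≃ₐ[ℚ_[p]] PadicAlgCl p, f (f' u) = f' (f u) := by
    intro f f'
    obtain ⟨a, ha⟩ := key f
    obtain ⟨b, hb⟩ := key f'
    rw [hb, map_pow, ha, map_pow, hb, ← pow_mul, ← pow_mul, mul_comm]
  have h1 : (g * h * g⁻¹ * h⁻¹) u = g (h (g⁻¹ (h⁻¹ u))) := rfl
  rw [h1]
  have h2 : g⁻¹ (h⁻¹ u) = h⁻¹ (g⁻¹ u) := hcomm _ _
  rw [h2]
  have h3 : h (h⁻¹ (g⁻¹ u)) = g⁻¹ u := AlgEquiv.apply_symm_apply h _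
  rw [h3]
  exact AlgEquiv.apply_symm_apply g _

/-- the logarithms of distinct `α i` -/
theorem alt_nonzero (hL : IsIwasawaLog p L) (α : Fin 4 → PadicAlgCl p) (hα : ∀ i, α i ≠ 0)
    (hinj : Function.Injective α) (hA : HasAlt p α) :
    L (α 0) + L (α 1) - L (α 2) - L (α 3) ≠ 0 := by
  intro hx
  obtain ⟨τ, hτ⟩ := hA pT pT_mem
  obtain ⟨s, hs⟩ := hA pS pS_mem
  obtain ⟨u, hu⟩ := hA pU pU_mem
  obtain ⟨v, hv⟩ := hA pV pV_mem
  obtain ⟨t0, t1, t2, t3⟩ := pT_val
  have ht : ∀ i, rh τ (L (α i)) = L (α (pT i)) := fun i => by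
    rw [rh_apply, ← log_gal hL τ (hα i), hτ]
  have hy : L (α 0) + L (α 2) - L (α 1) - L (α 3) = 0 := by
    have := congrArg (rh τ) hx
    simp only [map_sub, map_add, ht, t0, t1, t2, t3, map_zero] at this
    linear_combination this
  have hz : L (α 0) + L (α 3) - L (α 1) - L (α 2) = 0 := by
    have := congrArg (rh τ) hy
    simp only [map_sub, map_add, ht, t0, t1, t2, t3, map_zero] at this
    linear_combination this
  have e01 : L (α 0) = L (α 1) := by linear_combination (1 / 2) * hy + (1 / 2) * hz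
  have e02 : L (α 0) = L (α 2) := by linear_combination (1 / 2) * hx + (1 / 2) * hz
  -- inverses of permutations
  have hinv : ∀ (f : PadicAlgCl p ≃ₐ[ℚ_[p]] PadicAlgCl p) (π : Equiv.Perm (Fin 4)),
      (∀ i, f (α i) = α (π i)) → ∀ i, f⁻¹ (α i) = α (π⁻¹ i) := by
    intro f π hf i
    have h1 : f (α (π⁻¹ i)) = α i := by
      rw [hf]
      congr 1
      exact Equiv.apply_symm_apply π i
    rw [← h1]
    exact AlgEquiv.symm_apply_apply f _
  have main : ∀ (h : PadicAlgCl p ≃ₐ[ℚ_[p]] PadicAlgCl p) (π ρ : Equiv.Perm (Fin 4)) (j : Fin 4)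
      (e : PadicAlgCl p ≃ₐ[ℚ_[p]] PadicAlgCl p),
      (∀ i, h (α i) = α (π i)) → pT * π * pT⁻¹ * π⁻¹ = ρ → ρ 0 = j → ρ j = 0 →
      (∀ i, e (α i) = α (ρ i)) → L (α 0) = L (α j) → α 0 ^ 2 = α j ^ 2 := by
    intro h π ρ j e hh hρ h0 hj he hLj
    have hc : ∀ i, (τ * h * τ⁻¹ * h⁻¹) (α i) = α (ρ i) := by
      intro i
      have h1 : (τ * h * τ⁻¹ * h⁻¹) (α i) = τ (h (τ⁻¹ (h⁻¹ (α i)))) := rfl
      rw [h1, hinv h π hh, hinv τ pT hτ, hh, hτ, ← hρ]
      rfl
    have hnorm : ‖α j / α 0‖ = 1 := by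
      rw [norm_div, ← h0, ← he 0, norm_gal, div_self]
      exact norm_ne_zero_iff.2 (hα 0)
    have hlog : L (α j / α 0) = 0 := by
      rw [div_eq_mul_inv, hL.mul _ _ (hα j) (inv_ne_zero (hα 0)), hL.inv (hα 0), hLj]
      ring
    obtain ⟨N, hN, hroot⟩ := root_of_log hL hnorm hlog
    have hfix := comm_root hN hroot τ h
    rw [map_div₀, hc, hc, h0, hj] at hfix
    rw [div_eq_div_iff (hα j) (hα 0)] at hfix
    linear_combination hfix
  have q1 := main u pU pS 1 s hu pU_comm pS_val.1 pS_val.2.1 hs e01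
  have q2 := main v pV pU 2 u hv pV_comm pU_val.1 pU_val.2 hu e02
  have n1 : α 0 ≠ α 1 := fun h => by have := hinj h; exact absurd this (by decide)
  have n2 : α 0 ≠ α 2 := fun h => by have := hinj h; exact absurd this (by decide)
  have n3 : α 1 ≠ α 2 := fun h => by have := hinj h; exact absurd this (by decide)
  rcases sq_eq_sq_iff_eq_or_eq_neg.1 q1 with h1 | h1
  · exact n1 h1
  · rcases sq_eq_sq_iff_eq_or_eq_neg.1 q2 with h2 | h2
    · exact n2 h2
    · apply n3
      have : -α 1 = -α 2 := by rw [← h1, ← h2]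
      exact neg_injective this

end alt

end Pool.Agent.P8H33.QC
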