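import Pool.Agent.P8H33.QC.AppK

set_option autoImplicit false

/-!
# Project QC: the strong four exponentials over `ℚ_2`, quartic fields and existence
-/

open Matrix Module Polynomial

namespace Pool.Agent.P8H33.QC

open Pool.Agent.W245.PB (IsIwasawaLog brumer)
open Pool.Agent.P8H10 (log_gal norm_gal)

variable {L : PadicAlgCl 2 → PadicAlgCl 2}

theorem z3a : (0 : ZMod 3) + 1 = 1 := by decide

theorem z3b : (1 : ZMod 3) + 1 = 2 := by decide

theorem z3c : (2 : ZMod 3) + 1 = 0 := by decide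

theorem pV_val : pV 0 = 3 ∧ pV 1 = 2 ∧ pV 2 = 1 ∧ pV 3 = 0 := by decide

/-- **Quartic fields.** -/
theorem quarticK (hL : IsIwasawaLog 2 L) (α : Fin 4 → PadicAlgCl 2) (hα : ∀ i, α i ≠ 0)
    (halg : ∀ i, IsAlgebraic ℚ (α i)) (hA : HasAlt 2 α) (M : Matrix (Fin 2) (Fin 2) (PadicAlgCl 2))
    (hM : ∀ i j, M i j ∈ Submodule.span K2 ({1} ∪ Set.range fun i => L (α i)))
    (hdet : M.det = 0) : DepK K2 M := by
  obtain ⟨τ, hτ⟩ := hA pT pT_mem
  obtain ⟨σ, hσ⟩ := hA pV pV_mem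
  obtain ⟨t0, t1, t2, t3⟩ := pT_val
  obtain ⟨s0, s1, s2, s3⟩ := pV_val
  have hirr3 := Pool.Agent.P8H68.QC.ani.2
  have : Fact (Nat.Prime 3) := ⟨by norm_num⟩
  let β : ZMod 3 → PadicAlgCl 2 := fun i =>
    if i = 0 then α 0 * α 1 * (α 2 * α 3)⁻¹ else
      if i = 1 then α 0 * α 2 * (α 1 * α 3)⁻¹ else α 0 * α 3 * (α 1 * α 2)⁻¹
  have b0 : β 0 = α 0 * α 1 * (α 2 * α 3)⁻¹ := rfl
  have b1 : β 1 = α 0 * α 2 * (α 1 * α 3)⁻¹ := rfl
  have b2 : β 2 = α 0 * α 3 * (α 1 * α 2)⁻¹ := rfl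
  have hm : ∀ i j, α i * α j ≠ 0 := fun i j => mul_ne_zero (hα i) (hα j)
  have l0 : L (β 0) = L (α 0) + L (α 1) - L (α 2) - L (α 3) := by
    rw [b0, hL.mul _ _ (hm 0 1) (inv_ne_zero (hm 2 3)), hL.inv (hm 2 3), hL.mul _ _ (hα 0) (hα 1),
      hL.mul _ _ (hα 2) (hα 3)]
    ring
  have l1 : L (β 1) = L (α 0) + L (α 2) - L (α 1) - L (α 3) := by
    rw [b1, hL.mul _ _ (hm 0 2) (inv_ne_zero (hm 1 3)), hL.inv (hm 1 3), hL.mul _ _ (hα 0) (hα 2),
      hL.mul _ _ (hα 1) (hα 3)]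
    ring
  have l2 : L (β 2) = L (α 0) + L (α 3) - L (α 1) - L (α 2) := by
    rw [b2, hL.mul _ _ (hm 0 3) (inv_ne_zero (hm 1 2)), hL.inv (hm 1 2), hL.mul _ _ (hα 0) (hα 3),
      hL.mul _ _ (hα 1) (hα 2)]
    ring
  have hβ : ∀ i, β i ≠ 0 := by
    intro i
    rcases zmod3_cases' i with rfl | rfl | rfl
    · rw [b0]; exact mul_ne_zero (hm 0 1) (inv_ne_zero (hm 2 3))
    · rw [b1]; exact mul_ne_zero (hm 0 2) (inv_ne_zero (hm 1 3))
    · rw [b2]; exact mul_ne_zero (hm 0 3) (inv_ne_zero (hm 1 2))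
  have hprod : L (∏ i, α i) = ∑ i, L (α i) := hL.prod Finset.univ α (fun i _ => hα i)
  have hprod0 : ∏ i, α i ≠ 0 := Finset.prod_ne_zero_iff.2 fun i _ => hα i
  have hproda : IsAlgebraic ℚ (∏ i, α i) := by
    rw [Fin.prod_univ_four]
    exact (((halg 0).mul (halg 1)).mul (halg 2)).mul (halg 3)
  have hfix : ∀ (g : PadicAlgCl 2 ≃ₐ[ℚ_[2]] PadicAlgCl 2) (π : Equiv.Perm (Fin 4)),
      (∀ i, g (α i) = α (π i)) → g (L (∏ i, α i)) = L (∏ i, α i) := by
    intro g π hg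
    rw [hprod, map_sum, ← Equiv.sum_comp π (fun i => L (α i))]
    refine Finset.sum_congr rfl fun i _ => ?_
    rw [← log_gal hL g (hα i), hg]
  refine mainK_log hL (ℓ := 3) (by norm_num) hirr3 β hβ τ σ ?_ ?_ ?_ ?_ hprod0 hproda
    (hfix τ pT hτ) (hfix σ pV hσ) M ?_ hdet
  · intro i
    have e0 : (0 : ZMod 3) + 1 = 1 := z3a
    have e1 : (1 : ZMod 3) + 1 = 2 := z3b
    have e2 : (2 : ZMod 3) + 1 = 0 := z3c
    rcases zmod3_cases' i with rfl | rfl | rfl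
    · rw [e0, b0, b1, map_mul, map_mul, map_inv₀, map_mul, hτ, hτ, hτ, hτ, t0, t1, t2, t3,
        mul_comm (α 3) (α 1)]
    · rw [e1, b1, b2, map_mul, map_mul, map_inv₀, map_mul, hτ, hτ, hτ, hτ, t0, t1, t2, t3,
        mul_comm (α 2) (α 1)]
    · rw [e2, b2, b0, map_mul, map_mul, map_inv₀, map_mul, hτ, hτ, hτ, hτ, t0, t1, t2, t3]
  · rw [b0, map_mul, map_mul, map_inv₀, map_mul, hσ, hσ, hσ, hσ, s0, s1, s2, s3]
    simp only [_root_.mul_inv_rev, inv_inv]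
    ring
  · rw [b1, map_mul, map_mul, map_inv₀, map_mul, hσ, hσ, hσ, hσ, s0, s1, s2, s3]
    simp only [_root_.mul_inv_rev, inv_inv]
    ring
  · intro i h0 h1
    rcases zmod3_cases' i with rfl | rfl | rfl
    · exact absurd rfl h0
    · exact absurd rfl h1
    · rw [b2, map_mul, map_mul, map_inv₀, map_mul, hσ, hσ, hσ, hσ, s0, s1, s2, s3,
        mul_comm (α 3) (α 0), mul_comm (α 2) (α 1)]
  · intro i j
    have hle : Submodule.span K2 ({1} ∪ Set.range fun i => L (α i)) ≤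
        Submodule.span K2 {1, L (∏ i, α i)} ⊔ Submodule.span K2 (Set.range fun i => L (β i)) := by
      rw [Submodule.span_le]
      have h1 : (1 : PadicAlgCl 2) ∈ Submodule.span K2 {1, L (∏ i, α i)} ⊔
          Submodule.span K2 (Set.range fun i => L (β i)) :=
        Submodule.mem_sup_left (Submodule.subset_span (by simp))
      have hu : L (∏ i, α i) ∈ Submodule.span K2 {1, L (∏ i, α i)} ⊔
          Submodule.span K2 (Set.range fun i => L (β i)) :=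
        Submodule.mem_sup_left (Submodule.subset_span (by simp))
      have hb : ∀ i, L (β i) ∈ Submodule.span K2 {1, L (∏ i, α i)} ⊔
          Submodule.span K2 (Set.range fun i => L (β i)) := fun i =>
        Submodule.mem_sup_right (Submodule.subset_span ⟨i, rfl⟩)
      generalize Submodule.span K2 {1, L (∏ i, α i)} ⊔
          Submodule.span K2 (Set.range fun i => L (β i)) = W at h1 hu hb ⊢
      have hq : ∀ q : ℚ, algebraMap K2 (PadicAlgCl 2) (q : K2) = (q : PadicAlgCl 2) := by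
        intro q
        exact map_ratCast _ q
      have hcomb : ∀ a b c d : ℚ, (a : PadicAlgCl 2) * L (∏ i, α i) + b * L (β 0) + c * L (β 1) +
          d * L (β 2) ∈ W := by
        intro a b c d
        have h2 := W.add_mem (W.add_mem (W.add_mem (W.smul_mem (a : K2) hu)
          (W.smul_mem (b : K2) (hb 0))) (W.smul_mem (c : K2) (hb 1))) (W.smul_mem (d : K2) (hb 2))
        simpa only [Algebra.smul_def, hq] using h2
      rw [hprod, Fin.sum_univ_four, l0, l1, l2] at hcomb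
      rintro y (hy | ⟨i, rfl⟩)
      · rw [Set.mem_singleton_iff] at hy
        rw [hy]
        exact h1
      · change L (α i) ∈ W
        fin_cases i
        · change L (α 0) ∈ W
          convert hcomb (1 / 4) (1 / 4) (1 / 4) (1 / 4) using 1
          push_cast
          ring
        · change L (α 1) ∈ W
          convert hcomb (1 / 4) (1 / 4) (-1 / 4) (-1 / 4) using 1
          push_cast
          ring
        · change L (α 2) ∈ W
          convert hcomb (1 / 4) (-1 / 4) (1 / 4) (-1 / 4) using 1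
          push_cast
          ring
        · change L (α 3) ∈ W
          convert hcomb (1 / 4) (-1 / 4) (-1 / 4) (1 / 4) using 1
          push_cast
          ring
    exact hle (hM i j)

/-- **Existence.** -/
theorem exists_evK (hL : IsIwasawaLog 2 L) (ℓ : ℕ) [hℓ : Fact ℓ.Prime] (h2 : ℓ ≠ 2) :
    ∃ α : ZMod ℓ → PadicAlgCl 2, (∀ i, α i ≠ 0 ∧ IsAlgebraic ℚ (α i)) ∧
      LinearIndependent QB2 (fun i => L (α i)) ∧
      ∃ τ σ : PadicAlgCl 2 ≃ₐ[ℚ_[2]] PadicAlgCl 2, (∀ i, τ (α i) = α (i + 1)) ∧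
        σ (α 0) = (α 0)⁻¹ ∧ σ (α 1) = (α 1)⁻¹ ∧ ∀ i, i ≠ 0 → i ≠ 1 → σ (α i) = α i := by
  obtain ⟨α, hα, τ, σ, hτ, hσ0, hσ⟩ := Pool.Agent.P8H38.QC.exw Pool.Agent.P8H23.QC.t_TAU
    Pool.Agent.P8H62.QC.nbe Pool.Agent.P8H62.QC.unr Pool.Agent.P8H4.QC.kum ℓ hℓ.out.one_lt
  have hα0 : ∀ i, α i ≠ 0 := fun i => (hα i).2.1
  have hx : L (α 0) ≠ 0 := by
    intro h
    refine (hα 0).2.2.1 (hL.eq_one ?_ h)
    have := (hα 0).2.2.2
    push_cast
    linarith
  have hw := wr_of hL α hα0 τ σ hτ hσ0 hσ hx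
  have h01 : (1 : ZMod ℓ) ≠ 0 := by
    have : Fact (1 < ℓ) := ⟨hℓ.out.one_lt⟩
    exact one_ne_zero
  have hinv : ∀ i, τ⁻¹ (α i) = α (i - 1) := by
    intro i
    have := iter_inv τ α hτ 1 i
    simpa using this
  refine ⟨α, fun i => ⟨hα0 i, (hα i).1⟩,
    hL.indep_of_indep _ (fun i => ⟨α i, hα0 i, (hα i).1, rfl⟩) hw.indep,
    τ, σ * (τ * σ * τ⁻¹), hτ, ?_, ?_, ?_⟩
  · have e1 : (σ * (τ * σ * τ⁻¹)) (α 0) = σ (τ (σ (τ⁻¹ (α 0)))) := rfl
    have e2 : (0 : ZMod ℓ) - 1 ≠ 0 := by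
      intro h
      apply h01
      rw [sub_eq_zero] at h
      exact h.symm
    rw [e1, hinv, hσ _ e2, hτ, sub_add_cancel, hσ0]
  · have e1 : (σ * (τ * σ * τ⁻¹)) (α 1) = σ (τ (σ (τ⁻¹ (α 1)))) := rfl
    rw [e1, hinv, sub_self, hσ0, map_inv₀, hτ, zero_add, map_inv₀, hσ 1 h01]
  · intro i h0 h1
    have e1 : (σ * (τ * σ * τ⁻¹)) (α i) = σ (τ (σ (τ⁻¹ (α i)))) := rfl
    rw [e1, hinv, hσ _ (sub_ne_zero.2 h1), hτ, sub_add_cancel, hσ i h0]

end Pool.Agent.P8H33.QC
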