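import Pool.Agent.P8H33.QC.CoreN
import Pool.Agent.P8H33.QC.App2
import Pool.Agent.P8H41.QC.Sgn
import Pool.Agent.P8H10.SF.App
import Pool.Agent.P8H69.SF.Ani

set_option autoImplicit false

/-!
# Project QC: even sign changes over the field of the algebraic numbers in `ℚ_2`
-/

open Matrix Module Polynomial

namespace Pool.Agent.P8H33.QC

open Pool.Agent.W245.PB (IsIwasawaLog)
open Pool.Agent.P8H10 (log_gal)
open Pool.Agent.P8H10.SF (KQ mem_KQ fix_KQ toQ toQ_spec tern Bad)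

/-- an automorphism over `ℚ_2` as a homomorphism over `KQ 2` -/
noncomputable def qh (σ : PadicAlgCl 2 ≃ₐ[ℚ_[2]] PadicAlgCl 2) : PadicAlgCl 2 →ₐ[KQ 2] PadicAlgCl 2 :=
  { (rh σ : PadicAlgCl 2 →+* PadicAlgCl 2) with
    commutes' := fun c => fix_KQ σ c }

theorem qh_apply (σ : PadicAlgCl 2 ≃ₐ[ℚ_[2]] PadicAlgCl 2) (x : PadicAlgCl 2) : qh σ x = σ x := rfl

/-- the embedding into `ℚ_2` -/
noncomputable def toQhom : KQ 2 →+* ℚ_[2] where
  toFun := toQ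
  map_one' := by
    apply Pool.Agent.P8H10.SF.cast_inj
    rw [toQ_spec]
    exact (map_one (algebraMap ℚ_[2] (PadicAlgCl 2))).symm
  map_mul' x y := by
    apply Pool.Agent.P8H10.SF.cast_inj
    rw [toQ_spec]
    have h : ((toQ x * toQ y : ℚ_[2]) : PadicAlgCl 2) = (toQ x : PadicAlgCl 2) * (toQ y : PadicAlgCl 2) :=
      map_mul (algebraMap ℚ_[2] (PadicAlgCl 2)) _ _
    rw [h, toQ_spec, toQ_spec]
    rfl
  map_zero' := by
    apply Pool.Agent.P8H10.SF.cast_inj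
    rw [toQ_spec]
    exact (map_zero (algebraMap ℚ_[2] (PadicAlgCl 2))).symm
  map_add' x y := by
    apply Pool.Agent.P8H10.SF.cast_inj
    rw [toQ_spec]
    have h : ((toQ x + toQ y : ℚ_[2]) : PadicAlgCl 2) = (toQ x : PadicAlgCl 2) + (toQ y : PadicAlgCl 2) :=
      map_add (algebraMap ℚ_[2] (PadicAlgCl 2)) _ _
    rw [h, toQ_spec, toQ_spec]
    rfl

theorem KQ_irr {ℓ : ℕ} (h : Irreducible (cyclotomic ℓ ℚ_[2])) : Irreducible (cyclotomic ℓ (KQ 2)) := by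
  refine (cyclotomic.monic ℓ (KQ 2)).irreducible_of_irreducible_map toQhom _ ?_
  rw [map_cyclotomic]
  exact h

theorem not_bad_of_dep {M : Matrix (Fin 2) (Fin 2) (PadicAlgCl 2)} (h : DepK (KQ 2) M) : ¬ Bad M := by
  rintro ⟨hr, hc, -⟩
  let q : KQ 2 → algebraicClosure ℚ (PadicAlgCl 2) := fun c =>
    ⟨(c : PadicAlgCl 2), mem_algebraicClosure_iff.2 (mem_KQ.1 c.2).1⟩
  have hq : ∀ c, q c = 0 → c = 0 := by
    intro c hc0
    have h1 : (c : PadicAlgCl 2) = 0 := congrArg Subtype.val hc0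
    exact Subtype.ext h1
  have hs : ∀ (c : KQ 2) (y : PadicAlgCl 2), q c • y = algebraMap (KQ 2) (PadicAlgCl 2) c * y := by
    intro c y
    rw [Algebra.smul_def]
    rfl
  rcases h with ⟨a, ha, h⟩ | ⟨b, hb, h⟩
  · rw [Fintype.linearIndependent_iff] at hr
    apply ha
    have h1 := hr (fun i => q (a i)) (by
      ext j
      rw [Finset.sum_apply]
      simp only [Pi.smul_apply, hs, Matrix.row, Pi.zero_apply]
      exact h j)
    ext i
    have h2 := hq _ (h1 i)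
    rw [h2]
    rfl
  · rw [Fintype.linearIndependent_iff] at hc
    apply hb
    have h1 := hc (fun i => q (b i)) (by
      ext i
      rw [Finset.sum_apply]
      simp only [Pi.smul_apply, hs, Matrix.col, Pi.zero_apply]
      rw [← h i]
      refine Finset.sum_congr rfl fun j _ => ?_
      rw [mul_comm]
      rfl)
    ext i
    have h2 := hq _ (h1 i)
    rw [h2]
    rfl

variable {L : PadicAlgCl 2 → PadicAlgCl 2} {ℓ : ℕ} [hℓ : Fact ℓ.Prime]

/-- the configuration -/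
theorem ev_ofN (hL : IsIwasawaLog 2 L) (α : ZMod ℓ → PadicAlgCl 2) (hα : ∀ i, α i ≠ 0)
    (τ σ : PadicAlgCl 2 ≃ₐ[ℚ_[2]] PadicAlgCl 2) (hτ : ∀ i, τ (α i) = α (i + 1))
    (hσ0 : σ (α 0) = (α 0)⁻¹) (hσ1 : σ (α 1) = (α 1)⁻¹) (hσ : ∀ i, i ≠ 0 → i ≠ 1 → σ (α i) = α i)
    (U : Submodule (KQ 2) (PadicAlgCl 2)) (hUτ : ∀ w ∈ U, τ w = w) (hUσ : ∀ w ∈ U, σ w = w)
    (hx : L (α 0) ≠ 0) : Ev ℓ (qh τ) (fun i => L (α i)) U := by
  have htx : ∀ i, τ (L (α i)) = L (α (i + 1)) := fun i => by rw [← log_gal hL τ (hα i), hτ]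
  have hinvU : ∀ g : PadicAlgCl 2 ≃ₐ[ℚ_[2]] PadicAlgCl 2, (∀ w ∈ U, g w = w) →
      ∀ w ∈ U, g⁻¹ w = w := by
    intro g hg w hw
    conv_lhs => rw [← hg w hw]
    exact AlgEquiv.symm_apply_apply g w
  refine ⟨fun i => by rw [qh_apply, htx], fun w hw => hUτ w hw, ?_, ?_⟩
  · intro i j hij
    obtain ⟨f, ⟨g, hg, hgU⟩, f1, f2, f3⟩ := Pool.Agent.P8H41.QC.sgn (PadicAlgCl 2) ℓ
      (fun i => L (α i))
      {f | ∃ g : PadicAlgCl 2 ≃ₐ[ℚ_[2]] PadicAlgCl 2, f = rh g ∧ ∀ w ∈ U, g w = w}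
      (rh σ) (rh τ) (rh τ⁻¹) (by
        rintro _ ⟨g, rfl, hg⟩ _ ⟨g', rfl, hg'⟩
        refine ⟨g * g', rfl, fun w hw => ?_⟩
        rw [AlgEquiv.mul_apply, hg' w hw, hg w hw])
      ⟨σ, rfl, hUσ⟩ ⟨τ, rfl, hUτ⟩ ⟨τ⁻¹, rfl, hinvU τ hUτ⟩
      ⟨1, rfl, fun w _ => rfl⟩
      (fun i => by rw [rh_apply, htx])
      (fun i => by
        rw [rh_apply]
        have : L (α i) = τ (L (α (i - 1))) := by rw [htx, sub_add_cancel]
        rw [this]
        exact AlgEquiv.symm_apply_apply τ _)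
      (by rw [rh_apply, ← log_gal hL σ (hα 0), hσ0, hL.inv (hα 0)])
      (by rw [rh_apply, ← log_gal hL σ (hα 1), hσ1, hL.inv (hα 1)])
      (fun i h0 h1 => by rw [rh_apply, ← log_gal hL σ (hα i), hσ i h0 h1])
      i j hij
    refine ⟨qh g, ?_, ?_, ?_, fun w hw => hgU w hw⟩
    · rw [qh_apply, ← rh_apply, ← hg]
      exact f1
    · rw [qh_apply, ← rh_apply, ← hg]
      exact f2
    · intro m h1 h2
      rw [qh_apply, ← rh_apply, ← hg]
      exact f3 m h1 h2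
  · intro i
    have h1 : L (α i) = (τ ^ i.val) (L (α 0)) := by
      rw [← log_gal hL _ (hα 0), iter_pow τ α hτ, ZMod.natCast_zmod_val, zero_add]
    change L (α i) ≠ 0
    rw [h1]
    exact (_root_.map_ne_zero _).2 hx

/-- **Transfer**, even sign changes. -/
theorem all_even (hL : IsIwasawaLog 2 L) (h2 : ℓ ≠ 2)
    (α : ZMod ℓ → PadicAlgCl 2) (hα : ∀ i, α i ≠ 0)
    (τ σ : PadicAlgCl 2 ≃ₐ[ℚ_[2]] PadicAlgCl 2) (hτ : ∀ i, τ (α i) = α (i + 1))
    (hσ0 : σ (α 0) = (α 0)⁻¹) (hσ1 : σ (α 1) = (α 1)⁻¹) (hσ : ∀ i, i ≠ 0 → i ≠ 1 → σ (α i) = α i)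
    (hsq : (∀ b : ZMod ℓ → KQ 2, ∑ i, b i = 0 → ∑ i, (b i : PadicAlgCl 2) * L (α i) ^ 2 = 0 →
      ∀ i, b i = 0) ∨ Irreducible (cyclotomic ℓ ℚ_[2]))
    (U : Submodule (KQ 2) (PadicAlgCl 2)) (hUτ : ∀ w ∈ U, τ w = w) (hUσ : ∀ w ∈ U, σ w = w)
    (M : Matrix (Fin 2) (Fin 2) (PadicAlgCl 2))
    (hM : ∀ i j, M i j ∈ U ⊔ Submodule.span (KQ 2) (Set.range fun i => L (α i))) (hbad : Bad M) :
    ∀ i j, M i j ∈ U := by
  by_cases hx : L (α 0) = 0
  · have h0 : Submodule.span (KQ 2) (Set.range fun i => L (α i)) = ⊥ := by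
      rw [Submodule.span_eq_bot]
      rintro _ ⟨i, rfl⟩
      have h1 : L (α i) = (τ ^ i.val) (L (α 0)) := by
        rw [← log_gal hL _ (hα 0), iter_pow τ α hτ, ZMod.natCast_zmod_val, zero_add]
      change L (α i) = 0
      rw [h1, hx, map_zero]
    rw [h0, sup_bot_eq] at hM
    exact hM
  · have hev := ev_ofN hL α hα τ σ hτ hσ0 hσ1 hσ U hUτ hUσ hx
    have hℓ3 : 3 ≤ ℓ := by
      have h1 := hℓ.out.two_le
      omega
    have hns : ∀ b : ZMod ℓ → KQ 2, ∑ i, b i = 0 →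
        ∑ i, algebraMap (KQ 2) (PadicAlgCl 2) (b i) * L (α i) ^ 2 = 0 → ∀ i, b i = 0 := by
      rcases hsq with h | hirr
      · exact fun b hb he => h b hb he
      · have hne : L (α 0) ^ 2 ≠ L (α 1) ^ 2 := by
          obtain ⟨n01, n02, n12⟩ := three_ne hℓ3
          obtain ⟨f, f0, -, fo, -⟩ := hev.sg 0 2 n02
          have f1 := fo 1 n01.symm n12
          intro he
          have hn := hev.nx 1
          change L (α 1) ≠ 0 at hn
          change f (L (α 0)) = -L (α 0) at f0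
          change f (L (α 1)) = L (α 1) at f1
          rcases sq_eq_sq_iff_eq_or_eq_neg.1 he with h1 | h1
          · rw [h1, f1] at f0
            apply hn
            have : (2 : PadicAlgCl 2) * L (α 1) = 0 := by linear_combination f0
            exact (mul_eq_zero.1 this).resolve_left two_ne_zero
          · rw [h1, map_neg, f1, neg_neg] at f0
            apply hn
            have : (2 : PadicAlgCl 2) * L (α 1) = 0 := by linear_combination -f0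
            exact (mul_eq_zero.1 this).resolve_left two_ne_zero
        intro b hb he
        exact circK0 (KQ_irr hirr) (fun i => L (α i) ^ 2) (qh τ)
          (fun i => by rw [map_pow, hev.tx]) hne b hb he
    rcases coreN h2 (tern Pool.Agent.P8H69.SF.ani) hev hns M hM hbad.2.2 with h | h
    · exact h
    · exact absurd hbad (not_bad_of_dep h)

/-- one sign change gives an even one -/
theorem even_of_single (α : ZMod ℓ → PadicAlgCl 2)
    (τ σ : PadicAlgCl 2 ≃ₐ[ℚ_[2]] PadicAlgCl 2) (hτ : ∀ i, τ (α i) = α (i + 1))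
    (hσ0 : σ (α 0) = (α 0)⁻¹) (hσ : ∀ i, i ≠ 0 → σ (α i) = α i) :
    (σ * (τ * σ * τ⁻¹)) (α 0) = (α 0)⁻¹ ∧ (σ * (τ * σ * τ⁻¹)) (α 1) = (α 1)⁻¹ ∧
      ∀ i, i ≠ 0 → i ≠ 1 → (σ * (τ * σ * τ⁻¹)) (α i) = α i := by
  have h01 : (1 : ZMod ℓ) ≠ 0 := by
    have : Fact (1 < ℓ) := ⟨hℓ.out.one_lt⟩
    exact one_ne_zero
  have hinv : ∀ i, τ⁻¹ (α i) = α (i - 1) := by
    intro i
    have := iter_inv τ α hτ 1 i
    simpa using this
  refine ⟨?_, ?_, ?_⟩
  · have e1 : (σ * (τ * σ * τ⁻¹)) (α 0) = σ (τ (σ (τ⁻¹ (α 0)))) := rfl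
    have e2 : (0 : ZMod ℓ) - 1 ≠ 0 := by
      intro h
      apply h01
      rw [sub_eq_zero] at h
      exact h.symm
    rw [e1, hinv, hσ _ e2, hτ, sub_add_cancel, hσ0]
  · have e1 : (σ * (τ * σ * τ⁻¹)) (α 1) = σ (τ (σ (τ⁻¹ (α 1)))) := rfl
    rw [e1, hinv, sub_self, hσ0, map_inv₀, hτ, zero_add, map_inv₀, hσ 1 h01]
  · intro i h0 h1
    have e1 : (σ * (τ * σ * τ⁻¹)) (α i) = σ (τ (σ (τ⁻¹ (α i)))) := rfl
    rw [e1, hinv, hσ _ (sub_ne_zero.2 h1), hτ, sub_add_cancel, hσ i h0]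

end Pool.Agent.P8H33.QC
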