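import Mathlib

set_option autoImplicit false

/-!
# Project QC: the four exponentials for a space with an `A₄` of automorphisms, the core
-/

open Matrix

namespace Pool.Agent.P8H33.QC

/-- the polar form of the determinant -/
def Bf {R : Type*} [CommRing R] (m n : Matrix (Fin 2) (Fin 2) R) : R :=
  m 0 0 * n 1 1 + n 0 0 * m 1 1 - m 0 1 * n 1 0 - n 0 1 * m 1 0

/-- a rational matrix of rank one gives a pair of vectors -/
theorem pair_of {Ω : Type*} [Field Ω] [CharZero Ω] (n : Matrix (Fin 2) (Fin 2) ℚ) (hn : n ≠ 0)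
    (hdet : n.det = 0) : ∃ w v : Fin 2 → ℚ, w ≠ 0 ∧ v ≠ 0 ∧
      ∀ M : Matrix (Fin 2) (Fin 2) Ω,
        (∃ c : Ω, c ≠ 0 ∧ c * ∑ i, ∑ j, (w i : Ω) * M i j * (v j : Ω) = Bf (n.map (algebraMap ℚ Ω)) M) := by
  rw [Matrix.det_fin_two] at hdet
  -- the matrix `C = [[n11, -n10], [-n01, n00]]`
  by_cases h1 : n 1 1 ≠ 0 ∨ n 1 0 ≠ 0
  · -- first row `(n11, -n10)` is not zero: `C = (1, k) ⊗ (n11, -n10)`
    obtain ⟨k, hk1, hk2⟩ : ∃ k : ℚ, -n 0 1 = k * n 1 1 ∧ n 0 0 = k * (-n 1 0) := by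
      rcases h1 with h | h
      · refine ⟨-n 0 1 / n 1 1, by field_simp, ?_⟩
        field_simp
        linear_combination hdet
      · refine ⟨-n 0 0 / n 1 0, ?_, by field_simp⟩
        field_simp
        linear_combination hdet
    refine ⟨![1, k], ![n 1 1, -n 1 0], ?_, ?_, fun M => ⟨1, one_ne_zero, ?_⟩⟩
    · intro h
      have := congrFun h 0
      simp at this
    · intro h
      have e0 := congrFun h 0
      have e1 := congrFun h 1
      simp at e0 e1
      rcases h1 with h | h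
      · exact h e0
      · exact h e1
    · have c1 : ((-n 0 1 : ℚ) : Ω) = (k : Ω) * (n 1 1 : Ω) := by rw [hk1]; push_cast; ring
      have c2 : ((n 0 0 : ℚ) : Ω) = (k : Ω) * (-(n 1 0 : Ω)) := by
        conv_lhs => rw [hk2]
        push_cast; ring
      push_cast at c1
      simp only [Fin.sum_univ_two, Bf, Matrix.map_apply, eq_ratCast, Matrix.cons_val_zero,
        Matrix.cons_val_one]
      push_cast
      linear_combination (-M 1 0) * c1 - M 1 1 * c2
  · -- the first row is zero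
    push Not at h1
    refine ⟨![0, 1], ![-n 0 1, n 0 0], ?_, ?_, fun M => ⟨1, one_ne_zero, ?_⟩⟩
    · intro h
      have := congrFun h 1
      simp at this
    · intro h
      have e0 := congrFun h 0
      have e1 := congrFun h 1
      simp at e0 e1
      apply hn
      ext i j
      fin_cases i <;> fin_cases j
      · exact e1
      · exact e0
      · exact h1.2
      · exact h1.1
    · simp only [Fin.sum_univ_two, Bf, Matrix.map_apply, eq_ratCast, Matrix.cons_val_zero,
        Matrix.cons_val_one]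
      rw [h1.1, h1.2]
      push_cast
      ring

/-- three rational matrices: a combination with zero first column -/
theorem exists_comb (a b c : Matrix (Fin 2) (Fin 2) ℚ) :
    ∃ s t r : ℚ, (s ≠ 0 ∨ t ≠ 0 ∨ r ≠ 0) ∧ s * a 0 0 + t * b 0 0 + r * c 0 0 = 0 ∧
      s * a 1 0 + t * b 1 0 + r * c 1 0 = 0 := by
  have h : ∃ v : Fin 3 → ℚ, v ≠ 0 ∧
      (!![a 0 0, b 0 0, c 0 0; a 1 0, b 1 0, c 1 0; 0, 0, 0] : Matrix (Fin 3) (Fin 3) ℚ) *ᵥ v = 0 := by
    rw [Matrix.exists_mulVec_eq_zero_iff, Matrix.det_fin_three]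
    simp
  obtain ⟨v, hv, hv0⟩ := h
  refine ⟨v 0, v 1, v 2, ?_, ?_, ?_⟩
  · by_contra hcon
    push Not at hcon
    apply hv
    ext i
    fin_cases i
    · exact hcon.1
    · exact hcon.2.1
    · exact hcon.2.2
  · have := congrFun hv0 0
    simp [Matrix.mulVec, dotProduct, Fin.sum_univ_three] at this
    linear_combination this
  · have := congrFun hv0 1
    simp [Matrix.mulVec, dotProduct, Fin.sum_univ_three] at this
    linear_combination this

/-- a definite ternary form is not a restriction of the determinant -/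
theorem alpha_zero (a b c : Matrix (Fin 2) (Fin 2) ℚ) (hab : Bf a b = 0) (hbc : Bf b c = 0)
    (hca : Bf c a = 0) (h1 : b.det = a.det) (h2 : c.det = a.det) : a.det = 0 := by
  obtain ⟨s, t, r, hne, e0, e1⟩ := exists_comb a b c
  rw [Matrix.det_fin_two] at h1 h2 ⊢
  rw [Matrix.det_fin_two] at h1 h2
  simp only [Bf] at hab hbc hca
  have key : (a 0 0 * a 1 1 - a 0 1 * a 1 0) * (s ^ 2 + t ^ 2 + r ^ 2) = 0 := by
    have hdet : (s * a 0 0 + t * b 0 0 + r * c 0 0) * (s * a 1 1 + t * b 1 1 + r * c 1 1) -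
        (s * a 0 1 + t * b 0 1 + r * c 0 1) * (s * a 1 0 + t * b 1 0 + r * c 1 0) = 0 := by
      rw [e0, e1]; ring
    linear_combination hdet - t ^ 2 * h1 - r ^ 2 * h2 - s * t * hab - t * r * hbc - s * r * hca
  rcases mul_eq_zero.1 key with h | h
  · exact h
  · exfalso
    have hs : s ^ 2 = 0 := by nlinarith [sq_nonneg s, sq_nonneg t, sq_nonneg r]
    have ht : t ^ 2 = 0 := by nlinarith [sq_nonneg s, sq_nonneg t, sq_nonneg r]
    have hr : r ^ 2 = 0 := by nlinarith [sq_nonneg s, sq_nonneg t, sq_nonneg r]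
    rcases hne with h | h | h
    · exact h (pow_eq_zero_iff (by norm_num) |>.1 hs)
    · exact h (pow_eq_zero_iff (by norm_num) |>.1 ht)
    · exact h (pow_eq_zero_iff (by norm_num) |>.1 hr)

/-- The conclusion of Q2 for all singular `n × n` matrices with entries in `V`. -/
def QQ (n : ℕ) {Ω : Type*} [Field Ω] [CharZero Ω] (V : Submodule ℚ Ω) : Prop :=
  ∀ M : Matrix (Fin n) (Fin n) Ω, (∀ i j, M i j ∈ V) → M.det = 0 →
    ∃ w v : Fin n → ℚ, w ≠ 0 ∧ v ≠ 0 ∧ ∑ i, ∑ j, (w i : Ω) * M i j * (v j : Ω) = 0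

/-- The situation: `σ` changes two signs and `τ` permutes `x, y, z`. -/
structure Kl {Ω : Type*} [Field Ω] (σ τ : Ω →+* Ω) (x y z : Ω) : Prop where
  sx : σ x = x
  sy : σ y = -y
  sz : σ z = -z
  tx : τ x = y
  ty : τ y = z
  tz : τ z = x
  nx : x ≠ 0

section

variable {Ω : Type*} [Field Ω] [CharZero Ω] {σ τ : Ω →+* Ω} {x y z : Ω}

theorem Kl.ny (h : Kl σ τ x y z) : y ≠ 0 := by
  rw [← h.tx]
  exact (map_ne_zero τ).2 h.nx

theorem Kl.nz (h : Kl σ τ x y z) : z ≠ 0 := by
  rw [← h.ty]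
  exact (map_ne_zero τ).2 h.ny

theorem Kl.rot (h : Kl σ τ x y z) (q : ℚ) : σ (q : Ω) = q ∧ τ (q : Ω) = q :=
  ⟨map_ratCast σ q, map_ratCast τ q⟩

theorem Kl.xy (h : Kl σ τ x y z) : x ^ 2 ≠ y ^ 2 := by
  intro he
  have h2 : (2 : Ω) ≠ 0 := two_ne_zero
  rcases sq_eq_sq_iff_eq_or_eq_neg.1 he with h1 | h1
  · have h3 := congrArg σ h1
    rw [h.sx, h.sy, ← h1] at h3
    apply h.nx
    have h4 : 2 * x = 0 := by linear_combination h3
    exact (mul_eq_zero.1 h4).resolve_left h2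
  · have h3 := congrArg σ h1
    rw [h.sx, map_neg, h.sy, neg_neg] at h3
    apply h.nx
    have h4 : 2 * x = 0 := by linear_combination h1 + h3
    exact (mul_eq_zero.1 h4).resolve_left h2

/-- relations between the squares -/
theorem Kl.sq_rel (h : Kl σ τ x y z) (t1 t2 t3 : ℚ) (hs : t1 + t2 + t3 = 0)
    (he : (t1 : Ω) * x ^ 2 + t2 * y ^ 2 + t3 * z ^ 2 = 0) : t1 = 0 ∧ t2 = 0 ∧ t3 = 0 := by
  have e1 := congrArg τ he
  simp only [map_add, map_mul, map_pow, map_ratCast, map_zero, h.tx, h.ty, h.tz] at e1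
  have ht3 : (t3 : Ω) = -(t1 : Ω) - t2 := by
    have : t3 = -t1 - t2 := by linarith
    rw [this]
    push_cast
    ring
  rw [ht3] at he e1
  have hdet : ((t1 ^ 2 + t1 * t2 + t2 ^ 2 : ℚ) : Ω) * (x ^ 2 - z ^ 2) = 0 := by
    push_cast
    linear_combination (t1 : Ω) * he - (t2 : Ω) * e1
  rcases mul_eq_zero.1 hdet with h1 | h1
  · have h2 : t1 ^ 2 + t1 * t2 + t2 ^ 2 = 0 := by exact_mod_cast h1
    have h3 : t1 = 0 := by nlinarith [sq_nonneg (t1 + t2), sq_nonneg t1, sq_nonneg t2, sq_nonneg (t1 + 2 * t2)]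
    have h4 : t2 = 0 := by nlinarith [sq_nonneg (t1 + t2), sq_nonneg t1, sq_nonneg t2]
    exact ⟨h3, h4, by linarith⟩
  · exfalso
    have h2 := congrArg τ (sub_eq_zero.1 h1)
    rw [map_pow, map_pow, h.tx, h.tz] at h2
    exact h.xy h2.symm

/-- relations of the second kind -/
theorem Kl.mix (h : Kl σ τ x y z) {A : Ω} (hA : τ A = A) (a : ℚ) (he : (a : Ω) * (y * z) + A * x = 0) :
    a = 0 ∧ A = 0 := by
  have e1 := congrArg τ he
  simp only [map_add, map_mul, map_ratCast, map_zero, h.tx, h.ty, h.tz, hA] at e1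
  have e2 : (a : Ω) * (z * (y ^ 2 - x ^ 2)) = 0 := by
    linear_combination y * he - x * e1
  have ha : a = 0 := by
    rcases mul_eq_zero.1 e2 with h1 | h1
    · exact_mod_cast h1
    · exfalso
      rcases mul_eq_zero.1 h1 with h2 | h2
      · exact h.nz h2
      · exact h.xy (sub_eq_zero.1 h2).symm
  refine ⟨ha, ?_⟩
  rw [ha] at he
  push_cast at he
  rw [zero_mul, zero_add] at he
  exact (mul_eq_zero.1 he).resolve_right h.nx

/-- The general quadratic relation. -/
theorem Kl.quad (h : Kl σ τ x y z) {F A B C : Ω} (hFs : σ F = F) (hFt : τ F = F) (hAs : σ A = A)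
    (hAt : τ A = A) (hBs : σ B = B) (hBt : τ B = B) (hCs : σ C = C) (hCt : τ C = C)
    (a b c a' b' c' : ℚ)
    (he : F + a * x ^ 2 + b * y ^ 2 + c * z ^ 2 + a' * (y * z) + b' * (z * x) + c' * (x * y) +
      A * x + B * y + C * z = 0) :
    b = a ∧ c = a ∧ a' = 0 ∧ b' = 0 ∧ c' = 0 ∧ A = 0 ∧ B = 0 ∧ C = 0 ∧
      F + a * (x ^ 2 + y ^ 2 + z ^ 2) = 0 := by
  have h2 : (2 : Ω) ≠ 0 := two_ne_zero
  have e1 := congrArg σ he
  simp only [map_add, map_mul, map_pow, map_ratCast, map_zero, h.sx, h.sy, h.sz, hFs, hAs, hBs,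
    hCs] at e1
  -- the parts which are even and odd for `σ`
  have p1 : F + a * x ^ 2 + b * y ^ 2 + c * z ^ 2 + a' * (y * z) + A * x = 0 := by
    apply mul_left_cancel₀ h2
    linear_combination he + e1
  have p2 : (b' : Ω) * (z * x) + c' * (x * y) + B * y + C * z = 0 := by
    apply mul_left_cancel₀ h2
    linear_combination he - e1
  -- conjugate by `τ` and separate again
  have e2 := congrArg τ p1
  simp only [map_add, map_mul, map_pow, map_ratCast, map_zero, h.tx, h.ty, h.tz, hFt, hAt] at e2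
  have e3 := congrArg σ e2
  simp only [map_add, map_mul, map_pow, map_ratCast, map_zero, h.sx, h.sy, h.sz, hFs, hAs] at e3
  have q1 : F + a * y ^ 2 + b * z ^ 2 + c * x ^ 2 = 0 := by
    apply mul_left_cancel₀ h2
    linear_combination e2 + e3
  have q2 : (a' : Ω) * (z * x) + A * y = 0 := by
    apply mul_left_cancel₀ h2
    linear_combination e2 - e3
  have q3 : (a' : Ω) * (y * z) + A * x = 0 := by
    have e4 := congrArg τ (congrArg τ q2)
    simp only [map_add, map_mul, map_ratCast, map_zero, h.tx, h.ty, h.tz, hAt] at e4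
    linear_combination e4
  obtain ⟨ha', hA⟩ := h.mix hAt a' q3
  have e5 := congrArg τ p2
  simp only [map_add, map_mul, map_ratCast, map_zero, h.tx, h.ty, h.tz, hBt, hCt] at e5
  have e6 := congrArg σ e5
  simp only [map_add, map_mul, map_neg, map_ratCast, map_zero, h.sx, h.sy, h.sz, hBs, hCs] at e6
  have q4 : (c' : Ω) * (y * z) + C * x = 0 := by
    apply mul_left_cancel₀ h2
    linear_combination e5 + e6
  have q5 : (b' : Ω) * (x * y) + B * z = 0 := by
    apply mul_left_cancel₀ h2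
    linear_combination e5 - e6
  have q6 : (b' : Ω) * (y * z) + B * x = 0 := by
    have e4 := congrArg τ q5
    simp only [map_add, map_mul, map_ratCast, map_zero, h.tx, h.ty, h.tz, hBt] at e4
    linear_combination e4
  obtain ⟨hc', hC⟩ := h.mix hCt c' q4
  obtain ⟨hb', hB⟩ := h.mix hBt b' q6
  have q7 : F + a * x ^ 2 + b * y ^ 2 + c * z ^ 2 = 0 := by
    linear_combination p1 - q3
  have hrel := h.sq_rel (a - c) (b - a) (c - b) (by ring) (by
    push_cast
    linear_combination q7 - q1)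
  have hba : b = a := by linarith [hrel.2.1]
  have hca : c = a := by linarith [hrel.1]
  refine ⟨hba, hca, ha', hb', hc', hA, hB, hC, ?_⟩
  rw [hba, hca] at q7
  linear_combination q7

/-- **The main theorem**: adding the space `⟨x, y, z⟩` preserves the four exponentials. -/
theorem four_add (h : Kl σ τ x y z) (U : Submodule ℚ Ω) (hUs : ∀ w ∈ U, σ w = w)
    (hUt : ∀ w ∈ U, τ w = w) (hU : QQ 2 U) : QQ 2 (U ⊔ Submodule.span ℚ {x, y, z}) := by
  intro M hM hdet
  have hdec : ∀ m ∈ U ⊔ Submodule.span ℚ {x, y, z}, ∃ w ∈ U, ∃ a b c : ℚ,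
      m = w + (a : Ω) * x + (b : Ω) * y + (c : Ω) * z := by
    intro m hm
    obtain ⟨w, hw, s, hs, rfl⟩ := Submodule.mem_sup.1 hm
    obtain ⟨a, b, c, rfl⟩ := Submodule.mem_span_triple.1 hs
    refine ⟨w, hw, a, b, c, ?_⟩
    simp only [Algebra.smul_def, eq_ratCast]
    ring
  choose! W hW a b c hMe using hdec
  obtain ⟨w, hw⟩ : ∃ w : Matrix (Fin 2) (Fin 2) Ω, w = Matrix.of fun i j => W (M i j) := ⟨_, rfl⟩
  obtain ⟨ma, hma⟩ : ∃ m : Matrix (Fin 2) (Fin 2) ℚ, m = Matrix.of fun i j => a (M i j) := ⟨_, rfl⟩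
  obtain ⟨mb, hmb⟩ : ∃ m : Matrix (Fin 2) (Fin 2) ℚ, m = Matrix.of fun i j => b (M i j) := ⟨_, rfl⟩
  obtain ⟨mc, hmc⟩ : ∃ m : Matrix (Fin 2) (Fin 2) ℚ, m = Matrix.of fun i j => c (M i j) := ⟨_, rfl⟩
  have hwU : ∀ i j, w i j ∈ U := by
    intro i j
    rw [hw]
    exact hW _ (hM i j)
  have hMij : ∀ i j, M i j = w i j + (ma i j : Ω) * x + (mb i j : Ω) * y + (mc i j : Ω) * z := by
    intro i j
    rw [hw, hma, hmb, hmc]
    exact hMe _ (hM i j)
  have hws : ∀ i j, σ (w i j) = w i j := fun i j => hUs _ (hwU i j)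
  have hwt : ∀ i j, τ (w i j) = w i j := fun i j => hUt _ (hwU i j)
  have hrs : ∀ q : ℚ, σ (q : Ω) = q := fun q => map_ratCast σ q
  have hrt : ∀ q : ℚ, τ (q : Ω) = q := fun q => map_ratCast τ q
  obtain ⟨k1, k2, k3, k4, k5, k6, k7, k8, k9⟩ := h.quad (F := w.det)
    (A := Bf w (ma.map (algebraMap ℚ Ω))) (B := Bf w (mb.map (algebraMap ℚ Ω)))
    (C := Bf w (mc.map (algebraMap ℚ Ω)))
    (by simp only [Matrix.det_fin_two, map_sub, map_mul, hws])
    (by simp only [Matrix.det_fin_two, map_sub, map_mul, hwt])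
    (by simp only [Bf, Matrix.map_apply, eq_ratCast, map_sub, map_add, map_mul, hws, hrs])
    (by simp only [Bf, Matrix.map_apply, eq_ratCast, map_sub, map_add, map_mul, hwt, hrt])
    (by simp only [Bf, Matrix.map_apply, eq_ratCast, map_sub, map_add, map_mul, hws, hrs])
    (by simp only [Bf, Matrix.map_apply, eq_ratCast, map_sub, map_add, map_mul, hwt, hrt])
    (by simp only [Bf, Matrix.map_apply, eq_ratCast, map_sub, map_add, map_mul, hws, hrs])
    (by simp only [Bf, Matrix.map_apply, eq_ratCast, map_sub, map_add, map_mul, hwt, hrt])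
    ma.det mb.det mc.det (Bf mb mc) (Bf mc ma) (Bf ma mb)
    (by
      rw [← hdet]
      simp only [Bf, Matrix.det_fin_two, Matrix.map_apply, eq_ratCast, hMij]
      push_cast
      ring)
  have hα : ma.det = 0 := alpha_zero ma mb mc k5 k3 k4 k1 k2
  rw [hα] at k1 k2
  have hF : w.det = 0 := by
    rw [hα] at k9
    push_cast at k9
    linear_combination k9
  -- a matrix of rank one which is orthogonal to everything
  have hfin : ∀ n : Matrix (Fin 2) (Fin 2) ℚ, n ≠ 0 → n.det = 0 →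
      Bf (n.map (algebraMap ℚ Ω)) w = 0 → Bf n ma = 0 → Bf n mb = 0 → Bf n mc = 0 →
      ∃ w v : Fin 2 → ℚ, w ≠ 0 ∧ v ≠ 0 ∧ ∑ i, ∑ j, (w i : Ω) * M i j * (v j : Ω) = 0 := by
    intro n hn hnd g0 ga gb gc
    obtain ⟨u, v, hu, hv, huv⟩ := pair_of (Ω := Ω) n hn hnd
    refine ⟨u, v, hu, hv, ?_⟩
    obtain ⟨c, hc, hcM⟩ := huv M
    have hB : Bf (n.map (algebraMap ℚ Ω)) M = Bf (n.map (algebraMap ℚ Ω)) w +
        ((Bf n ma : ℚ) : Ω) * x + ((Bf n mb : ℚ) : Ω) * y + ((Bf n mc : ℚ) : Ω) * z := by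
      simp only [Bf, Matrix.map_apply, eq_ratCast, hMij]
      push_cast
      ring
    rw [hB, g0, ga, gb, gc] at hcM
    push_cast at hcM
    have : c * ∑ i, ∑ j, (u i : Ω) * M i j * (v j : Ω) = 0 := by
      rw [hcM]; ring
    exact (mul_eq_zero.1 this).resolve_left hc
  have Bself : ∀ n : Matrix (Fin 2) (Fin 2) ℚ, n.det = 0 → Bf n n = 0 := by
    intro n hn
    rw [Matrix.det_fin_two] at hn
    simp only [Bf]
    linear_combination 2 * hn
  have Bcomm : ∀ m n : Matrix (Fin 2) (Fin 2) ℚ, Bf m n = Bf n m := by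
    intro m n
    simp only [Bf]
    ring
  have BcommΩ : ∀ m n : Matrix (Fin 2) (Fin 2) Ω, Bf m n = Bf n m := by
    intro m n
    simp only [Bf]
    ring
  by_cases za : ma = 0
  · by_cases zb : mb = 0
    · by_cases zc : mc = 0
      · -- all entries in `U`
        have hMw : M = w := by
          ext i j
          rw [hMij, za, zb, zc]
          simp
        rw [hMw] at hdet ⊢
        exact hU w hwU hdet
      · exact hfin mc zc k2 (by rw [BcommΩ]; exact k8) k4 (by rw [Bcomm]; exact k3) (Bself mc k2)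
    · exact hfin mb zb k1 (by rw [BcommΩ]; exact k7) (by rw [Bcomm]; exact k5) (Bself mb k1) k3
  · exact hfin ma za hα (by rw [BcommΩ]; exact k6) (Bself ma hα) k5 (by rw [Bcomm]; exact k4)

end

end Pool.Agent.P8H33.QC
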