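import Mathlib

set_option autoImplicit false

/-!
# Project QC, third part (helper33): the strong four exponentials (MP_dd0d16_nt), two small packages
-/

open Polynomial

namespace Pool.Agent.P8H33.QC

/-- ANI (about 70 lines, Mathlib only). The sum of three squares is anisotropic over `ℚ_2`, and `X ^ 2 + X + 1` is
irreducible over `ℚ_2`.
PROOF. Scale so that `x, y, z ∈ ℤ_2`, one of them a unit (divide by the one with the largest norm; or prove:
if `x ^ 2 + y ^ 2 + z ^ 2 = 0` in `ℤ_2` then all are divisible by `2`, and descend). Squares are `0, 1` modulo `4`, so a sum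
of three squares which is `0` modulo `4` has all three even (use `PadicInt.toZModPow 2 : ℤ_2 → ZMod 4`, `decide`). For the
second claim: a zero `x` of `X ^ 2 + X + 1` has norm one and modulo two `x ^ 2 + x + 1 = 0` has no zero; the cyclotomic
polynomial of order three is `X ^ 2 + X + 1`, of degree two (`Polynomial.cyclotomic_three`,
`Polynomial.irreducible_of_degree_le_three_of_not_isRoot`). -/
def S_ANI : Prop := (∀ x y z : ℚ_[2], x ^ 2 + y ^ 2 + z ^ 2 = 0 → x = 0 ∧ y = 0 ∧ z = 0) ∧
  Irreducible (cyclotomic 3 ℚ_[2])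

/-- SGN (about 80 lines, Mathlib only). Even sign changes: from the sign changes at `0, 1` to all pairs. `G` is any set of ring
homomorphisms closed under composition (in the application: those which fix a given space).
PROOF. Put `ρ_i = τ ^ i σ τ' ^ i`, `i` a natural number: it changes the signs of `x i` and `x (i + 1)` only
(`τ' (x i) = x (i - 1)`, induction on `i`). Then by induction on `n ≥ 1`: if `(n : ZMod ℓ) ≠ 0` there is an element of `G` which changes
the signs of `x i` and `x (i + n)` only; for `n + 1` compose the map for `n` (if `n ≠ 0` modulo `ℓ`) with `ρ` for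
`i + n`; use `j = i + (j - i).val` and `(j - i).val < ℓ`, so that all smaller `n` are not zero modulo `ℓ`. -/
def S_SGN : Prop := ∀ (Ω : Type) [Field Ω] (ℓ : ℕ) [Fact ℓ.Prime] (x : ZMod ℓ → Ω) (G : Set (Ω →+* Ω))
  (σ τ τ' : Ω →+* Ω), (∀ f ∈ G, ∀ g ∈ G, f.comp g ∈ G) → σ ∈ G → τ ∈ G → τ' ∈ G → RingHom.id Ω ∈ G →
  (∀ i, τ (x i) = x (i + 1)) → (∀ i, τ' (x i) = x (i - 1)) →
  σ (x 0) = -x 0 → σ (x 1) = -x 1 → (∀ i, i ≠ 0 → i ≠ 1 → σ (x i) = x i) →
  ∀ i j, i ≠ j → ∃ f ∈ G, f (x i) = -x i ∧ f (x j) = -x j ∧ ∀ k, k ≠ i → k ≠ j → f (x k) = x k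

end Pool.Agent.P8H33.QC
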