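import Pool.Agent.P8H33.QC.Wre
import Pool.Agent.P8H33.QC.Stm3

set_option autoImplicit false

/-!
# Project QC: the core over a field of coefficients
-/

open Matrix Polynomial

namespace Pool.Agent.P8H33.QC

section K

variable {k Ω : Type*} [Field k] [Field Ω] [Algebra k Ω]

/-- the rows or the columns are dependent over `k` -/
def DepK (k : Type*) {Ω : Type*} [Field k] [Field Ω] [Algebra k Ω] (M : Matrix (Fin 2) (Fin 2) Ω) :
    Prop :=
  (∃ a : Fin 2 → k, a ≠ 0 ∧ ∀ j, ∑ i, algebraMap k Ω (a i) * M i j = 0) ∨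
  (∃ b : Fin 2 → k, b ≠ 0 ∧ ∀ i, ∑ j, M i j * algebraMap k Ω (b j) = 0)

theorem dep_of_pair (M : Matrix (Fin 2) (Fin 2) Ω) (hdet : M.det = 0) (w v : Fin 2 → k)
    (hw : w ≠ 0) (hv : v ≠ 0)
    (h : ∑ i, ∑ j, algebraMap k Ω (w i) * M i j * algebraMap k Ω (v j) = 0) : DepK k M := by
  rw [Matrix.det_fin_two] at hdet
  simp only [Fin.sum_univ_two] at h
  obtain ⟨w0, hw0⟩ : ∃ y, y = algebraMap k Ω (w 0) := ⟨_, rfl⟩
  obtain ⟨w1, hw1⟩ : ∃ y, y = algebraMap k Ω (w 1) := ⟨_, rfl⟩
  obtain ⟨v0, hv0⟩ : ∃ y, y = algebraMap k Ω (v 0) := ⟨_, rfl⟩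
  obtain ⟨v1, hv1⟩ : ∃ y, y = algebraMap k Ω (v 1) := ⟨_, rfl⟩
  rw [← hw0, ← hw1, ← hv0, ← hv1] at h
  have e00 : (w0 * M 0 0 + w1 * M 1 0) * (M 0 0 * v0 + M 0 1 * v1) = 0 := by
    linear_combination M 0 0 * h - w1 * v1 * hdet
  have e01 : (w0 * M 0 1 + w1 * M 1 1) * (M 0 0 * v0 + M 0 1 * v1) = 0 := by
    linear_combination M 0 1 * h + w1 * v0 * hdet
  have e10 : (w0 * M 0 0 + w1 * M 1 0) * (M 1 0 * v0 + M 1 1 * v1) = 0 := by
    linear_combination M 1 0 * h + w0 * v1 * hdet
  have e11 : (w0 * M 0 1 + w1 * M 1 1) * (M 1 0 * v0 + M 1 1 * v1) = 0 := by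
    linear_combination M 1 1 * h - w0 * v0 * hdet
  by_cases hc : M 0 0 * v0 + M 0 1 * v1 = 0 ∧ M 1 0 * v0 + M 1 1 * v1 = 0
  · right
    refine ⟨v, hv, fun i => ?_⟩
    rw [Fin.sum_univ_two, ← hv0, ← hv1]
    fin_cases i
    · exact hc.1
    · exact hc.2
  · left
    refine ⟨w, hw, fun j => ?_⟩
    rw [Fin.sum_univ_two, ← hw0, ← hw1]
    have hr : w0 * M 0 0 + w1 * M 1 0 = 0 ∧ w0 * M 0 1 + w1 * M 1 1 = 0 := by
      by_cases hc0 : M 0 0 * v0 + M 0 1 * v1 = 0
      · have hc1 : M 1 0 * v0 + M 1 1 * v1 ≠ 0 := fun h' => hc ⟨hc0, h'⟩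
        exact ⟨(mul_eq_zero.1 e10).resolve_right hc1, (mul_eq_zero.1 e11).resolve_right hc1⟩
      · exact ⟨(mul_eq_zero.1 e00).resolve_right hc0, (mul_eq_zero.1 e01).resolve_right hc0⟩
    fin_cases j
    · exact hr.1
    · exact hr.2

/-- a matrix of rank one over `k` gives a pair of vectors -/
theorem pair_ofK (n : Matrix (Fin 2) (Fin 2) k) (hn : n ≠ 0) (hdet : n.det = 0) :
    ∃ w v : Fin 2 → k, w ≠ 0 ∧ v ≠ 0 ∧ ∀ M : Matrix (Fin 2) (Fin 2) Ω,
      ∑ i, ∑ j, algebraMap k Ω (w i) * M i j * algebraMap k Ω (v j) =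
        Bf (n.map (algebraMap k Ω)) M := by
  rw [Matrix.det_fin_two] at hdet
  by_cases h1 : n 1 1 ≠ 0 ∨ n 1 0 ≠ 0
  · obtain ⟨c, hk1, hk2⟩ : ∃ c : k, -n 0 1 = c * n 1 1 ∧ n 0 0 = c * (-n 1 0) := by
      rcases h1 with h | h
      · refine ⟨-n 0 1 / n 1 1, by field_simp, ?_⟩
        field_simp
        linear_combination hdet
      · refine ⟨-n 0 0 / n 1 0, ?_, by field_simp⟩
        field_simp
        linear_combination hdet
    refine ⟨![1, c], ![n 1 1, -n 1 0], ?_, ?_, fun M => ?_⟩
    · intro h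
      have := congrFun h 0
      simp at this
    · intro h
      have e0 := congrFun h 0
      have e1 := congrFun h 1
      simp at e0 e1
      rcases h1 with h | h
      · exact h e0
      · exact h e1
    · have c1 : algebraMap k Ω (-n 0 1) = algebraMap k Ω c * algebraMap k Ω (n 1 1) := by
        rw [hk1, map_mul]
      have c2 : algebraMap k Ω (n 0 0) = algebraMap k Ω c * -algebraMap k Ω (n 1 0) := by
        conv_lhs => rw [hk2]
        rw [map_mul, map_neg]
      rw [map_neg] at c1
      simp only [Fin.sum_univ_two, Bf, Matrix.map_apply, Matrix.cons_val_zero,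
        Matrix.cons_val_one, map_one, map_neg]
      linear_combination (-M 1 0) * c1 - M 1 1 * c2
  · push Not at h1
    refine ⟨![0, 1], ![-n 0 1, n 0 0], ?_, ?_, fun M => ?_⟩
    · intro h
      have := congrFun h 1
      simp at this
    · intro h
      have e0 := congrFun h 0
      have e1 := congrFun h 1
      simp at e0 e1
      apply hn
      ext i j
      fin_cases i <;> fin_cases j
      · exact e1
      · exact e0
      · exact h1.2
      · exact h1.1
    · simp only [Fin.sum_univ_two, Bf, Matrix.map_apply, Matrix.cons_val_zero,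
        Matrix.cons_val_one, map_one, map_neg, map_zero]
      rw [h1.1, h1.2]
      simp only [map_zero]
      ring

theorem exists_combK (a b c : Matrix (Fin 2) (Fin 2) k) :
    ∃ s t r : k, (s ≠ 0 ∨ t ≠ 0 ∨ r ≠ 0) ∧ s * a 0 0 + t * b 0 0 + r * c 0 0 = 0 ∧
      s * a 1 0 + t * b 1 0 + r * c 1 0 = 0 := by
  have h : ∃ v : Fin 3 → k, v ≠ 0 ∧
      (!![a 0 0, b 0 0, c 0 0; a 1 0, b 1 0, c 1 0; 0, 0, 0] : Matrix (Fin 3) (Fin 3) k) *ᵥ v = 0 := by
    rw [Matrix.exists_mulVec_eq_zero_iff, Matrix.det_fin_three]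
    simp
  obtain ⟨v, hv, hv0⟩ := h
  refine ⟨v 0, v 1, v 2, ?_, ?_, ?_⟩
  · by_contra hcon
    push Not at hcon
    apply hv
    ext i
    fin_cases i
    · exact hcon.1
    · exact hcon.2.1
    · exact hcon.2.2
  · have := congrFun hv0 0
    simp [Matrix.mulVec, dotProduct, Fin.sum_univ_three] at this
    linear_combination this
  · have := congrFun hv0 1
    simp [Matrix.mulVec, dotProduct, Fin.sum_univ_three] at this
    linear_combination this

/-- an anisotropic form `x ^ 2 + y ^ 2 + z ^ 2` is not a restriction of the determinant -/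
theorem alpha_zeroK (h3 : ∀ s t r : k, s ^ 2 + t ^ 2 + r ^ 2 = 0 → s = 0 ∧ t = 0 ∧ r = 0)
    (a b c : Matrix (Fin 2) (Fin 2) k) (hab : Bf a b = 0) (hbc : Bf b c = 0)
    (hca : Bf c a = 0) (h1 : b.det = a.det) (h2 : c.det = a.det) : a.det = 0 := by
  obtain ⟨s, t, r, hne, e0, e1⟩ := exists_combK a b c
  rw [Matrix.det_fin_two] at h1 h2 ⊢
  rw [Matrix.det_fin_two] at h1 h2
  simp only [Bf] at hab hbc hca
  have key : (a 0 0 * a 1 1 - a 0 1 * a 1 0) * (s ^ 2 + t ^ 2 + r ^ 2) = 0 := by
    have hdet : (s * a 0 0 + t * b 0 0 + r * c 0 0) * (s * a 1 1 + t * b 1 1 + r * c 1 1) -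
        (s * a 0 1 + t * b 0 1 + r * c 0 1) * (s * a 1 0 + t * b 1 0 + r * c 1 0) = 0 := by
      rw [e0, e1]; ring
    linear_combination hdet - t ^ 2 * h1 - r ^ 2 * h2 - s * t * hab - t * r * hbc - s * r * hca
  rcases mul_eq_zero.1 key with h | h
  · exact h
  · exfalso
    obtain ⟨hs, ht, hr⟩ := h3 s t r h
    rcases hne with h | h | h
    · exact h hs
    · exact h ht
    · exact h hr

variable {ℓ : ℕ} [hℓ : Fact ℓ.Prime]

theorem zmod3_cases' : ∀ i : ZMod 3, i = 0 ∨ i = 1 ∨ i = 2 := by decide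

/-- linear relations between the members of a cyclic family -/
theorem circK0 [CharZero k] (hirr : Irreducible (cyclotomic ℓ k)) (y : ZMod ℓ → Ω) (τ : Ω →ₐ[k] Ω)
    (hy : ∀ i, τ (y i) = y (i + 1)) (hne : y 0 ≠ y 1) (b : ZMod ℓ → k) (hb : ∑ i, b i = 0)
    (he : ∑ i, algebraMap k Ω (b i) * y i = 0) : ∀ i, b i = 0 := by
  classical
  have hℓ0 : 0 < ℓ := hℓ.out.pos
  let T : Ω →ₗ[k] Ω := τ.toLinearMap
  have hT : ∀ z, T z = τ z := fun z => rfl
  have hTn : ∀ (n : ℕ) (i : ZMod ℓ), (T ^ n) (y i) = y (i + n) := by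
    intro n
    induction n with
    | zero => intro i; simp
    | succ n ih =>
      intro i
      rw [pow_succ', Module.End.mul_apply, ih, hT, hy]
      congr 1
      push_cast
      ring
  let B : k[X] := ∑ i ∈ Finset.range ℓ, C (b (i : ZMod ℓ)) * X ^ i
  have hBy : (aeval T B) (y 0) = 0 := by
    simp only [B, map_sum, map_mul, aeval_C, map_pow, aeval_X, LinearMap.sum_apply,
      Module.End.mul_apply, Module.algebraMap_end_apply, hTn, zero_add]
    rw [← he, sum_zmod ℓ (fun i => algebraMap k Ω (b i) * y i)]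
    refine Finset.sum_congr rfl fun i _ => ?_
    rw [Algebra.smul_def]
  have hB1 : B.eval 1 = 0 := by
    simp only [B, eval_finsetSum, eval_mul, eval_C, eval_pow, eval_X, one_pow, mul_one]
    rw [← sum_zmod ℓ (fun i => b i)]
    exact hb
  have hcoef : ∀ i < ℓ, B.coeff i = b (i : ZMod ℓ) := by
    intro i hi
    simp only [B, finsetSum_coeff, coeff_C_mul, coeff_X_pow]
    rw [Finset.sum_eq_single i]
    · simp
    · intro j _ hj
      rw [if_neg (Ne.symm hj), mul_zero]
    · intro h'
      exact absurd (Finset.mem_range.2 hi) h'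
  have hdeg : B.natDegree < ℓ := by
    refine lt_of_le_of_lt (natDegree_sum_le_of_forall_le (n := ℓ - 1) _ _ ?_) (by omega)
    intro i hi
    refine (natDegree_C_mul_X_pow_le _ _).trans ?_
    have := Finset.mem_range.1 hi
    omega
  have hcyc : cyclotomic ℓ k * (X - 1) = X ^ ℓ - 1 := cyclotomic_prime_mul_X_sub_one k ℓ
  by_cases hdvd : cyclotomic ℓ k ∣ B
  · obtain ⟨Q, hQ⟩ := hdvd
    have h1 : Q.eval 1 = 0 := by
      have h2 := hB1
      rw [hQ, eval_mul, eval_one_cyclotomic_prime] at h2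
      exact (mul_eq_zero.1 h2).resolve_left (by exact_mod_cast hℓ.out.ne_zero)
    obtain ⟨Q', hQ'⟩ := dvd_iff_isRoot.2 h1
    have hB0 : B = 0 := by
      by_contra hne
      have h3 : B = (X ^ ℓ - 1) * Q' := by
        rw [hQ, hQ', ← hcyc]
        simp only [map_one]
        ring
      have hQ'0 : Q' ≠ 0 := by
        rintro rfl
        exact hne (by rw [h3, mul_zero])
      have h6 : (X ^ ℓ - 1 : k[X]) ≠ 0 := by
        have := X_pow_sub_C_ne_zero hℓ0 (1 : k)
        rwa [map_one] at this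
      have h7 : (X ^ ℓ - 1 : k[X]).natDegree = ℓ := by
        have := natDegree_X_pow_sub_C (n := ℓ) (r := (1 : k))
        rwa [map_one] at this
      have h4 : B.natDegree = ℓ + Q'.natDegree := by
        rw [h3, natDegree_mul h6 hQ'0, h7]
      omega
    intro i
    have h5 := hcoef i.val (ZMod.val_lt i)
    rw [hB0, coeff_zero, ZMod.natCast_zmod_val] at h5
    exact h5.symm
  · exfalso
    obtain ⟨U, V, hUV⟩ := hirr.coprime_iff_not_dvd.2 hdvd
    have h1 : (X - 1 : k[X]) = U * (X ^ ℓ - 1) + V * (X - 1) * B := by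
      rw [← hcyc]
      linear_combination (1 - X : k[X]) * hUV
    have h2 := congrArg (fun P => (aeval T P) (y 0)) h1
    simp only [map_add, map_mul, map_sub, map_pow, map_one, aeval_X, LinearMap.add_apply,
      LinearMap.sub_apply, Module.End.mul_apply, Module.End.one_apply, hTn, hBy, map_zero,
      add_zero] at h2
    simp only [zero_add, CharP.cast_eq_zero, sub_self, map_zero] at h2
    rw [hT, hy, zero_add] at h2
    exact hne (sub_eq_zero.1 h2).symm

/-- the version with a fixed term -/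
theorem circK [CharZero k] (hirr : Irreducible (cyclotomic ℓ k)) (y : ZMod ℓ → Ω) (τ : Ω →ₐ[k] Ω)
    (hy : ∀ i, τ (y i) = y (i + 1)) (hne : y 0 ≠ y 1) (a : ZMod ℓ → k) {F : Ω} (hF : τ F = F)
    (he : F + ∑ i, algebraMap k Ω (a i) * y i = 0) : ∀ i, a i = a 0 := by
  have e1 := congrArg τ he
  rw [map_add, map_sum, hF, map_zero] at e1
  have e2 : ∑ i, τ (algebraMap k Ω (a i) * y i) = ∑ i, algebraMap k Ω (a (i - 1)) * y i := by
    rw [← Equiv.sum_comp (Equiv.addRight (1 : ZMod ℓ)) (fun i => algebraMap k Ω (a (i - 1)) * y i)]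
    refine Finset.sum_congr rfl fun i _ => ?_
    simp only [map_mul, AlgHom.commutes, hy, Equiv.coe_addRight, add_sub_cancel_right]
  rw [e2] at e1
  have e3 : ∑ i, algebraMap k Ω (a i - a (i - 1)) * y i = 0 := by
    have : ∑ i, algebraMap k Ω (a i - a (i - 1)) * y i =
        ∑ i, algebraMap k Ω (a i) * y i - ∑ i, algebraMap k Ω (a (i - 1)) * y i := by
      rw [← Finset.sum_sub_distrib]
      refine Finset.sum_congr rfl fun i _ => ?_
      rw [map_sub]
      ring
    rw [this]
    linear_combination he - e1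
  have e4 : ∑ i, (a i - a (i - 1)) = 0 := by
    rw [Finset.sum_sub_distrib, sub_eq_zero]
    exact (Equiv.sum_comp (Equiv.subRight (1 : ZMod ℓ)) a).symm
  have e5 := circK0 hirr y τ hy hne _ e4 e3
  have e6 : ∀ n : ℕ, a (n : ZMod ℓ) = a 0 := by
    intro n
    induction n with
    | zero => simp
    | succ n ih =>
      have := e5 ((n + 1 : ℕ) : ZMod ℓ)
      push_cast at this ⊢
      rw [add_sub_cancel_right] at this
      rw [sub_eq_zero.1 this, ih]
  intro i
  have := e6 i.val
  rwa [ZMod.natCast_zmod_val] at this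

/-- The configuration: a cyclic family with even sign changes, all fixing `U`. -/
structure Ev (ℓ : ℕ) (τ : Ω →ₐ[k] Ω) (x : ZMod ℓ → Ω) (U : Submodule k Ω) : Prop where
  tx : ∀ i, τ (x i) = x (i + 1)
  tU : ∀ w ∈ U, τ w = w
  sg : ∀ i j, i ≠ j → ∃ f : Ω →ₐ[k] Ω, f (x i) = -x i ∧ f (x j) = -x j ∧
    (∀ m, m ≠ i → m ≠ j → f (x m) = x m) ∧ ∀ w ∈ U, f w = w
  nx : ∀ i, x i ≠ 0

theorem Bf_mapK (a b : Matrix (Fin 2) (Fin 2) k) :
    Bf (a.map (algebraMap k Ω)) (b.map (algebraMap k Ω)) = algebraMap k Ω (Bf a b) := by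
  simp only [Bf, Matrix.map_apply, map_sub, map_add, map_mul]

theorem det_mapK (a : Matrix (Fin 2) (Fin 2) k) :
    (a.map (algebraMap k Ω)).det = algebraMap k Ω a.det := by
  simp only [Matrix.det_fin_two, Matrix.map_apply, map_sub, map_mul]

theorem Bf_zero {R : Type*} [CommRing R] (c : Matrix (Fin 2) (Fin 2) R) : Bf 0 c = 0 := by
  simp [Bf]

theorem Bf_sumK {ι : Type*} (s : Finset ι) (x : ι → Ω)
    (m : ι → Matrix (Fin 2) (Fin 2) Ω) (c : Matrix (Fin 2) (Fin 2) Ω) :
    Bf (∑ i ∈ s, x i • m i) c = ∑ i ∈ s, x i * Bf (m i) c := by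
  classical
  induction s using Finset.induction_on with
  | empty => simp [Bf_zero]
  | insert i s hi ih =>
    rw [Finset.sum_insert hi, Finset.sum_insert hi, Bf_add, Bf_smul, ih]

theorem three_ne (hℓ3 : 3 ≤ ℓ) : (0 : ZMod ℓ) ≠ 1 ∧ (0 : ZMod ℓ) ≠ 2 ∧ (1 : ZMod ℓ) ≠ 2 := by
  have hne : ∀ a b : ℕ, a < 3 → b < 3 → a ≠ b → (a : ZMod ℓ) ≠ (b : ZMod ℓ) := by
    intro a b ha hb hab he
    have := congrArg ZMod.val he
    rw [ZMod.val_natCast_of_lt (by omega), ZMod.val_natCast_of_lt (by omega)] at this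
    exact hab this
  have h1 := hne 0 1 (by norm_num) (by norm_num) (by norm_num)
  have h2 := hne 0 2 (by norm_num) (by norm_num) (by norm_num)
  have h3 := hne 1 2 (by norm_num) (by norm_num) (by norm_num)
  push_cast at h1 h2 h3
  exact ⟨h1, h2, h3⟩

/-- a further index -/
theorem exists_other {s : Finset (ZMod ℓ)} (hs : s.card < ℓ) : ∃ j, j ∉ s := by
  by_contra hcon
  push Not at hcon
  have : s = Finset.univ := Finset.eq_univ_iff_forall.2 hcon
  rw [this, Finset.card_univ, ZMod.card] at hs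
  exact lt_irrefl _ hs

theorem det_three {R : Type*} [CommRing R] (A B C : Matrix (Fin 2) (Fin 2) R) (a b : R) :
    (A + (a • B + b • C)).det = A.det + a * Bf A B + b * Bf A C + a ^ 2 * B.det + b ^ 2 * C.det +
      a * b * Bf B C := by
  simp only [Bf, Matrix.det_fin_two, Matrix.add_apply, Matrix.smul_apply, smul_eq_mul]
  ring

/-- **The core.** -/
theorem coreK [CharZero k] [CharZero Ω] (h2 : ℓ ≠ 2) (hirr : Irreducible (cyclotomic ℓ k))
    (h3 : ∀ s t r : k, s ^ 2 + t ^ 2 + r ^ 2 = 0 → s = 0 ∧ t = 0 ∧ r = 0)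
    {τ : Ω →ₐ[k] Ω} {x : ZMod ℓ → Ω} {U : Submodule k Ω} (h : Ev ℓ τ x U)
    (M : Matrix (Fin 2) (Fin 2) Ω) (hM : ∀ i j, M i j ∈ U ⊔ Submodule.span k (Set.range x))
    (hdet : M.det = 0) : (∀ i j, M i j ∈ U) ∨ DepK k M := by
  classical
  have hℓ3 : 3 ≤ ℓ := by
    have h1 := hℓ.out.two_le
    omega
  have hB2 : (2 : Ω) ≠ 0 := two_ne_zero
  have hdec : ∀ m ∈ U ⊔ Submodule.span k (Set.range x), ∃ w ∈ U, ∃ c : ZMod ℓ → k,
      m = w + ∑ i, algebraMap k Ω (c i) * x i := by
    intro m hm
    obtain ⟨w, hw, s, hs, rfl⟩ := Submodule.mem_sup.1 hm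
    obtain ⟨c, rfl⟩ := (Submodule.mem_span_range_iff_exists_fun k).1 hs
    refine ⟨w, hw, c, ?_⟩
    simp only [Algebra.smul_def]
  choose! W hW c hMe using hdec
  obtain ⟨w, hw⟩ : ∃ w : Matrix (Fin 2) (Fin 2) Ω, w = Matrix.of fun i j => W (M i j) := ⟨_, rfl⟩
  obtain ⟨m, hm⟩ : ∃ m : ZMod ℓ → Matrix (Fin 2) (Fin 2) k,
      m = fun n => Matrix.of fun i j => c (M i j) n := ⟨_, rfl⟩
  have hwU : ∀ i j, w i j ∈ U := by
    intro i j
    rw [hw]
    exact hW _ (hM i j)
  obtain ⟨m', hm'⟩ : ∃ m' : ZMod ℓ → Matrix (Fin 2) (Fin 2) Ω,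
      m' = fun n => (m n).map (algebraMap k Ω) := ⟨_, rfl⟩
  have hMm : M = w + ∑ n, x n • m' n := by
    ext i j
    rw [hMe _ (hM i j), Matrix.add_apply, Matrix.sum_apply, hw]
    congr 1
    refine Finset.sum_congr rfl fun n _ => ?_
    rw [hm', hm]
    simp only [Matrix.smul_apply, Matrix.map_apply, Matrix.of_apply, smul_eq_mul]
    ring
  have hMval : ∀ a b, M a b = w a b + ∑ n, x n * m' n a b := by
    intro a b
    conv_lhs => rw [hMm]
    simp only [Matrix.add_apply, Matrix.sum_apply, Matrix.smul_apply, smul_eq_mul]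
  -- sign changes
  have hconj : ∀ (f : Ω →ₐ[k] Ω) (i j : ZMod ℓ), i ≠ j → f (x i) = -x i → f (x j) = -x j →
      (∀ n, n ≠ i → n ≠ j → f (x n) = x n) → (∀ u ∈ U, f u = u) →
      M.map f = M + ((-2 * x i) • m' i + (-2 * x j) • m' j) := by
    intro f i j hij fi fj fo fU
    ext a b
    have e2 : ∀ n, f (m' n a b) = m' n a b := by
      intro n
      rw [hm']
      simp only [Matrix.map_apply, AlgHom.commutes]
    rw [Matrix.map_apply, hMval, map_add, map_sum, fU _ (hwU a b)]
    simp only [Matrix.add_apply, Matrix.smul_apply, smul_eq_mul]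
    rw [hMval a b]
    have e3 : ∑ n, f (x n * m' n a b) = ∑ n, (x n * m' n a b +
        ((if n = i then -2 * x i * m' i a b else 0) + (if n = j then -2 * x j * m' j a b else 0))) := by
      refine Finset.sum_congr rfl fun n _ => ?_
      rw [map_mul, e2]
      by_cases hni : n = i
      · subst hni
        rw [fi, if_pos rfl, if_neg hij]
        ring
      · by_cases hnj : n = j
        · subst hnj
          rw [fj, if_neg hni, if_pos rfl]
          ring
        · rw [fo n hni hnj, if_neg hni, if_neg hnj]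
          ring
    rw [e3, Finset.sum_add_distrib, Finset.sum_add_distrib, Finset.sum_ite_eq', Finset.sum_ite_eq',
      if_pos (Finset.mem_univ i), if_pos (Finset.mem_univ j)]
    ring
  -- the pair relations
  have hpair : ∀ i j, i ≠ j → (x i * Bf M (m' i) - 2 * x i ^ 2 * (m' i).det) +
      (x j * Bf M (m' j) - 2 * x j ^ 2 * (m' j).det) = 2 * (x i * x j * Bf (m' i) (m' j)) := by
    intro i j hij
    obtain ⟨f, fi, fj, fo, fU⟩ := h.sg i j hij
    have e1 : (M.map f).det = 0 := by
      have := AlgHom.map_det f M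
      rw [AlgHom.mapMatrix_apply] at this
      rw [← this, hdet, map_zero]
    rw [hconj f i j hij fi fj fo fU, det_three, hdet] at e1
    apply mul_left_cancel₀ hB2
    linear_combination -e1
  have hBB : ∀ i j, Bf (m' i) (m' j) = algebraMap k Ω (Bf (m i) (m j)) := by
    intro i j
    rw [hm']
    exact Bf_mapK _ _
  have hexp : ∀ i, Bf M (m' i) = Bf w (m' i) + ∑ n, x n * Bf (m' n) (m' i) := by
    intro i
    conv_lhs => rw [hMm]
    rw [Bf_add, Bf_sumK]
  have hsq : x 0 ^ 2 ≠ x 1 ^ 2 := by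
    obtain ⟨n01, n02, n12⟩ := three_ne hℓ3
    obtain ⟨f, f0, -, fo, -⟩ := h.sg 0 2 n02
    have f1 := fo 1 n01.symm n12
    intro he
    have hn := h.nx 1
    rcases sq_eq_sq_iff_eq_or_eq_neg.1 he with h1 | h1
    · rw [h1, f1] at f0
      apply hn
      have : (2 : Ω) * x 1 = 0 := by linear_combination f0
      exact (mul_eq_zero.1 this).resolve_left hB2
    · rw [h1, map_neg, f1, neg_neg] at f0
      apply hn
      have : (2 : Ω) * x 1 = 0 := by linear_combination -f0
      exact (mul_eq_zero.1 this).resolve_left hB2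
  -- orthogonality
  have hort : (∀ i j, i ≠ j → Bf (m i) (m j) = 0) ∧ ∀ i, Bf w (m' i) = 0 := by
    have hfin : (∀ i j, i ≠ j → Bf (m i) (m j) = 0) →
        (∀ i, x i * Bf M (m' i) - 2 * x i ^ 2 * (m' i).det = 0) → ∀ i, Bf w (m' i) = 0 := by
      intro hB hE i
      have e1 := hE i
      rw [hexp, Finset.sum_eq_single i] at e1
      · rw [Bf_self] at e1
        have e2 : x i * Bf w (m' i) = 0 := by linear_combination e1
        exact (mul_eq_zero.1 e2).resolve_left (h.nx i)
      · intro n _ hn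
        rw [hBB, hB n i hn, map_zero, mul_zero]
      · intro h'
        exact absurd (Finset.mem_univ i) h'
    by_cases h5 : 5 ≤ ℓ
    · have hE3 : ∀ i j l, i ≠ j → i ≠ l → j ≠ l →
          x i * Bf M (m' i) - 2 * x i ^ 2 * (m' i).det = x i * x j * Bf (m' i) (m' j) +
            x i * x l * Bf (m' i) (m' l) - x j * x l * Bf (m' j) (m' l) := by
        intro i j l hij hil hjl
        have e1 := hpair i j hij
        have e2 := hpair i l hil
        have e3 := hpair j l hjl
        apply mul_left_cancel₀ hB2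
        linear_combination e1 + e2 - e3
      have hB : ∀ i j, i ≠ j → Bf (m i) (m j) = 0 := by
        -- `x i B_il = x j B_jl`, and a sign change
        intro i l hil
        obtain ⟨j, hj⟩ := exists_other (ℓ := ℓ) (s := {i, l}) (by
          refine lt_of_le_of_lt (Finset.card_le_two) (by omega))
        simp only [Finset.mem_insert, Finset.mem_singleton, not_or] at hj
        obtain ⟨n, hn⟩ := exists_other (ℓ := ℓ) (s := {i, l, j}) (by
          refine lt_of_le_of_lt (Finset.card_le_three) (by omega))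
        simp only [Finset.mem_insert, Finset.mem_singleton, not_or] at hn
        obtain ⟨q, hq⟩ := exists_other (ℓ := ℓ) (s := {i, l, j, n}) (by
          refine lt_of_le_of_lt (Finset.card_le_four) (by omega))
        simp only [Finset.mem_insert, Finset.mem_singleton, not_or] at hq
        obtain ⟨hji, hjl⟩ := hj
        obtain ⟨hni, hnl, hnj⟩ := hn
        obtain ⟨hqi, hql, hqj, hqn⟩ := hq
        have e1 := hE3 i j l (Ne.symm hji) hil hjl
        have e2 := hE3 i j n (Ne.symm hji) (Ne.symm hni) (Ne.symm hnj)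
        have e3 : x i * x l * Bf (m' i) (m' l) - x j * x l * Bf (m' j) (m' l) =
            x i * x n * Bf (m' i) (m' n) - x j * x n * Bf (m' j) (m' n) := by
          linear_combination e2 - e1
        obtain ⟨f, fl, fq, fo, -⟩ := h.sg l q (Ne.symm hql)
        have e4 := congrArg f e3
        simp only [map_sub, map_mul, hBB, AlgHom.commutes, fl,
          fo i hil (Ne.symm hqi), fo j hjl (Ne.symm hqj), fo n hnl (Ne.symm hqn)] at e4
        simp only [hBB] at e3
        have e5 : x l * (x i * algebraMap k Ω (Bf (m i) (m l)) -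
            x j * algebraMap k Ω (Bf (m j) (m l))) = 0 := by
          apply mul_left_cancel₀ hB2
          linear_combination e3 - e4
        have e6 := (mul_eq_zero.1 e5).resolve_left (h.nx l)
        obtain ⟨g, gi, gn, go, -⟩ := h.sg i n (Ne.symm hni)
        have e7 := congrArg g e6
        simp only [map_sub, map_mul, AlgHom.commutes, gi, go j hji (Ne.symm hnj), map_zero] at e7
        have e8 : x i * algebraMap k Ω (Bf (m i) (m l)) = 0 := by
          apply mul_left_cancel₀ hB2
          linear_combination e6 - e7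
        have e9 := (mul_eq_zero.1 e8).resolve_left (h.nx i)
        exact (map_eq_zero _).1 e9
      refine ⟨hB, hfin hB fun i => ?_⟩
      obtain ⟨j, hj⟩ := exists_other (ℓ := ℓ) (s := {i}) (by
        rw [Finset.card_singleton]; omega)
      simp only [Finset.mem_singleton] at hj
      obtain ⟨l, hl⟩ := exists_other (ℓ := ℓ) (s := {i, j}) (by
        refine lt_of_le_of_lt (Finset.card_le_two) (by omega))
      simp only [Finset.mem_insert, Finset.mem_singleton, not_or] at hl
      rw [hE3 i j l (Ne.symm hj) (Ne.symm hl.1) (Ne.symm hl.2), hBB, hBB, hBB, hB i j (Ne.symm hj),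
        hB i l (Ne.symm hl.1), hB j l (Ne.symm hl.2)]
      simp only [map_zero]
      ring
    · -- `ℓ = 3`
      have hℓ' : ℓ = 3 := by
        interval_cases ℓ
        · rfl
        · exact absurd hℓ.out (by norm_num)
      obtain ⟨n01, n02, n12⟩ := three_ne hℓ3
      have hcases : ∀ i : ZMod ℓ, i = 0 ∨ i = 1 ∨ i = 2 := by
        subst hℓ'
        exact zmod3_cases'
      have huniv : ∀ g : ZMod ℓ → Ω, ∑ n, g n = g 0 + g 1 + g 2 := by
        intro g
        have : (Finset.univ : Finset (ZMod ℓ)) = {0, 1, 2} := by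
          symm
          rw [Finset.eq_univ_iff_forall]
          intro i
          rcases hcases i with rfl | rfl | rfl <;> simp
        rw [this, Finset.sum_insert (by simp [n01, n02]), Finset.sum_insert (by simp [n12]),
          Finset.sum_singleton]
        ring
      have htw : ∀ a b, τ (w a b) = w a b := fun a b => h.tU _ (hwU a b)
      have hWt : ∀ i, τ (Bf w (m' i)) = Bf w (m' i) := by
        intro i
        rw [hm']
        simp only [Bf, Matrix.map_apply, map_sub, map_add, map_mul, AlgHom.commutes, htw]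
      have p01 := hpair 0 1 n01
      have p02 := hpair 0 2 n02
      have p12 := hpair 1 2 n12
      rw [hexp, hexp, huniv, huniv, Bf_self, Bf_self] at p01 p02 p12
      have c10 : Bf (m' 1) (m' 0) = Bf (m' 0) (m' 1) := Bf_comm _ _
      have c20 : Bf (m' 2) (m' 0) = Bf (m' 0) (m' 2) := Bf_comm _ _
      have c21 : Bf (m' 2) (m' 1) = Bf (m' 1) (m' 2) := Bf_comm _ _
      simp only [c10, c20, c21] at p01 p02 p12
      have r0 : x 0 * Bf w (m' 0) + x 1 * x 2 * Bf (m' 1) (m' 2) = 0 := by
        apply mul_left_cancel₀ hB2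
        linear_combination p01 + p02 - p12
      have r1 : x 1 * Bf w (m' 1) + x 0 * x 2 * Bf (m' 0) (m' 2) = 0 := by
        apply mul_left_cancel₀ hB2
        linear_combination p01 + p12 - p02
      have r2 : x 2 * Bf w (m' 2) + x 0 * x 1 * Bf (m' 0) (m' 1) = 0 := by
        apply mul_left_cancel₀ hB2
        linear_combination p02 + p12 - p01
      have t0 : τ (x 0) = x 1 := by rw [h.tx, zero_add]
      have t1 : τ (x 1) = x 2 := by
        rw [h.tx]
        congr 1
        norm_num
      have t2 : τ (x 2) = x 0 := by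
        rw [h.tx]
        congr 1
        subst hℓ'
        rfl
      have mix : ∀ (B : k) (A : Ω), τ A = A →
          x 0 * A + x 1 * x 2 * algebraMap k Ω B = 0 → B = 0 ∧ A = 0 := by
        intro B A hA he
        have e1 := congrArg τ he
        simp only [map_add, map_mul, hA, t0, t1, t2, AlgHom.commutes, map_zero] at e1
        have e2 : algebraMap k Ω B * (x 2 * (x 1 ^ 2 - x 0 ^ 2)) = 0 := by
          linear_combination x 1 * he - x 0 * e1
        have hB : B = 0 := by
          rcases mul_eq_zero.1 e2 with h1 | h1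
          · exact (map_eq_zero _).1 h1
          · exfalso
            rcases mul_eq_zero.1 h1 with h4 | h4
            · exact h.nx 2 h4
            · exact hsq (sub_eq_zero.1 h4).symm
        refine ⟨hB, ?_⟩
        rw [hB, map_zero, mul_zero, add_zero] at he
        exact (mul_eq_zero.1 he).resolve_left (h.nx 0)
      rw [hBB] at r0 r1 r2
      obtain ⟨b12, w0⟩ := mix _ _ (hWt 0) r0
      have r1' : x 0 * Bf w (m' 1) + x 1 * x 2 * algebraMap k Ω (Bf (m 0) (m 2)) = 0 := by
        have e1 := congrArg τ (congrArg τ r1)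
        simp only [map_add, map_mul, hWt, t0, t1, t2, AlgHom.commutes, map_zero] at e1
        linear_combination e1
      have r2' : x 0 * Bf w (m' 2) + x 1 * x 2 * algebraMap k Ω (Bf (m 0) (m 1)) = 0 := by
        have e1 := congrArg τ r2
        simp only [map_add, map_mul, hWt, t0, t1, t2, AlgHom.commutes, map_zero] at e1
        linear_combination e1
      obtain ⟨b02, w1⟩ := mix _ _ (hWt 1) r1'
      obtain ⟨b01, w2⟩ := mix _ _ (hWt 2) r2'
      refine ⟨?_, ?_⟩
      · intro i j hij
        rcases hcases i with rfl | rfl | rfl <;> rcases hcases j with rfl | rfl | rfl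
        · exact absurd rfl hij
        · exact b01
        · exact b02
        · rw [Bf_comm]; exact b01
        · exact absurd rfl hij
        · exact b12
        · rw [Bf_comm]; exact b02
        · rw [Bf_comm]; exact b12
        · exact absurd rfl hij
      · intro i
        rcases hcases i with rfl | rfl | rfl
        · exact w0
        · exact w1
        · exact w2
  obtain ⟨hB, hwm⟩ := hort
  have hdetsum : ∀ s : Finset (ZMod ℓ), (w + ∑ n ∈ s, x n • m' n).det =
      w.det + ∑ n ∈ s, algebraMap k Ω (m n).det * x n ^ 2 := by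
    intro s
    induction s using Finset.induction_on with
    | empty => simp
    | insert i s hi ih =>
      rw [Finset.sum_insert hi, Finset.sum_insert hi, add_left_comm, add_comm, det_add2, ih,
        det_smul2]
      have e1 : Bf (w + ∑ n ∈ s, x n • m' n) (x i • m' i) = 0 := by
        rw [Bf_comm, Bf_smul, Bf_comm, Bf_add, hwm i, Bf_sumK, Finset.sum_eq_zero]
        · ring
        · intro n hn
          rw [hBB, hB n i (by rintro rfl; exact hi hn), map_zero, mul_zero]
      rw [e1, hm', det_mapK]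
      ring
  have hF : w.det + ∑ n, algebraMap k Ω (m n).det * x n ^ 2 = 0 := by
    rw [← hdetsum, ← hMm, hdet]
  have hFt : τ w.det = w.det := by
    simp only [Matrix.det_fin_two, map_sub, map_mul]
    rw [h.tU _ (hwU 0 0), h.tU _ (hwU 0 1), h.tU _ (hwU 1 0), h.tU _ (hwU 1 1)]
  have hall : ∀ i, (m i).det = (m 0).det := circK hirr (fun i => x i ^ 2) τ
    (fun i => by rw [map_pow, h.tx]) hsq (fun n => (m n).det) hFt hF
  obtain ⟨n01, n02, n12⟩ := three_ne hℓ3
  have hα : (m 0).det = 0 :=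
    alpha_zeroK h3 (m 0) (m 1) (m 2) (hB _ _ n01) (hB _ _ n12) (hB _ _ n02.symm) (hall 1) (hall 2)
  by_cases hz : ∀ n, m n = 0
  · left
    intro i j
    have hMw : M i j = w i j := by
      rw [hMval, hm']
      simp only [hz]
      simp
    rw [hMw]
    exact hwU i j
  · right
    push Not at hz
    obtain ⟨n, hn⟩ := hz
    have hn0 : (m n).det = 0 := by rw [hall n, hα]
    obtain ⟨u, v, hu, hv, huv⟩ := pair_ofK (Ω := Ω) (m n) hn hn0
    refine dep_of_pair M hdet u v hu hv ?_
    rw [huv M, Bf_comm]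
    have e1 : Bf M (m' n) = 0 := by
      rw [hexp, hwm n, zero_add, Finset.sum_eq_zero]
      intro i _
      by_cases hi : i = n
      · subst hi
        rw [Bf_self, hm', det_mapK, hn0, map_zero, mul_zero, mul_zero]
      · rw [hBB, hB i n hi, map_zero, mul_zero]
    rw [hm'] at e1
    exact e1

end K

end Pool.Agent.P8H33.QC
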