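import Pool.Agent.P8H33.QC.CoreK

set_option autoImplicit false

/-!
# Project QC: the core, with a hypothesis on the relations between the squares
-/

open Matrix Polynomial

namespace Pool.Agent.P8H33.QC

section K

variable {k Ω : Type*} [Field k] [Field Ω] [Algebra k Ω] {ℓ : ℕ} [hℓ : Fact ℓ.Prime]

/-- the version with a fixed term -/
theorem circN (y : ZMod ℓ → Ω) (τ : Ω →ₐ[k] Ω)
    (hy : ∀ i, τ (y i) = y (i + 1))
    (hns : ∀ b : ZMod ℓ → k, ∑ i, b i = 0 → ∑ i, algebraMap k Ω (b i) * y i = 0 → ∀ i, b i = 0)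
    (a : ZMod ℓ → k) {F : Ω} (hF : τ F = F)
    (he : F + ∑ i, algebraMap k Ω (a i) * y i = 0) : ∀ i, a i = a 0 := by
  have e1 := congrArg τ he
  rw [map_add, map_sum, hF, map_zero] at e1
  have e2 : ∑ i, τ (algebraMap k Ω (a i) * y i) = ∑ i, algebraMap k Ω (a (i - 1)) * y i := by
    rw [← Equiv.sum_comp (Equiv.addRight (1 : ZMod ℓ)) (fun i => algebraMap k Ω (a (i - 1)) * y i)]
    refine Finset.sum_congr rfl fun i _ => ?_
    simp only [map_mul, AlgHom.commutes, hy, Equiv.coe_addRight, add_sub_cancel_right]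
  rw [e2] at e1
  have e3 : ∑ i, algebraMap k Ω (a i - a (i - 1)) * y i = 0 := by
    have : ∑ i, algebraMap k Ω (a i - a (i - 1)) * y i =
        ∑ i, algebraMap k Ω (a i) * y i - ∑ i, algebraMap k Ω (a (i - 1)) * y i := by
      rw [← Finset.sum_sub_distrib]
      refine Finset.sum_congr rfl fun i _ => ?_
      rw [map_sub]
      ring
    rw [this]
    linear_combination he - e1
  have e4 : ∑ i, (a i - a (i - 1)) = 0 := by
    rw [Finset.sum_sub_distrib, sub_eq_zero]
    exact (Equiv.sum_comp (Equiv.subRight (1 : ZMod ℓ)) a).symm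
  have e5 := hns _ e4 e3
  have e6 : ∀ n : ℕ, a (n : ZMod ℓ) = a 0 := by
    intro n
    induction n with
    | zero => simp
    | succ n ih =>
      have := e5 ((n + 1 : ℕ) : ZMod ℓ)
      push_cast at this ⊢
      rw [add_sub_cancel_right] at this
      rw [sub_eq_zero.1 this, ih]
  intro i
  have := e6 i.val
  rwa [ZMod.natCast_zmod_val] at this

/-- **The core**, with a hypothesis on the relations between the squares. -/
theorem coreN [CharZero Ω] (h2 : ℓ ≠ 2)
    (h3 : ∀ s t r : k, s ^ 2 + t ^ 2 + r ^ 2 = 0 → s = 0 ∧ t = 0 ∧ r = 0)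
    {τ : Ω →ₐ[k] Ω} {x : ZMod ℓ → Ω} {U : Submodule k Ω} (h : Ev ℓ τ x U)
    (hns : ∀ b : ZMod ℓ → k, ∑ i, b i = 0 → ∑ i, algebraMap k Ω (b i) * x i ^ 2 = 0 →
      ∀ i, b i = 0)
    (M : Matrix (Fin 2) (Fin 2) Ω) (hM : ∀ i j, M i j ∈ U ⊔ Submodule.span k (Set.range x))
    (hdet : M.det = 0) : (∀ i j, M i j ∈ U) ∨ DepK k M := by
  classical
  have hℓ3 : 3 ≤ ℓ := by
    have h1 := hℓ.out.two_le
    omega
  have hB2 : (2 : Ω) ≠ 0 := two_ne_zero
  have hdec : ∀ m ∈ U ⊔ Submodule.span k (Set.range x), ∃ w ∈ U, ∃ c : ZMod ℓ → k,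
      m = w + ∑ i, algebraMap k Ω (c i) * x i := by
    intro m hm
    obtain ⟨w, hw, s, hs, rfl⟩ := Submodule.mem_sup.1 hm
    obtain ⟨c, rfl⟩ := (Submodule.mem_span_range_iff_exists_fun k).1 hs
    refine ⟨w, hw, c, ?_⟩
    simp only [Algebra.smul_def]
  choose! W hW c hMe using hdec
  obtain ⟨w, hw⟩ : ∃ w : Matrix (Fin 2) (Fin 2) Ω, w = Matrix.of fun i j => W (M i j) := ⟨_, rfl⟩
  obtain ⟨m, hm⟩ : ∃ m : ZMod ℓ → Matrix (Fin 2) (Fin 2) k,
      m = fun n => Matrix.of fun i j => c (M i j) n := ⟨_, rfl⟩
  have hwU : ∀ i j, w i j ∈ U := by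
    intro i j
    rw [hw]
    exact hW _ (hM i j)
  obtain ⟨m', hm'⟩ : ∃ m' : ZMod ℓ → Matrix (Fin 2) (Fin 2) Ω,
      m' = fun n => (m n).map (algebraMap k Ω) := ⟨_, rfl⟩
  have hMm : M = w + ∑ n, x n • m' n := by
    ext i j
    rw [hMe _ (hM i j), Matrix.add_apply, Matrix.sum_apply, hw]
    congr 1
    refine Finset.sum_congr rfl fun n _ => ?_
    rw [hm', hm]
    simp only [Matrix.smul_apply, Matrix.map_apply, Matrix.of_apply, smul_eq_mul]
    ring
  have hMval : ∀ a b, M a b = w a b + ∑ n, x n * m' n a b := by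
    intro a b
    conv_lhs => rw [hMm]
    simp only [Matrix.add_apply, Matrix.sum_apply, Matrix.smul_apply, smul_eq_mul]
  -- sign changes
  have hconj : ∀ (f : Ω →ₐ[k] Ω) (i j : ZMod ℓ), i ≠ j → f (x i) = -x i → f (x j) = -x j →
      (∀ n, n ≠ i → n ≠ j → f (x n) = x n) → (∀ u ∈ U, f u = u) →
      M.map f = M + ((-2 * x i) • m' i + (-2 * x j) • m' j) := by
    intro f i j hij fi fj fo fU
    ext a b
    have e2 : ∀ n, f (m' n a b) = m' n a b := by
      intro n
      rw [hm']
      simp only [Matrix.map_apply, AlgHom.commutes]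
    rw [Matrix.map_apply, hMval, map_add, map_sum, fU _ (hwU a b)]
    simp only [Matrix.add_apply, Matrix.smul_apply, smul_eq_mul]
    rw [hMval a b]
    have e3 : ∑ n, f (x n * m' n a b) = ∑ n, (x n * m' n a b +
        ((if n = i then -2 * x i * m' i a b else 0) + (if n = j then -2 * x j * m' j a b else 0))) := by
      refine Finset.sum_congr rfl fun n _ => ?_
      rw [map_mul, e2]
      by_cases hni : n = i
      · subst hni
        rw [fi, if_pos rfl, if_neg hij]
        ring
      · by_cases hnj : n = j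
        · subst hnj
          rw [fj, if_neg hni, if_pos rfl]
          ring
        · rw [fo n hni hnj, if_neg hni, if_neg hnj]
          ring
    rw [e3, Finset.sum_add_distrib, Finset.sum_add_distrib, Finset.sum_ite_eq', Finset.sum_ite_eq',
      if_pos (Finset.mem_univ i), if_pos (Finset.mem_univ j)]
    ring
  -- the pair relations
  have hpair : ∀ i j, i ≠ j → (x i * Bf M (m' i) - 2 * x i ^ 2 * (m' i).det) +
      (x j * Bf M (m' j) - 2 * x j ^ 2 * (m' j).det) = 2 * (x i * x j * Bf (m' i) (m' j)) := by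
    intro i j hij
    obtain ⟨f, fi, fj, fo, fU⟩ := h.sg i j hij
    have e1 : (M.map f).det = 0 := by
      have := AlgHom.map_det f M
      rw [AlgHom.mapMatrix_apply] at this
      rw [← this, hdet, map_zero]
    rw [hconj f i j hij fi fj fo fU, det_three, hdet] at e1
    apply mul_left_cancel₀ hB2
    linear_combination -e1
  have hBB : ∀ i j, Bf (m' i) (m' j) = algebraMap k Ω (Bf (m i) (m j)) := by
    intro i j
    rw [hm']
    exact Bf_mapK _ _
  have hexp : ∀ i, Bf M (m' i) = Bf w (m' i) + ∑ n, x n * Bf (m' n) (m' i) := by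
    intro i
    conv_lhs => rw [hMm]
    rw [Bf_add, Bf_sumK]
  have hsq : x 0 ^ 2 ≠ x 1 ^ 2 := by
    obtain ⟨n01, n02, n12⟩ := three_ne hℓ3
    obtain ⟨f, f0, -, fo, -⟩ := h.sg 0 2 n02
    have f1 := fo 1 n01.symm n12
    intro he
    have hn := h.nx 1
    rcases sq_eq_sq_iff_eq_or_eq_neg.1 he with h1 | h1
    · rw [h1, f1] at f0
      apply hn
      have : (2 : Ω) * x 1 = 0 := by linear_combination f0
      exact (mul_eq_zero.1 this).resolve_left hB2
    · rw [h1, map_neg, f1, neg_neg] at f0
      apply hn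
      have : (2 : Ω) * x 1 = 0 := by linear_combination -f0
      exact (mul_eq_zero.1 this).resolve_left hB2
  -- orthogonality
  have hort : (∀ i j, i ≠ j → Bf (m i) (m j) = 0) ∧ ∀ i, Bf w (m' i) = 0 := by
    have hfin : (∀ i j, i ≠ j → Bf (m i) (m j) = 0) →
        (∀ i, x i * Bf M (m' i) - 2 * x i ^ 2 * (m' i).det = 0) → ∀ i, Bf w (m' i) = 0 := by
      intro hB hE i
      have e1 := hE i
      rw [hexp, Finset.sum_eq_single i] at e1
      · rw [Bf_self] at e1
        have e2 : x i * Bf w (m' i) = 0 := by linear_combination e1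
        exact (mul_eq_zero.1 e2).resolve_left (h.nx i)
      · intro n _ hn
        rw [hBB, hB n i hn, map_zero, mul_zero]
      · intro h'
        exact absurd (Finset.mem_univ i) h'
    by_cases h5 : 5 ≤ ℓ
    · have hE3 : ∀ i j l, i ≠ j → i ≠ l → j ≠ l →
          x i * Bf M (m' i) - 2 * x i ^ 2 * (m' i).det = x i * x j * Bf (m' i) (m' j) +
            x i * x l * Bf (m' i) (m' l) - x j * x l * Bf (m' j) (m' l) := by
        intro i j l hij hil hjl
        have e1 := hpair i j hij
        have e2 := hpair i l hil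
        have e3 := hpair j l hjl
        apply mul_left_cancel₀ hB2
        linear_combination e1 + e2 - e3
      have hB : ∀ i j, i ≠ j → Bf (m i) (m j) = 0 := by
        -- `x i B_il = x j B_jl`, and a sign change
        intro i l hil
        obtain ⟨j, hj⟩ := exists_other (ℓ := ℓ) (s := {i, l}) (by
          refine lt_of_le_of_lt (Finset.card_le_two) (by omega))
        simp only [Finset.mem_insert, Finset.mem_singleton, not_or] at hj
        obtain ⟨n, hn⟩ := exists_other (ℓ := ℓ) (s := {i, l, j}) (by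
          refine lt_of_le_of_lt (Finset.card_le_three) (by omega))
        simp only [Finset.mem_insert, Finset.mem_singleton, not_or] at hn
        obtain ⟨q, hq⟩ := exists_other (ℓ := ℓ) (s := {i, l, j, n}) (by
          refine lt_of_le_of_lt (Finset.card_le_four) (by omega))
        simp only [Finset.mem_insert, Finset.mem_singleton, not_or] at hq
        obtain ⟨hji, hjl⟩ := hj
        obtain ⟨hni, hnl, hnj⟩ := hn
        obtain ⟨hqi, hql, hqj, hqn⟩ := hq
        have e1 := hE3 i j l (Ne.symm hji) hil hjl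
        have e2 := hE3 i j n (Ne.symm hji) (Ne.symm hni) (Ne.symm hnj)
        have e3 : x i * x l * Bf (m' i) (m' l) - x j * x l * Bf (m' j) (m' l) =
            x i * x n * Bf (m' i) (m' n) - x j * x n * Bf (m' j) (m' n) := by
          linear_combination e2 - e1
        obtain ⟨f, fl, fq, fo, -⟩ := h.sg l q (Ne.symm hql)
        have e4 := congrArg f e3
        simp only [map_sub, map_mul, hBB, AlgHom.commutes, fl,
          fo i hil (Ne.symm hqi), fo j hjl (Ne.symm hqj), fo n hnl (Ne.symm hqn)] at e4
        simp only [hBB] at e3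
        have e5 : x l * (x i * algebraMap k Ω (Bf (m i) (m l)) -
            x j * algebraMap k Ω (Bf (m j) (m l))) = 0 := by
          apply mul_left_cancel₀ hB2
          linear_combination e3 - e4
        have e6 := (mul_eq_zero.1 e5).resolve_left (h.nx l)
        obtain ⟨g, gi, gn, go, -⟩ := h.sg i n (Ne.symm hni)
        have e7 := congrArg g e6
        simp only [map_sub, map_mul, AlgHom.commutes, gi, go j hji (Ne.symm hnj), map_zero] at e7
        have e8 : x i * algebraMap k Ω (Bf (m i) (m l)) = 0 := by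
          apply mul_left_cancel₀ hB2
          linear_combination e6 - e7
        have e9 := (mul_eq_zero.1 e8).resolve_left (h.nx i)
        exact (map_eq_zero _).1 e9
      refine ⟨hB, hfin hB fun i => ?_⟩
      obtain ⟨j, hj⟩ := exists_other (ℓ := ℓ) (s := {i}) (by
        rw [Finset.card_singleton]; omega)
      simp only [Finset.mem_singleton] at hj
      obtain ⟨l, hl⟩ := exists_other (ℓ := ℓ) (s := {i, j}) (by
        refine lt_of_le_of_lt (Finset.card_le_two) (by omega))
      simp only [Finset.mem_insert, Finset.mem_singleton, not_or] at hl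
      rw [hE3 i j l (Ne.symm hj) (Ne.symm hl.1) (Ne.symm hl.2), hBB, hBB, hBB, hB i j (Ne.symm hj),
        hB i l (Ne.symm hl.1), hB j l (Ne.symm hl.2)]
      simp only [map_zero]
      ring
    · -- `ℓ = 3`
      have hℓ' : ℓ = 3 := by
        interval_cases ℓ
        · rfl
        · exact absurd hℓ.out (by norm_num)
      obtain ⟨n01, n02, n12⟩ := three_ne hℓ3
      have hcases : ∀ i : ZMod ℓ, i = 0 ∨ i = 1 ∨ i = 2 := by
        subst hℓ'
        exact zmod3_cases'
      have huniv : ∀ g : ZMod ℓ → Ω, ∑ n, g n = g 0 + g 1 + g 2 := by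
        intro g
        have : (Finset.univ : Finset (ZMod ℓ)) = {0, 1, 2} := by
          symm
          rw [Finset.eq_univ_iff_forall]
          intro i
          rcases hcases i with rfl | rfl | rfl <;> simp
        rw [this, Finset.sum_insert (by simp [n01, n02]), Finset.sum_insert (by simp [n12]),
          Finset.sum_singleton]
        ring
      have htw : ∀ a b, τ (w a b) = w a b := fun a b => h.tU _ (hwU a b)
      have hWt : ∀ i, τ (Bf w (m' i)) = Bf w (m' i) := by
        intro i
        rw [hm']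
        simp only [Bf, Matrix.map_apply, map_sub, map_add, map_mul, AlgHom.commutes, htw]
      have p01 := hpair 0 1 n01
      have p02 := hpair 0 2 n02
      have p12 := hpair 1 2 n12
      rw [hexp, hexp, huniv, huniv, Bf_self, Bf_self] at p01 p02 p12
      have c10 : Bf (m' 1) (m' 0) = Bf (m' 0) (m' 1) := Bf_comm _ _
      have c20 : Bf (m' 2) (m' 0) = Bf (m' 0) (m' 2) := Bf_comm _ _
      have c21 : Bf (m' 2) (m' 1) = Bf (m' 1) (m' 2) := Bf_comm _ _
      simp only [c10, c20, c21] at p01 p02 p12
      have r0 : x 0 * Bf w (m' 0) + x 1 * x 2 * Bf (m' 1) (m' 2) = 0 := by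
        apply mul_left_cancel₀ hB2
        linear_combination p01 + p02 - p12
      have r1 : x 1 * Bf w (m' 1) + x 0 * x 2 * Bf (m' 0) (m' 2) = 0 := by
        apply mul_left_cancel₀ hB2
        linear_combination p01 + p12 - p02
      have r2 : x 2 * Bf w (m' 2) + x 0 * x 1 * Bf (m' 0) (m' 1) = 0 := by
        apply mul_left_cancel₀ hB2
        linear_combination p02 + p12 - p01
      have t0 : τ (x 0) = x 1 := by rw [h.tx, zero_add]
      have t1 : τ (x 1) = x 2 := by
        rw [h.tx]
        congr 1
        norm_num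
      have t2 : τ (x 2) = x 0 := by
        rw [h.tx]
        congr 1
        subst hℓ'
        rfl
      have mix : ∀ (B : k) (A : Ω), τ A = A →
          x 0 * A + x 1 * x 2 * algebraMap k Ω B = 0 → B = 0 ∧ A = 0 := by
        intro B A hA he
        have e1 := congrArg τ he
        simp only [map_add, map_mul, hA, t0, t1, t2, AlgHom.commutes, map_zero] at e1
        have e2 : algebraMap k Ω B * (x 2 * (x 1 ^ 2 - x 0 ^ 2)) = 0 := by
          linear_combination x 1 * he - x 0 * e1
        have hB : B = 0 := by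
          rcases mul_eq_zero.1 e2 with h1 | h1
          · exact (map_eq_zero _).1 h1
          · exfalso
            rcases mul_eq_zero.1 h1 with h4 | h4
            · exact h.nx 2 h4
            · exact hsq (sub_eq_zero.1 h4).symm
        refine ⟨hB, ?_⟩
        rw [hB, map_zero, mul_zero, add_zero] at he
        exact (mul_eq_zero.1 he).resolve_left (h.nx 0)
      rw [hBB] at r0 r1 r2
      obtain ⟨b12, w0⟩ := mix _ _ (hWt 0) r0
      have r1' : x 0 * Bf w (m' 1) + x 1 * x 2 * algebraMap k Ω (Bf (m 0) (m 2)) = 0 := by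
        have e1 := congrArg τ (congrArg τ r1)
        simp only [map_add, map_mul, hWt, t0, t1, t2, AlgHom.commutes, map_zero] at e1
        linear_combination e1
      have r2' : x 0 * Bf w (m' 2) + x 1 * x 2 * algebraMap k Ω (Bf (m 0) (m 1)) = 0 := by
        have e1 := congrArg τ r2
        simp only [map_add, map_mul, hWt, t0, t1, t2, AlgHom.commutes, map_zero] at e1
        linear_combination e1
      obtain ⟨b02, w1⟩ := mix _ _ (hWt 1) r1'
      obtain ⟨b01, w2⟩ := mix _ _ (hWt 2) r2'
      refine ⟨?_, ?_⟩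
      · intro i j hij
        rcases hcases i with rfl | rfl | rfl <;> rcases hcases j with rfl | rfl | rfl
        · exact absurd rfl hij
        · exact b01
        · exact b02
        · rw [Bf_comm]; exact b01
        · exact absurd rfl hij
        · exact b12
        · rw [Bf_comm]; exact b02
        · rw [Bf_comm]; exact b12
        · exact absurd rfl hij
      · intro i
        rcases hcases i with rfl | rfl | rfl
        · exact w0
        · exact w1
        · exact w2
  obtain ⟨hB, hwm⟩ := hort
  have hdetsum : ∀ s : Finset (ZMod ℓ), (w + ∑ n ∈ s, x n • m' n).det =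
      w.det + ∑ n ∈ s, algebraMap k Ω (m n).det * x n ^ 2 := by
    intro s
    induction s using Finset.induction_on with
    | empty => simp
    | insert i s hi ih =>
      rw [Finset.sum_insert hi, Finset.sum_insert hi, add_left_comm, add_comm, det_add2, ih,
        det_smul2]
      have e1 : Bf (w + ∑ n ∈ s, x n • m' n) (x i • m' i) = 0 := by
        rw [Bf_comm, Bf_smul, Bf_comm, Bf_add, hwm i, Bf_sumK, Finset.sum_eq_zero]
        · ring
        · intro n hn
          rw [hBB, hB n i (by rintro rfl; exact hi hn), map_zero, mul_zero]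
      rw [e1, hm', det_mapK]
      ring
  have hF : w.det + ∑ n, algebraMap k Ω (m n).det * x n ^ 2 = 0 := by
    rw [← hdetsum, ← hMm, hdet]
  have hFt : τ w.det = w.det := by
    simp only [Matrix.det_fin_two, map_sub, map_mul]
    rw [h.tU _ (hwU 0 0), h.tU _ (hwU 0 1), h.tU _ (hwU 1 0), h.tU _ (hwU 1 1)]
  have hall : ∀ i, (m i).det = (m 0).det := circN (fun i => x i ^ 2) τ
    (fun i => by rw [map_pow, h.tx]) hns (fun n => (m n).det) hFt hF
  obtain ⟨n01, n02, n12⟩ := three_ne hℓ3
  have hα : (m 0).det = 0 :=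
    alpha_zeroK h3 (m 0) (m 1) (m 2) (hB _ _ n01) (hB _ _ n12) (hB _ _ n02.symm) (hall 1) (hall 2)
  by_cases hz : ∀ n, m n = 0
  · left
    intro i j
    have hMw : M i j = w i j := by
      rw [hMval, hm']
      simp only [hz]
      simp
    rw [hMw]
    exact hwU i j
  · right
    push Not at hz
    obtain ⟨n, hn⟩ := hz
    have hn0 : (m n).det = 0 := by rw [hall n, hα]
    obtain ⟨u, v, hu, hv, huv⟩ := pair_ofK (Ω := Ω) (m n) hn hn0
    refine dep_of_pair M hdet u v hu hv ?_
    rw [huv M, Bf_comm]
    have e1 : Bf M (m' n) = 0 := by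
      rw [hexp, hwm n, zero_add, Finset.sum_eq_zero]
      intro i _
      by_cases hi : i = n
      · subst hi
        rw [Bf_self, hm', det_mapK, hn0, map_zero, mul_zero, mul_zero]
      · rw [hBB, hB i n hi, map_zero, mul_zero]
    rw [hm'] at e1
    exact e1

end K

end Pool.Agent.P8H33.QC
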