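import Mathlib

set_option autoImplicit false

/-!
# Project QC, second part (helper33; hard row MP_1f047c_nt): wreath products `C₂ ≀ C_ℓ` over `ℚ_2`

Aim: for every odd prime `ℓ` explicit rational spaces of `2`-adic logarithms of dimension `ℓ + 2` for which
the `2`-adic four exponentials conjecture holds (and Q2 for `3 × 3` matrices in dimension `ℓ`).
In the packages `C = PadicAlgCl 2`. Elementary fact used in TAU, NBE, UNR: if `n` is odd and `a ≠ b` are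
`n`-th roots of unity in `C` then `‖a - b‖ = 1` (all `‖1 - ω‖ ≤ 1` and `∏_{ω ≠ 1} (1 - ω) = n` has norm one).
-/

open Polynomial IntermediateField

namespace Pool.Agent.P8H33.QC

/-- TAU (about 80 lines). The Frobenius automorphism.
PROOF. Let `m` be the minimal polynomial of `ζ` over `ℚ_2`; it has coefficients in `ℤ_2` (`ζ` is integral) and
divides `X ^ n - 1`, `n = 2 ^ ℓ - 1`. As `m(X ^ 2) ≡ m(X) ^ 2` modulo `2` we have `‖m(ζ ^ 2)‖ ≤ 1/2`; but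
`m(ζ ^ 2) = ∏ (ζ ^ 2 - ρ)` over the roots `ρ` of `m` (they are `n`-th roots of unity), so `‖ζ ^ 2 - ρ‖ < 1` for
some `ρ`, whence `ζ ^ 2 = ρ` is a root of `m`; use `isConjRoot_iff_exists_algEquiv`. -/
def S_TAU : Prop := ∀ ℓ : ℕ, 0 < ℓ → ∀ ζ : PadicAlgCl 2, IsPrimitiveRoot ζ (2 ^ ℓ - 1) →
  ∃ τ : PadicAlgCl 2 ≃ₐ[ℚ_[2]] PadicAlgCl 2, τ ζ = ζ ^ 2

/-- NBE (about 150 lines). A normal basis modulo the maximal ideal.
PROOF. Let `R = ℤ[ζ]` (subring of `C`), `I = {x ∈ R : ‖x‖ < 1}`: a prime ideal containing `2`. `F = R ⧸ I` is a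
finite domain, so a finite field of characteristic two, generated by the image `z` of `ζ`, and `z` has exact
order `2 ^ ℓ - 1`. So `#F = 2 ^ d` with `2 ^ ℓ - 1 ∣ 2 ^ d - 1` (`ℓ ∣ d`), and `z ^ (2 ^ ℓ) = z` shows that
`x ^ (2 ^ ℓ) = x` on `F` (`d ≤ ℓ`); `d = ℓ`. Normal basis theorem (`Mathlib.FieldTheory.Galois.NormalBasis`)
for `F` over `ZMod 2`, the Galois group consists of the powers of the Frobenius: there is `t ∈ F` with `t, t ^ 2, …,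
t ^ (2 ^ (ℓ - 1))` linearly independent over `ZMod 2`. Let `t` be the image of `P(ζ)`, `P ∈ ℤ[X]`. Then
`∑_{i ∈ S} P(ζ ^ (2 ^ i)) ≡ ∑_{i ∈ S} P(ζ) ^ (2 ^ i)` modulo `I` (as `P(X ^ 2) ≡ P(X) ^ 2` mod `2`), is not zero
modulo `I`, and its norm is at most one. (Any other choice of the residue field is fine.) -/
def S_NBE : Prop := ∀ ℓ : ℕ, 0 < ℓ → ∀ ζ : PadicAlgCl 2, IsPrimitiveRoot ζ (2 ^ ℓ - 1) →
  ∃ P : ℤ[X], ∀ S : Finset ℕ, S ⊆ Finset.range ℓ → S.Nonempty →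
    ‖∑ i ∈ S, aeval (ζ ^ (2 ^ i)) P‖ = 1

/-- UNR (about 120 lines). `ℚ_2(ζ)` is unramified.
PROOF. Let `m` be the minimal polynomial of `ζ`, of degree `f`, with roots `ρ_1, …, ρ_f`, roots of unity of odd
order, `‖ρ_i - ρ_j‖ = 1` for `i ≠ j`. Every `x ∈ ℚ_2(ζ)` is `g(ζ)` with `g ∈ ℚ_2[X]`, `deg g < f`. Claim:
`‖g(ζ)‖` is the maximum of the norms of the coefficients of `g` (this gives the assertion, since the norms of the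
elements of `ℚ_2` are powers of two). `≤` is clear. The automorphisms of `C` over `ℚ_2` preserve the norm
(`PadicAlgCl.spectralNorm_eq`, `spectralNorm_eq_of_equiv`; see also `Pool.Agent.P8H10.norm_gal`), so
`‖g(ρ_i)‖ = ‖g(ζ)‖` for all `i`, and by Lagrange interpolation `g = ∑_i g(ρ_i) ∏_{j ≠ i} (X - ρ_j) / (ρ_i - ρ_j)`
(`Lagrange.interpolate`) all coefficients of `g` have norm `≤ max ‖g(ρ_i)‖ = ‖g(ζ)‖`. -/
def S_UNR : Prop := ∀ ℓ : ℕ, 0 < ℓ → ∀ ζ : PadicAlgCl 2, IsPrimitiveRoot ζ (2 ^ ℓ - 1) →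
  ∀ x ∈ adjoin ℚ_[2] ({ζ} : Set (PadicAlgCl 2)), ‖x‖ < 1 → ‖x‖ ≤ 1 / 2

/-- KUM (about 100 lines). Kummer theory of exponent two.
PROOF. Claim, by induction on `T`: for disjoint finite sets `S ≠ ∅`, `T` the product `∏_{S} r_i` is not in
`K(r_j : j ∈ T)`. Let `E = K(r_j : j ∈ T)` and suppose that `s = ∏_S r_i ∈ E(r_t)`, `t ∉ T ∪ S`. As `r_t ^ 2 ∈ E`,
`s = a + b r_t` with `a, b ∈ E`, `s ^ 2 ∈ E`, so `2 a b r_t ∈ E` and `a b = 0` (`r_t ∉ E` by induction). `b = 0` gives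
`s ∈ E`, and `a = 0` gives `s r_t = b r_t ^ 2 ∈ E`: both contradict the induction hypothesis. So `r_i` is not in
`E = K(r_j : j ≠ i)` and `-r_i` is a conjugate of `r_i` over `E` (`isConjRoot_iff_exists_algEquiv` over `E`;
`restrictScalars`). -/
def S_KUM : Prop := ∀ (p : ℕ) [Fact p.Prime] (K : IntermediateField ℚ_[p] (PadicAlgCl p)) (n : ℕ)
  (r : Fin n → PadicAlgCl p), (∀ i, r i ^ 2 ∈ K) →
  (∀ S : Finset (Fin n), S.Nonempty → ∏ i ∈ S, r i ∉ K) →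
  ∀ i, ∃ σ : PadicAlgCl p ≃ₐ[ℚ_[p]] PadicAlgCl p, (∀ y ∈ K, σ y = y) ∧ σ (r i) = -r i ∧
    ∀ j, j ≠ i → σ (r j) = r j

/-- The configuration: `ℓ` algebraic numbers close to one, cyclically permuted by an automorphism, another
automorphism inverts the first and fixes the others. -/
def HasWreath (ℓ : ℕ) (α : ZMod ℓ → PadicAlgCl 2) : Prop :=
  ∃ τ σ : PadicAlgCl 2 ≃ₐ[ℚ_[2]] PadicAlgCl 2, (∀ i, τ (α i) = α (i + 1)) ∧ σ (α 0) = (α 0)⁻¹ ∧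
    ∀ i, i ≠ 0 → σ (α i) = α i

/-- EXW (about 180 lines; assumes the four packages above). Existence of the configuration.
PROOF. Let `ζ` be a primitive root of unity of order `2 ^ ℓ - 1`, `τ` as in TAU, `P` as in NBE, `K = ℚ_2(ζ)`,
`θ = P(ζ)`, `τ ^ i θ = P(ζ ^ (2 ^ i))`; `τ ^ ℓ` is the identity on `K`. Let `r ^ 2 = 1 + 2 θ`, `r_i = τ ^ i r`,
`0 ≤ i < ℓ`, `r_i ^ 2 = 1 + 2 τ ^ i θ ∈ K`. For nonempty `S` let `s = ∏_S r_i`. Then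
`s ^ 2 = ∏_S (1 + 2 θ_i) = 1 + 2 (∑_S θ_i + 2 (…))`, and the number `u` in `s ^ 2 = 1 + 2 u` has norm one. With
`t = s - 1`: `t ^ 2 + 2 t = 2 u`, so `‖t‖ ^ 2 = 1/2` (cases `‖t‖ ≤ 1/2`, `‖t‖ > 1/2`), and `t ∉ K` by UNR. So KUM
applies: there are automorphisms `σ_i` over `K` which change the sign of `r_i` only. `τ ^ ℓ r = ± r`; if the sign is
`-` replace `τ` by `σ_0 ∘ τ` (first `τ`): then `τ r_i = r_{i + 1}` cyclically. Put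
`α_i = (1 + 4 r_i) / (1 - 4 r_i)`: `‖r_i‖ = 1`, `‖α_i - 1‖ = ‖8 r_i‖ = 1/8`, and `α_i` is algebraic over `ℚ`, as `ζ` is
(`θ` is a polynomial in `ζ` with integral coefficients). -/
def S_EXW : Prop := ∀ ℓ : ℕ, 1 < ℓ → ∃ α : ZMod ℓ → PadicAlgCl 2,
  (∀ i, IsAlgebraic ℚ (α i) ∧ α i ≠ 0 ∧ α i ≠ 1 ∧ ‖α i - 1‖ ≤ 1 / 8) ∧ HasWreath ℓ α

/-- D3 (Mathlib only, linear algebra of `3 × 3` matrices, about 200 lines).
PROOF. Write `N(X) = ∑ X_i m_i`, `ℓ(X) = ∑ c_i X_i`, `q(X) = ∑ X_i ^ 2`.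
(0) If `c = 0` all `N(X)` are singular. If some `n₀ = N(X₀)` has rank two then `adj n₀ = v wᵗ ≠ 0`, `v ∈ ker`, `wᵗ n₀ = 0`,
and the coefficient of `t` in `det (n₀ + t m_i) = 0` is `tr (adj n₀ m_i) = wᵗ m_i v = 0`. If all `N(X)` have
rank at most one (all `2 × 2` minors of `N(X)` vanish, also the polarized ones) and some `n₀ ≠ 0`, take `v ≠ 0` with
`n₀ v = 0`, `w ≠ 0` with `wᵗ n₀ = 0`: again `wᵗ m_i v = 0`.
(1) Let `c ≠ 0`, `𝓝 = {X : ℓ(X) = 0}`, of dimension `k - 1 ≥ 4`, `m' = N(X')` with `ℓ(X') = 1`. The coefficient of `t` in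
`det (N(X) + t m') = t q(X + t X')`, `X ∈ 𝓝`, is `tr (adj N(X) m') = q(X)`, not zero for `X ≠ 0`: for all `0 ≠ X ∈ 𝓝`
the matrix `N(X)` has rank two. Fix `0 ≠ X₀ ∈ 𝓝`; after a rational change of basis on both sides (for all
matrices at the same time) `n₀ = N(X₀) = diag(1, 1, 0)`. For `X ∈ 𝓝` write `N(X) = [[A, b], [cᵗ, d]]` with the `2 × 2`
matrix `A`. `det (N(X) + t n₀) = 0` for all `t` gives `d = 0`, `c ⬝ b = 0`, and (`det`) `cᵗ adj(A) b = 0`. Polarize: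
`c(X) ⬝ b(Y) + c(Y) ⬝ b(X) = 0` on `𝓝`.
(a) `b = 0` on `𝓝`: then `v = e₃` and `w ≠ 0` orthogonal to `m' e₃`. (a') `c = 0` on `𝓝`: the same with transposes.
(b) `b(𝓝) = ℚ b₀` and `c(𝓝) = ℚ c₀` are lines: `b(X) = β(X) b₀`, `c(X) = γ(X) c₀`; `c₀ ⬝ b₀ = 0` (take `X` with
`β(X) γ(X) ≠ 0`), `adj A = tr A - A`, so `β γ (c₀ᵗ A b₀) = 0` on `𝓝` and `c₀ᵗ A b₀ = 0` on `𝓝`. As `c₀ ⬝ b₀ = 0` all
`N(X)`, `X ∈ 𝓝`, vanish on `⟨(c₀, 0), e₃⟩ × ⟨(b₀, 0), e₃⟩`: take `w = e₃` and `v ≠ 0` in the plane `⟨(b₀, 0), e₃⟩`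
with `wᵗ m' v = 0`.
(c) `b(𝓝) = ℚ²` (or `c(𝓝) = ℚ²`: transposes) and `c ≠ 0` on `𝓝`: if `b(X) = 0` then `c(X) ⬝ b(Y) = 0` for all `Y`, so `c(X) = 0`.
So `c = T b` for a `2 × 2` matrix `T`, `b ⬝ T b = 0`, `T = s J`, `J = [[0, -1], [1, 0]]`, `s ≠ 0`. As `dim 𝓝 ≥ 4` there is
`X₁ ∈ 𝓝`, independent of `X₀`, with `b(X₁) = 0 = c(X₁)`. The coefficient of `t` in `det N(X + t X₁) = 0` gives
`(J b)ᵗ adj(A₁) b = 0` for all `b ∈ ℚ²`, so `A₁ = p · 1`, `N(X₁ - p X₀) = 0`, a contradiction (rank two). -/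
def S_D3 : Prop := ∀ k : ℕ, 5 ≤ k → ∀ (m : Fin k → Matrix (Fin 3) (Fin 3) ℚ) (c : Fin k → ℚ),
  (∀ X : Fin k → ℚ, (∑ i, X i • m i).det = (∑ i, c i * X i) * ∑ i, X i ^ 2) →
  ∃ w v : Fin 3 → ℚ, w ≠ 0 ∧ v ≠ 0 ∧ ∀ i, dotProduct w (Matrix.mulVec (m i) v) = 0

end Pool.Agent.P8H33.QC
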