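import Pool.Agent.P8H33.QC.Core

set_option autoImplicit false

/-!
# Project QC: singular `3 × 3` matrices with entries in `⟨x, y, z⟩`
-/

open Matrix

namespace Pool.Agent.P8H33.QC

/-- the coefficient of `x ^ 2 y` of `det (x a + y b)` -/
def tt {R : Type*} [CommRing R] (a b : Matrix (Fin 3) (Fin 3) R) : R :=
  b 0 0 * (a 1 1 * a 2 2 - a 1 2 * a 2 1) - b 0 1 * (a 1 0 * a 2 2 - a 1 2 * a 2 0) +
    b 0 2 * (a 1 0 * a 2 1 - a 1 1 * a 2 0) +
  (a 0 0 * (b 1 1 * a 2 2 - b 1 2 * a 2 1) - a 0 1 * (b 1 0 * a 2 2 - b 1 2 * a 2 0) +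
    a 0 2 * (b 1 0 * a 2 1 - b 1 1 * a 2 0)) +
  (a 0 0 * (a 1 1 * b 2 2 - a 1 2 * b 2 1) - a 0 1 * (a 1 0 * b 2 2 - a 1 2 * b 2 0) +
    a 0 2 * (a 1 0 * b 2 1 - a 1 1 * b 2 0))

/-- the determinant whose rows are those of `a`, `b`, `c` -/
def rr {R : Type*} [CommRing R] (a b c : Matrix (Fin 3) (Fin 3) R) : R :=
  a 0 0 * (b 1 1 * c 2 2 - b 1 2 * c 2 1) - a 0 1 * (b 1 0 * c 2 2 - b 1 2 * c 2 0) +
    a 0 2 * (b 1 0 * c 2 1 - b 1 1 * c 2 0)

/-- the coefficient of `x y z` -/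
def uu {R : Type*} [CommRing R] (a b c : Matrix (Fin 3) (Fin 3) R) : R :=
  rr a b c + rr a c b + rr b a c + rr b c a + rr c a b + rr c b a

theorem det_comb {R : Type*} [CommRing R] (a b c : Matrix (Fin 3) (Fin 3) R) (x y z : R) :
    (x • a + y • b + z • c).det = x ^ 3 * a.det + y ^ 3 * b.det + z ^ 3 * c.det +
      x ^ 2 * y * tt a b + x ^ 2 * z * tt a c + y ^ 2 * x * tt b a + y ^ 2 * z * tt b c +
      z ^ 2 * x * tt c a + z ^ 2 * y * tt c b + x * y * z * uu a b c := by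
  simp only [Matrix.det_fin_three, tt, uu, rr, Matrix.add_apply, Matrix.smul_apply, smul_eq_mul]
  ring

theorem det_map' {Ω : Type*} [Field Ω] [CharZero Ω] (a : Matrix (Fin 3) (Fin 3) ℚ) :
    (a.map (algebraMap ℚ Ω)).det = ((a.det : ℚ) : Ω) := by
  simp only [Matrix.det_fin_three, Matrix.map_apply, eq_ratCast]
  push_cast
  ring

theorem tt_map {Ω : Type*} [Field Ω] [CharZero Ω] (a b : Matrix (Fin 3) (Fin 3) ℚ) :
    tt (a.map (algebraMap ℚ Ω)) (b.map (algebraMap ℚ Ω)) = ((tt a b : ℚ) : Ω) := by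
  simp only [tt, Matrix.map_apply, eq_ratCast]
  push_cast
  ring

theorem uu_map {Ω : Type*} [Field Ω] [CharZero Ω] (a b c : Matrix (Fin 3) (Fin 3) ℚ) :
    uu (a.map (algebraMap ℚ Ω)) (b.map (algebraMap ℚ Ω)) (c.map (algebraMap ℚ Ω)) =
      ((uu a b c : ℚ) : Ω) := by
  simp only [uu, rr, Matrix.map_apply, eq_ratCast]
  push_cast
  ring

/-- A singular combination of three rational matrices gives a common pair. -/
theorem pair3 (a b c : Matrix (Fin 3) (Fin 3) ℚ) (p q r : ℚ) (hne : p ≠ 0 ∨ q ≠ 0 ∨ r ≠ 0)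
    (hdet : (p • a + q • b + r • c).det = 0) :
    ∃ w v : Fin 3 → ℚ, w ≠ 0 ∧ v ≠ 0 ∧ w ⬝ᵥ (a *ᵥ v) = 0 ∧ w ⬝ᵥ (b *ᵥ v) = 0 ∧
      w ⬝ᵥ (c *ᵥ v) = 0 := by
  obtain ⟨v, hv, hv0⟩ := Matrix.exists_mulVec_eq_zero_iff.2 hdet
  obtain ⟨N, hN⟩ : ∃ N : Matrix (Fin 3) (Fin 3) ℚ, N = Matrix.of ![a *ᵥ v, b *ᵥ v, c *ᵥ v] := ⟨_, rfl⟩
  have hNdet : N.det = 0 := by
    rw [← Matrix.exists_vecMul_eq_zero_iff]
    refine ⟨![p, q, r], ?_, ?_⟩
    · intro h
      have e0 := congrFun h 0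
      have e1 := congrFun h 1
      have e2 := congrFun h 2
      simp at e0 e1 e2
      rcases hne with h | h | h
      · exact h e0
      · exact h e1
      · exact h e2
    · rw [hN]
      ext j
      have h1 := congrFun hv0 j
      simp only [Matrix.add_mulVec, Matrix.smul_mulVec, Pi.add_apply, Pi.smul_apply, smul_eq_mul,
        Pi.zero_apply] at h1
      simp only [Matrix.vecMul, dotProduct, Fin.sum_univ_three, Matrix.of_apply,
        Matrix.cons_val_zero, Matrix.cons_val_one, Matrix.cons_val, Pi.zero_apply]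
      exact h1
  obtain ⟨w, hw, hw0⟩ := Matrix.exists_mulVec_eq_zero_iff.2 hNdet
  refine ⟨w, v, hw, hv, ?_, ?_, ?_⟩
  · have := congrFun hw0 0
    rw [hN] at this
    rw [dotProduct_comm]
    exact this
  · have := congrFun hw0 1
    rw [hN] at this
    rw [dotProduct_comm]
    exact this
  · have := congrFun hw0 2
    rw [hN] at this
    rw [dotProduct_comm]
    exact this

section

variable {Ω : Type*} [Field Ω] [CharZero Ω] {σ τ : Ω →+* Ω} {x y z : Ω}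

theorem Kl.sq_rel' (h : Kl σ τ x y z) (t1 t2 t3 : ℚ)
    (he : (t1 : Ω) * x ^ 2 + t2 * y ^ 2 + t3 * z ^ 2 = 0) : t2 = t1 ∧ t3 = t1 := by
  have e1 := congrArg τ he
  simp only [map_add, map_mul, map_pow, map_ratCast, map_zero, h.tx, h.ty, h.tz] at e1
  have := h.sq_rel (t1 - t3) (t2 - t1) (t3 - t2) (by ring) (by
    push_cast
    linear_combination he - e1)
  exact ⟨by linarith [this.2.1], by linarith [this.1]⟩

/-- the cubic relation -/
theorem Kl.cubic (h : Kl σ τ x y z) (e300 e030 e003 e210 e201 e120 e021 e102 e012 e111 : ℚ)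
    (he : x ^ 3 * (e300 : Ω) + y ^ 3 * e030 + z ^ 3 * e003 + x ^ 2 * y * e210 + x ^ 2 * z * e201 +
      y ^ 2 * x * e120 + y ^ 2 * z * e021 + z ^ 2 * x * e102 + z ^ 2 * y * e012 +
      x * y * z * e111 = 0) :
    e111 = 0 ∧ (e120 = e300 ∧ e102 = e300) ∧ (e210 = e030 ∧ e012 = e030) ∧
      (e201 = e003 ∧ e021 = e003) := by
  have h2 : (2 : Ω) ≠ 0 := two_ne_zero
  have hx := h.nx
  have hy := h.ny
  have hz := h.nz
  have s1 := congrArg σ he
  simp only [map_add, map_mul, map_pow, map_ratCast, map_zero, h.sx, h.sy, h.sz] at s1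
  have p1 : (e300 : Ω) * x ^ 2 + e120 * y ^ 2 + e102 * z ^ 2 + e111 * (y * z) = 0 := by
    apply mul_left_cancel₀ (mul_ne_zero h2 hx)
    linear_combination he + s1
  have p2 : y * ((e210 : Ω) * x ^ 2 + e030 * y ^ 2 + e012 * z ^ 2) +
      z * ((e201 : Ω) * x ^ 2 + e021 * y ^ 2 + e003 * z ^ 2) = 0 := by
    apply mul_left_cancel₀ h2
    linear_combination he - s1
  -- first part
  have e1 := congrArg τ p1
  simp only [map_add, map_mul, map_pow, map_ratCast, map_zero, h.tx, h.ty, h.tz] at e1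
  have e2 := congrArg σ e1
  simp only [map_add, map_mul, map_pow, map_ratCast, map_zero, h.sx, h.sy, h.sz] at e2
  have q1 : (e111 : Ω) * (z * x) = 0 := by
    apply mul_left_cancel₀ h2
    linear_combination e1 - e2
  have h111 : e111 = 0 := by
    rcases mul_eq_zero.1 q1 with h1 | h1
    · exact_mod_cast h1
    · exact absurd h1 (mul_ne_zero hz hx)
  have q2 : (e300 : Ω) * x ^ 2 + e120 * y ^ 2 + e102 * z ^ 2 = 0 := by
    rw [h111] at p1
    push_cast at p1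
    linear_combination p1
  have r1 := h.sq_rel' _ _ _ q2
  -- second part
  have e3 := congrArg τ p2
  simp only [map_add, map_mul, map_pow, map_ratCast, map_zero, h.tx, h.ty, h.tz] at e3
  have e4 := congrArg σ e3
  simp only [map_add, map_mul, map_pow, map_ratCast, map_zero, h.sx, h.sy, h.sz] at e4
  have q3 : (e012 : Ω) * x ^ 2 + e210 * y ^ 2 + e030 * z ^ 2 = 0 := by
    apply mul_left_cancel₀ (mul_ne_zero h2 hz)
    linear_combination e3 - e4
  have q4 : (e003 : Ω) * x ^ 2 + e201 * y ^ 2 + e021 * z ^ 2 = 0 := by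
    apply mul_left_cancel₀ (mul_ne_zero h2 hx)
    linear_combination e3 + e4
  have r2 := h.sq_rel' _ _ _ q3
  have r3 := h.sq_rel' _ _ _ q4
  exact ⟨h111, ⟨r1.1, r1.2⟩, ⟨by rw [r2.1, r2.2], by rw [r2.2]⟩, ⟨r3.1, r3.2⟩⟩

/-- **Singular `3 × 3` matrices.** -/
theorem three (h : Kl σ τ x y z) : QQ 3 (Submodule.span ℚ {x, y, z}) := by
  intro M hM hdet
  have hdec : ∀ m ∈ Submodule.span ℚ {x, y, z}, ∃ a b c : ℚ,
      m = (a : Ω) * x + (b : Ω) * y + (c : Ω) * z := by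
    intro m hm
    obtain ⟨a, b, c, rfl⟩ := Submodule.mem_span_triple.1 hm
    refine ⟨a, b, c, ?_⟩
    simp only [Algebra.smul_def, eq_ratCast]
  choose! a b c hMe using hdec
  obtain ⟨ma, hma⟩ : ∃ m : Matrix (Fin 3) (Fin 3) ℚ, m = Matrix.of fun i j => a (M i j) := ⟨_, rfl⟩
  obtain ⟨mb, hmb⟩ : ∃ m : Matrix (Fin 3) (Fin 3) ℚ, m = Matrix.of fun i j => b (M i j) := ⟨_, rfl⟩
  obtain ⟨mc, hmc⟩ : ∃ m : Matrix (Fin 3) (Fin 3) ℚ, m = Matrix.of fun i j => c (M i j) := ⟨_, rfl⟩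
  have hMij : ∀ i j, M i j = (ma i j : Ω) * x + (mb i j : Ω) * y + (mc i j : Ω) * z := by
    intro i j
    rw [hma, hmb, hmc]
    exact hMe _ (hM i j)
  have hMm : M = x • ma.map (algebraMap ℚ Ω) + y • mb.map (algebraMap ℚ Ω) +
      z • mc.map (algebraMap ℚ Ω) := by
    ext i j
    rw [hMij]
    simp only [Matrix.add_apply, Matrix.smul_apply, Matrix.map_apply, smul_eq_mul, eq_ratCast]
    ring
  rw [hMm, det_comb] at hdet
  simp only [det_map', tt_map, uu_map] at hdet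
  obtain ⟨k0, ⟨k1, k2⟩, ⟨k3, k4⟩, ⟨k5, k6⟩⟩ := h.cubic _ _ _ _ _ _ _ _ _ _ hdet
  -- a rational zero of the cubic form
  obtain ⟨p, q, r, hne, hl⟩ : ∃ p q r : ℚ, (p ≠ 0 ∨ q ≠ 0 ∨ r ≠ 0) ∧
      p * ma.det + q * mb.det + r * mc.det = 0 := by
    by_cases h0 : ma.det = 0
    · exact ⟨1, 0, 0, Or.inl one_ne_zero, by rw [h0]; ring⟩
    · exact ⟨mb.det, -ma.det, 0, Or.inr (Or.inl (neg_ne_zero.2 h0)), by ring⟩
  have hsing : (p • ma + q • mb + r • mc).det = 0 := by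
    rw [det_comb, k0, k1, k2, k3, k4, k5, k6]
    linear_combination (p ^ 2 + q ^ 2 + r ^ 2) * hl
  obtain ⟨w, v, hw, hv, g1, g2, g3⟩ := pair3 ma mb mc p q r hne hsing
  refine ⟨w, v, hw, hv, ?_⟩
  have hsum : ∑ i, ∑ j, (w i : Ω) * M i j * (v j : Ω) =
      ((w ⬝ᵥ (ma *ᵥ v) : ℚ) : Ω) * x + ((w ⬝ᵥ (mb *ᵥ v) : ℚ) : Ω) * y +
        ((w ⬝ᵥ (mc *ᵥ v) : ℚ) : Ω) * z := by
    simp only [dotProduct, Matrix.mulVec, Fin.sum_univ_three, hMij]
    push_cast
    ring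
  rw [hsum, g1, g2, g3]
  push_cast
  ring

end

end Pool.Agent.P8H33.QC
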