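import Pool.Agent.P8H33.QC.Three
import Pool.Agent.P8H33.QC.Stm2

set_option autoImplicit false

/-!
# Project QC: spaces with a cyclic group of prime order and sign changes
-/

open Matrix Polynomial

namespace Pool.Agent.P8H33.QC

/-- `σ i` changes the sign of `x i`, and `τ` permutes the `x i` cyclically -/
structure Wr {Ω : Type*} [Field Ω] (ℓ : ℕ) (τ : Ω →+* Ω) (σ : ZMod ℓ → Ω →+* Ω) (x : ZMod ℓ → Ω) :
    Prop where
  tx : ∀ i, τ (x i) = x (i + 1)
  ss : ∀ i, σ i (x i) = -x i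
  so : ∀ i j, j ≠ i → σ i (x j) = x j
  nx : ∀ i, x i ≠ 0

theorem sum_zmod {M : Type*} [AddCommMonoid M] (ℓ : ℕ) [NeZero ℓ] (f : ZMod ℓ → M) :
    ∑ i : ZMod ℓ, f i = ∑ i ∈ Finset.range ℓ, f (i : ZMod ℓ) := by
  refine Finset.sum_nbij' (fun i => i.val) (fun i => (i : ZMod ℓ)) ?_ ?_ ?_ ?_ ?_
  · intro i _
    exact Finset.mem_range.2 (ZMod.val_lt i)
  · intro i _
    exact Finset.mem_univ _
  · intro i _
    exact ZMod.natCast_zmod_val i
  · intro i hi
    exact ZMod.val_natCast_of_lt (Finset.mem_range.1 hi)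
  · intro i _
    rw [ZMod.natCast_zmod_val]

section

variable {Ω : Type*} [Field Ω] [CharZero Ω] {ℓ : ℕ} [hℓ : Fact ℓ.Prime] {τ : Ω →+* Ω}
  {σ : ZMod ℓ → Ω →+* Ω} {x : ZMod ℓ → Ω}

omit [CharZero Ω] in
theorem Wr.iter (h : Wr ℓ τ σ x) (n : ℕ) (i : ZMod ℓ) : (τ^[n]) (x i) = x (i + n) := by
  induction n with
  | zero => simp
  | succ n ih =>
    rw [Function.iterate_succ_apply', ih, h.tx]
    congr 1
    push_cast
    ring

/-- the relations of the squares are trivial -/
theorem Wr.circ0 (h : Wr ℓ τ σ x) (b : ZMod ℓ → ℚ) (hb : ∑ i, b i = 0)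
    (he : ∑ i, (b i : Ω) * x i ^ 2 = 0) : ∀ i, b i = 0 := by
  classical
  have hℓ0 : 0 < ℓ := hℓ.out.pos
  let T : Ω →ₗ[ℚ] Ω := τ.toRatAlgHom.toLinearMap
  have hT : ∀ y, T y = τ y := fun y => rfl
  have hTn : ∀ (n : ℕ) (y : Ω), (T ^ n) y = (τ^[n]) y := by
    intro n
    induction n with
    | zero => intro y; simp
    | succ n ih =>
      intro y
      rw [pow_succ, Module.End.mul_apply, ih, Function.iterate_succ_apply, hT]
  have hsq : ∀ n : ℕ, (τ^[n]) (x 0 ^ 2) = x n ^ 2 := by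
    intro n
    have : (τ^[n]) (x 0 ^ 2) = ((τ^[n]) (x 0)) ^ 2 := by
      rw [← RingHom.coe_pow, map_pow]
    rw [this, h.iter, zero_add]
  let B : ℚ[X] := ∑ i ∈ Finset.range ℓ, C (b (i : ZMod ℓ)) * X ^ i
  have hBy : (aeval T B) (x 0 ^ 2) = 0 := by
    simp only [B, map_sum, map_mul, aeval_C, map_pow, aeval_X, LinearMap.sum_apply,
      Module.End.mul_apply, Module.algebraMap_end_apply, hTn, hsq]
    rw [← he, sum_zmod ℓ (fun i => (b i : Ω) * x i ^ 2)]
    refine Finset.sum_congr rfl fun i _ => ?_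
    rw [Algebra.smul_def, eq_ratCast]
  have hB1 : B.eval 1 = 0 := by
    simp only [B, eval_finsetSum, eval_mul, eval_C, eval_pow, eval_X, one_pow, mul_one]
    rw [← sum_zmod ℓ (fun i => b i)]
    exact hb
  have hcoef : ∀ i < ℓ, B.coeff i = b (i : ZMod ℓ) := by
    intro i hi
    simp only [B, finsetSum_coeff, coeff_C_mul, coeff_X_pow]
    rw [Finset.sum_eq_single i]
    · simp
    · intro j _ hj
      rw [if_neg (Ne.symm hj), mul_zero]
    · intro h'
      exact absurd (Finset.mem_range.2 hi) h'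
  have hdeg : B.natDegree < ℓ := by
    refine lt_of_le_of_lt (natDegree_sum_le_of_forall_le (n := ℓ - 1) _ _ ?_) (by omega)
    intro i hi
    refine (natDegree_C_mul_X_pow_le _ _).trans ?_
    have := Finset.mem_range.1 hi
    omega
  have hxx : x 0 ^ 2 ≠ x 1 ^ 2 := by
    intro he'
    have h01 : (1 : ZMod ℓ) ≠ 0 := by
      have : Fact (1 < ℓ) := ⟨hℓ.out.one_lt⟩
      exact one_ne_zero
    have hs0 := h.ss 0
    have hs1 := h.so 0 1 h01
    have hn := h.nx 1
    rcases sq_eq_sq_iff_eq_or_eq_neg.1 he' with h1 | h1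
    · rw [h1, hs1] at hs0
      apply hn
      have : (2 : Ω) * x 1 = 0 := by linear_combination hs0
      exact (mul_eq_zero.1 this).resolve_left two_ne_zero
    · rw [h1, map_neg, hs1, neg_neg] at hs0
      apply hn
      have : (2 : Ω) * x 1 = 0 := by linear_combination -hs0
      exact (mul_eq_zero.1 this).resolve_left two_ne_zero
  have hcyc : cyclotomic ℓ ℚ * (X - 1) = X ^ ℓ - 1 := cyclotomic_prime_mul_X_sub_one ℚ ℓ
  by_cases hdvd : cyclotomic ℓ ℚ ∣ B
  · obtain ⟨Q, hQ⟩ := hdvd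
    have h1 : Q.eval 1 = 0 := by
      have h2 := hB1
      rw [hQ, eval_mul, eval_one_cyclotomic_prime] at h2
      exact (mul_eq_zero.1 h2).resolve_left (by exact_mod_cast hℓ.out.ne_zero)
    obtain ⟨Q', hQ'⟩ := dvd_iff_isRoot.2 h1
    have hB0 : B = 0 := by
      by_contra hne
      have h3 : B = (X ^ ℓ - 1) * Q' := by
        rw [hQ, hQ', ← hcyc]
        simp only [map_one]
        ring
      have hQ'0 : Q' ≠ 0 := by
        rintro rfl
        exact hne (by rw [h3, mul_zero])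
      have h6 : (X ^ ℓ - 1 : ℚ[X]) ≠ 0 := by
        have := X_pow_sub_C_ne_zero hℓ0 (1 : ℚ)
        rwa [map_one] at this
      have h7 : (X ^ ℓ - 1 : ℚ[X]).natDegree = ℓ := by
        have := natDegree_X_pow_sub_C (n := ℓ) (r := (1 : ℚ))
        rwa [map_one] at this
      have h4 : B.natDegree = ℓ + Q'.natDegree := by
        rw [h3, natDegree_mul h6 hQ'0, h7]
      omega
    intro i
    have h5 := hcoef i.val (ZMod.val_lt i)
    rw [hB0, coeff_zero, ZMod.natCast_zmod_val] at h5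
    exact h5.symm
  · exfalso
    obtain ⟨U, V, hUV⟩ := (cyclotomic.irreducible_rat hℓ0).coprime_iff_not_dvd.2 hdvd
    have h1 : (X - 1 : ℚ[X]) = U * (X ^ ℓ - 1) + V * (X - 1) * B := by
      rw [← hcyc]
      linear_combination (1 - X : ℚ[X]) * hUV
    have h2 := congrArg (fun P => (aeval T P) (x 0 ^ 2)) h1
    simp only [map_add, map_mul, map_sub, map_pow, map_one, aeval_X, LinearMap.add_apply,
      LinearMap.sub_apply, Module.End.mul_apply, Module.End.one_apply, hTn, hBy, map_zero,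
      add_zero] at h2
    rw [hsq ℓ] at h2
    simp only [CharP.cast_eq_zero, sub_self] at h2
    rw [hT, map_pow, h.tx, zero_add] at h2
    exact hxx (sub_eq_zero.1 h2).symm

/-- the version with a fixed term -/
theorem Wr.circ (h : Wr ℓ τ σ x) (a : ZMod ℓ → ℚ) {F : Ω} (hF : τ F = F)
    (he : F + ∑ i, (a i : Ω) * x i ^ 2 = 0) : ∀ i, a i = a 0 := by
  have e1 := congrArg τ he
  rw [map_add, map_sum, hF, map_zero] at e1
  have e2 : ∑ i, τ ((a i : Ω) * x i ^ 2) = ∑ i, (a (i - 1) : Ω) * x i ^ 2 := by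
    rw [← Equiv.sum_comp (Equiv.addRight (1 : ZMod ℓ)) (fun i => (a (i - 1) : Ω) * x i ^ 2)]
    refine Finset.sum_congr rfl fun i _ => ?_
    simp only [map_mul, map_pow, map_ratCast, h.tx, Equiv.coe_addRight, add_sub_cancel_right]
  rw [e2] at e1
  have e3 : ∑ i, (((a i - a (i - 1) : ℚ)) : Ω) * x i ^ 2 = 0 := by
    have : ∑ i, (((a i - a (i - 1) : ℚ)) : Ω) * x i ^ 2 =
        ∑ i, (a i : Ω) * x i ^ 2 - ∑ i, (a (i - 1) : Ω) * x i ^ 2 := by
      rw [← Finset.sum_sub_distrib]
      refine Finset.sum_congr rfl fun i _ => ?_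
      push_cast
      ring
    rw [this]
    linear_combination he - e1
  have e4 : ∑ i, (a i - a (i - 1)) = 0 := by
    rw [Finset.sum_sub_distrib, sub_eq_zero]
    exact (Equiv.sum_comp (Equiv.subRight (1 : ZMod ℓ)) a).symm
  have e5 := h.circ0 _ e4 e3
  have e6 : ∀ n : ℕ, a (n : ZMod ℓ) = a 0 := by
    intro n
    induction n with
    | zero => simp
    | succ n ih =>
      have := e5 ((n + 1 : ℕ) : ZMod ℓ)
      push_cast at this ⊢
      rw [add_sub_cancel_right] at this
      linarith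
  intro i
  have := e6 i.val
  rwa [ZMod.natCast_zmod_val] at this

theorem Bf_add {R : Type*} [CommRing R] (a b c : Matrix (Fin 2) (Fin 2) R) :
    Bf (a + b) c = Bf a c + Bf b c := by
  simp only [Bf, Matrix.add_apply]
  ring

theorem Bf_smul {R : Type*} [CommRing R] (x : R) (a c : Matrix (Fin 2) (Fin 2) R) :
    Bf (x • a) c = x * Bf a c := by
  simp only [Bf, Matrix.smul_apply, smul_eq_mul]
  ring

theorem Bf_comm {R : Type*} [CommRing R] (a c : Matrix (Fin 2) (Fin 2) R) : Bf a c = Bf c a := by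
  simp only [Bf]
  ring

theorem Bf_self {R : Type*} [CommRing R] (a : Matrix (Fin 2) (Fin 2) R) : Bf a a = 2 * a.det := by
  simp only [Bf, Matrix.det_fin_two]
  ring

theorem det_add2 {R : Type*} [CommRing R] (a b : Matrix (Fin 2) (Fin 2) R) :
    (a + b).det = a.det + b.det + Bf a b := by
  simp only [Bf, Matrix.det_fin_two, Matrix.add_apply]
  ring

theorem det_smul2 {R : Type*} [CommRing R] (x : R) (a : Matrix (Fin 2) (Fin 2) R) :
    (x • a).det = x ^ 2 * a.det := by
  simp only [Matrix.det_fin_two, Matrix.smul_apply, smul_eq_mul]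
  ring

theorem Bf_map' {Ω : Type*} [Field Ω] [CharZero Ω] (a b : Matrix (Fin 2) (Fin 2) ℚ) :
    Bf (a.map (algebraMap ℚ Ω)) (b.map (algebraMap ℚ Ω)) = ((Bf a b : ℚ) : Ω) := by
  simp only [Bf, Matrix.map_apply, eq_ratCast]
  push_cast
  ring

theorem det_map2 {Ω : Type*} [Field Ω] [CharZero Ω] (a : Matrix (Fin 2) (Fin 2) ℚ) :
    (a.map (algebraMap ℚ Ω)).det = ((a.det : ℚ) : Ω) := by
  simp only [Matrix.det_fin_two, Matrix.map_apply, eq_ratCast]
  push_cast
  ring

theorem Bf_sum {Ω : Type*} [Field Ω] [CharZero Ω] {ι : Type*} (s : Finset ι) (x : ι → Ω)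
    (m : ι → Matrix (Fin 2) (Fin 2) ℚ) (c : Matrix (Fin 2) (Fin 2) ℚ) :
    Bf (∑ i ∈ s, x i • (m i).map (algebraMap ℚ Ω)) (c.map (algebraMap ℚ Ω)) =
      ∑ i ∈ s, x i * ((Bf (m i) c : ℚ) : Ω) := by
  classical
  induction s using Finset.induction_on with
  | empty => simp [Bf]
  | insert i s hi ih =>
    rw [Finset.sum_insert hi, Finset.sum_insert hi, Bf_add, Bf_smul, ih, Bf_map']

/-- **Four exponentials** for `U + ⟨x i⟩`. -/
theorem four_wreath (h2 : ℓ ≠ 2) (h : Wr ℓ τ σ x) (U : Submodule ℚ Ω)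
    (hUt : ∀ w ∈ U, τ w = w) (hUs : ∀ i, ∀ w ∈ U, σ i w = w) (hU : QQ 2 U) :
    QQ 2 (U ⊔ Submodule.span ℚ (Set.range x)) := by
  classical
  intro M hM hdet
  have hdec : ∀ m ∈ U ⊔ Submodule.span ℚ (Set.range x), ∃ w ∈ U, ∃ c : ZMod ℓ → ℚ,
      m = w + ∑ i, (c i : Ω) * x i := by
    intro m hm
    obtain ⟨w, hw, s, hs, rfl⟩ := Submodule.mem_sup.1 hm
    obtain ⟨c, rfl⟩ := (Submodule.mem_span_range_iff_exists_fun ℚ).1 hs
    refine ⟨w, hw, c, ?_⟩
    simp only [Algebra.smul_def, eq_ratCast]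
  choose! W hW c hMe using hdec
  obtain ⟨w, hw⟩ : ∃ w : Matrix (Fin 2) (Fin 2) Ω, w = Matrix.of fun i j => W (M i j) := ⟨_, rfl⟩
  obtain ⟨m, hm⟩ : ∃ m : ZMod ℓ → Matrix (Fin 2) (Fin 2) ℚ,
      m = fun k => Matrix.of fun i j => c (M i j) k := ⟨_, rfl⟩
  have hwU : ∀ i j, w i j ∈ U := by
    intro i j
    rw [hw]
    exact hW _ (hM i j)
  obtain ⟨m', hm'⟩ : ∃ m' : ZMod ℓ → Matrix (Fin 2) (Fin 2) Ω,
      m' = fun k => (m k).map (algebraMap ℚ Ω) := ⟨_, rfl⟩
  have hMm : M = w + ∑ k, x k • m' k := by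
    ext i j
    rw [hMe _ (hM i j), Matrix.add_apply, Matrix.sum_apply, hw]
    congr 1
    refine Finset.sum_congr rfl fun k _ => ?_
    rw [hm', hm]
    simp only [Matrix.smul_apply, Matrix.map_apply, Matrix.of_apply, smul_eq_mul, eq_ratCast]
    ring
  -- the conjugates of `M`
  have hconj : ∀ i, M.map (σ i) = M + (-2 * x i) • m' i := by
    intro i
    have hmm : ∀ k, (m' k).map (σ i) = m' k := by
      intro k
      ext a b
      rw [hm']
      simp only [Matrix.map_apply, eq_ratCast, map_ratCast]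
    have hww : w.map (σ i) = w := by
      ext a b
      rw [Matrix.map_apply]
      exact hUs i _ (hwU a b)
    ext a b
    have e1 : M a b = w a b + ∑ k, x k * m' k a b := by
      conv_lhs => rw [hMm]
      simp only [Matrix.add_apply, Matrix.sum_apply, Matrix.smul_apply, smul_eq_mul]
    have e2 : ∀ k, σ i (m' k a b) = m' k a b := fun k => by
      have := congrFun (congrFun (hmm k) a) b
      simpa using this
    rw [Matrix.map_apply, Matrix.add_apply, Matrix.smul_apply, e1, map_add, map_sum,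
      hUs i _ (hwU a b), smul_eq_mul]
    have e3 : ∑ k, σ i (x k * m' k a b) = ∑ k, x k * m' k a b - 2 * x i * m' i a b := by
      rw [← Finset.add_sum_erase _ _ (Finset.mem_univ i),
        ← Finset.add_sum_erase (Finset.univ : Finset (ZMod ℓ)) (fun k => x k * m' k a b)
          (Finset.mem_univ i)]
      have e4 : ∑ k ∈ Finset.univ.erase i, σ i (x k * m' k a b) =
          ∑ k ∈ Finset.univ.erase i, x k * m' k a b := by
        refine Finset.sum_congr rfl fun k hk => ?_
        rw [map_mul, h.so i k (Finset.ne_of_mem_erase hk), e2]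
      rw [e4, map_mul, h.ss, e2]
      ring
    rw [e3]
    ring
  have hB2 : (2 : Ω) ≠ 0 := two_ne_zero
  have hE : ∀ i, Bf M (m' i) = 2 * x i * (m' i).det := by
    intro i
    have e1 : (M.map (σ i)).det = 0 := by
      have := RingHom.map_det (σ i) M
      rw [RingHom.mapMatrix_apply] at this
      rw [← this, hdet, map_zero]
    rw [hconj, det_add2, det_smul2, hdet, Bf_comm, Bf_smul, Bf_comm] at e1
    have e2 : (2 * x i) * (Bf M (m' i) - 2 * x i * (m' i).det) = 0 := by
      linear_combination -e1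
    rcases mul_eq_zero.1 e2 with h' | h'
    · exact absurd h' (mul_ne_zero hB2 (h.nx i))
    · exact sub_eq_zero.1 h'
  have hort : ∀ i j, j ≠ i → Bf (m j) (m i) = 0 := by
    intro i j hj
    have e1 := congrArg (σ j) (hE i)
    have e2 : σ j (Bf M (m' i)) = Bf (M.map (σ j)) (m' i) := by
      rw [hm']
      simp only [Bf, Matrix.map_apply, map_sub, map_add, map_mul, eq_ratCast, map_ratCast]
    have e3 : σ j (2 * x i * (m' i).det) = 2 * x i * (m' i).det := by
      rw [map_mul, map_mul, map_ofNat, h.so j i (Ne.symm hj), hm']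
      simp only [det_map2, map_ratCast]
    rw [e2, e3, hconj, Bf_add, Bf_smul, hE i] at e1
    have e4 : (-2 * x j) * Bf (m' j) (m' i) = 0 := by linear_combination e1
    rcases mul_eq_zero.1 e4 with h' | h'
    · exact absurd h' (mul_ne_zero (neg_ne_zero.2 hB2) (h.nx j))
    · rw [hm'] at h'
      simp only [Bf_map'] at h'
      exact_mod_cast h'
  have hsumB : ∀ i, Bf (∑ k, x k • m' k) (m' i) = 2 * x i * (m' i).det := by
    intro i
    rw [hm', Bf_sum, Finset.sum_eq_single i]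
    · rw [Bf_self, det_map2]
      push_cast
      ring
    · intro k _ hk
      rw [hort i k hk]
      simp
    · intro h'
      exact absurd (Finset.mem_univ i) h'
  have hwm : ∀ i, Bf w (m' i) = 0 := by
    intro i
    have e1 := hE i
    rw [hMm, Bf_add, hsumB i] at e1
    linear_combination e1
  have hdetsum : ∀ s : Finset (ZMod ℓ), (w + ∑ k ∈ s, x k • m' k).det =
      w.det + ∑ k ∈ s, ((m k).det : Ω) * x k ^ 2 := by
    intro s
    induction s using Finset.induction_on with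
    | empty => simp
    | insert i s hi ih =>
      rw [Finset.sum_insert hi, Finset.sum_insert hi, add_left_comm, add_comm, det_add2, ih,
        det_smul2]
      have e1 : Bf (w + ∑ k ∈ s, x k • m' k) (x i • m' i) = 0 := by
        rw [Bf_comm, Bf_smul, Bf_comm, Bf_add, hwm i, hm', Bf_sum]
        rw [Finset.sum_eq_zero]
        · ring
        · intro k hk
          rw [hort i k (by rintro rfl; exact hi hk)]
          simp
      rw [e1, hm', det_map2]
      ring
  have hF : w.det + ∑ k, ((m k).det : Ω) * x k ^ 2 = 0 := by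
    rw [← hdetsum, ← hMm, hdet]
  have hFt : τ w.det = w.det := by
    simp only [Matrix.det_fin_two, map_sub, map_mul]
    rw [hUt _ (hwU 0 0), hUt _ (hwU 0 1), hUt _ (hwU 1 0), hUt _ (hwU 1 1)]
  have hall : ∀ i, (m i).det = (m 0).det := h.circ (fun k => (m k).det) hFt hF
  have hprime : 3 ≤ ℓ := by
    have h1 := hℓ.out.two_le
    omega
  have hne : ∀ a b : ℕ, a < 3 → b < 3 → a ≠ b → (a : ZMod ℓ) ≠ (b : ZMod ℓ) := by
    intro a b ha hb hab he
    have := congrArg ZMod.val he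
    rw [ZMod.val_natCast_of_lt (by omega), ZMod.val_natCast_of_lt (by omega)] at this
    exact hab this
  have hα : (m ((0 : ℕ) : ZMod ℓ)).det = 0 := by
    refine alpha_zero (m ((0 : ℕ) : ZMod ℓ)) (m ((1 : ℕ) : ZMod ℓ)) (m ((2 : ℕ) : ZMod ℓ)) ?_ ?_ ?_ ?_ ?_
    · exact hort _ _ (hne 0 1 (by norm_num) (by norm_num) (by norm_num))
    · exact hort _ _ (hne 1 2 (by norm_num) (by norm_num) (by norm_num))
    · exact hort _ _ (hne 2 0 (by norm_num) (by norm_num) (by norm_num))
    · rw [hall, hall ((0 : ℕ) : ZMod ℓ)]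
    · rw [hall, hall ((0 : ℕ) : ZMod ℓ)]
  have hzero : ∀ k, (m k).det = 0 := by
    intro k
    rw [hall k, ← hall ((0 : ℕ) : ZMod ℓ), hα]
  by_cases hz : ∀ k, m k = 0
  · have hMw : M = w := by
      rw [hMm, hm']
      simp only [hz]
      simp
    rw [hMw] at hdet ⊢
    exact hU w hwU hdet
  · push Not at hz
    obtain ⟨k, hk⟩ := hz
    obtain ⟨u, v, hu, hv, huv⟩ := pair_of (Ω := Ω) (m k) hk (hzero k)
    refine ⟨u, v, hu, hv, ?_⟩
    obtain ⟨c, hc, hcM⟩ := huv M
    have e1 : Bf ((m k).map (algebraMap ℚ Ω)) M = 0 := by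
      rw [Bf_comm]
      have := hE k
      rw [hm', det_map2, hzero k] at this
      rw [this]
      simp
    rw [e1] at hcM
    exact (mul_eq_zero.1 hcM).resolve_left hc

end

end Pool.Agent.P8H33.QC
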