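import Pool.Agent.P8H33.QC.Wre

set_option autoImplicit false

/-!
# Project QC: singular `3 × 3` matrices, wreath products
-/

open Matrix Polynomial

namespace Pool.Agent.P8H33.QC

/-- the trilinear form as a linear map in the first argument -/
def uuL {R : Type*} [CommRing R] (b c : Matrix (Fin 3) (Fin 3) R) :
    Matrix (Fin 3) (Fin 3) R →ₗ[R] R where
  toFun a := uu a b c
  map_add' a a' := by
    simp only [uu, rr, Matrix.add_apply]
    ring
  map_smul' r a := by
    simp only [uu, rr, Matrix.smul_apply, smul_eq_mul, RingHom.id_apply]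
    ring

theorem uuL_apply {R : Type*} [CommRing R] (a b c : Matrix (Fin 3) (Fin 3) R) :
    uuL b c a = uu a b c := rfl

theorem uu_swap {R : Type*} [CommRing R] (a b c : Matrix (Fin 3) (Fin 3) R) :
    uu a b c = uu b a c := by
  simp only [uu, rr]
  ring

theorem uu_swap' {R : Type*} [CommRing R] (a b c : Matrix (Fin 3) (Fin 3) R) :
    uu a b c = uu a c b := by
  simp only [uu, rr]
  ring

theorem uu_self {R : Type*} [CommRing R] (a : Matrix (Fin 3) (Fin 3) R) :
    uu a a a = 6 * a.det := by
  simp only [uu, rr, Matrix.det_fin_three]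
  ring

theorem uu_sum {R : Type*} [CommRing R] {ι : Type*} (s : Finset ι) (x : ι → R)
    (m : ι → Matrix (Fin 3) (Fin 3) R) (b c : Matrix (Fin 3) (Fin 3) R) :
    uu (∑ i ∈ s, x i • m i) b c = ∑ i ∈ s, x i * uu (m i) b c := by
  have h : uuL b c (∑ i ∈ s, x i • m i) = ∑ i ∈ s, x i * uuL b c (m i) := by
    rw [map_sum]
    refine Finset.sum_congr rfl fun i _ => ?_
    rw [map_smul, smul_eq_mul]
  exact h

theorem uu_sub {R : Type*} [CommRing R] (a b : Matrix (Fin 3) (Fin 3) R) (x : R)
    (c d : Matrix (Fin 3) (Fin 3) R) :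
    uu (a + x • b) c d = uu a c d + x * uu b c d := by
  have h : uuL c d (a + x • b) = uuL c d a + x * uuL c d b := by
    rw [map_add, map_smul, smul_eq_mul]
  exact h

/-- the determinant of a combination -/
theorem det_sum6 {R : Type*} [CommRing R] {ι : Type*} (s : Finset ι) (x : ι → R)
    (m : ι → Matrix (Fin 3) (Fin 3) R) :
    6 * (∑ i ∈ s, x i • m i).det =
      ∑ i ∈ s, x i * ∑ j ∈ s, x j * ∑ k ∈ s, x k * uu (m k) (m j) (m i) := by
  rw [← uu_self, uu_sum]
  refine Finset.sum_congr rfl fun i _ => ?_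
  rw [uu_swap, uu_sum]
  congr 1
  refine Finset.sum_congr rfl fun j _ => ?_
  rw [uu_swap', uu_swap, uu_sum]

theorem zmod3_cases : ∀ i : ZMod 3, i = 0 ∨ i = 1 ∨ i = 2 := by decide

theorem z02 : (0 : ZMod 3) ≠ 2 := by decide

theorem z01 : (0 : ZMod 3) ≠ 1 := by decide

theorem z12 : (1 : ZMod 3) ≠ 2 := by decide

section

variable {Ω : Type*} [Field Ω] [CharZero Ω] {ℓ : ℕ} [hℓ : Fact ℓ.Prime] {τ : Ω →+* Ω}
  {σ : ZMod ℓ → Ω →+* Ω} {x : ZMod ℓ → Ω}

/-- **Singular `3 × 3` matrices** with entries in `⟨x i⟩`, `ℓ ≥ 5`. -/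
theorem three_wreath5 (hD3 : S_D3) (h5 : 5 ≤ ℓ) (h : Wr ℓ τ σ x) :
    QQ 3 (Submodule.span ℚ (Set.range x)) := by
  classical
  intro M hM hdet
  have hdec : ∀ m ∈ Submodule.span ℚ (Set.range x), ∃ c : ZMod ℓ → ℚ,
      m = ∑ i, (c i : Ω) * x i := by
    intro m hm
    obtain ⟨c, rfl⟩ := (Submodule.mem_span_range_iff_exists_fun ℚ).1 hm
    refine ⟨c, ?_⟩
    simp only [Algebra.smul_def, eq_ratCast]
  choose! c hMe using hdec
  obtain ⟨m, hm⟩ : ∃ m : ZMod ℓ → Matrix (Fin 3) (Fin 3) ℚ,
      m = fun k => Matrix.of fun i j => c (M i j) k := ⟨_, rfl⟩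
  obtain ⟨m', hm'⟩ : ∃ m' : ZMod ℓ → Matrix (Fin 3) (Fin 3) Ω,
      m' = fun k => (m k).map (algebraMap ℚ Ω) := ⟨_, rfl⟩
  have hMm : M = ∑ k, x k • m' k := by
    ext i j
    rw [hMe _ (hM i j), Matrix.sum_apply]
    refine Finset.sum_congr rfl fun k _ => ?_
    rw [hm', hm]
    simp only [Matrix.smul_apply, Matrix.map_apply, Matrix.of_apply, smul_eq_mul, eq_ratCast]
    ring
  have huu : ∀ i j k, uu (m' i) (m' j) (m' k) = ((uu (m i) (m j) (m k) : ℚ) : Ω) := by
    intro i j k
    rw [hm']
    exact uu_map _ _ _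
  have hconj : ∀ i, M.map (σ i) = M + (-2 * x i) • m' i := by
    intro i
    ext a b
    have e1 : M a b = ∑ k, x k * m' k a b := by
      conv_lhs => rw [hMm]
      simp only [Matrix.sum_apply, Matrix.smul_apply, smul_eq_mul]
    have e2 : ∀ k, σ i (m' k a b) = m' k a b := fun k => by
      rw [hm']
      simp only [Matrix.map_apply, eq_ratCast, map_ratCast]
    rw [Matrix.map_apply, Matrix.add_apply, Matrix.smul_apply, e1, map_sum, smul_eq_mul]
    have e3 : ∑ k, σ i (x k * m' k a b) = ∑ k, x k * m' k a b - 2 * x i * m' i a b := by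
      rw [← Finset.add_sum_erase _ _ (Finset.mem_univ i),
        ← Finset.add_sum_erase (Finset.univ : Finset (ZMod ℓ)) (fun k => x k * m' k a b)
          (Finset.mem_univ i)]
      have e4 : ∑ k ∈ Finset.univ.erase i, σ i (x k * m' k a b) =
          ∑ k ∈ Finset.univ.erase i, x k * m' k a b := by
        refine Finset.sum_congr rfl fun k hk => ?_
        rw [map_mul, h.so i k (Finset.ne_of_mem_erase hk), e2]
      rw [e4, map_mul, h.ss, e2]
      ring
    rw [e3]
    ring
  have hB2 : (2 : Ω) ≠ 0 := two_ne_zero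
  have hB12 : (12 : Ω) ≠ 0 := by norm_num
  have hσuu : ∀ i (a b c : Matrix (Fin 3) (Fin 3) Ω), σ i (uu a b c) =
      uu (a.map (σ i)) (b.map (σ i)) (c.map (σ i)) := by
    intro i a b c
    simp only [uu, rr, Matrix.map_apply, map_sub, map_add, map_mul]
  have hσm : ∀ i k, (m' k).map (σ i) = m' k := by
    intro i k
    ext a b
    rw [hm']
    simp only [Matrix.map_apply, eq_ratCast, map_ratCast]
  -- first
  have hA : ∀ i, 3 * uu M M (m' i) - 6 * x i * uu M (m' i) (m' i) +
      4 * x i ^ 2 * uu (m' i) (m' i) (m' i) = 0 := by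
    intro i
    have e1 : (M.map (σ i)).det = 0 := by
      have := RingHom.map_det (σ i) M
      rw [RingHom.mapMatrix_apply] at this
      rw [← this, hdet, map_zero]
    have e2 : uu M M M = 0 := by rw [uu_self, hdet, mul_zero]
    have e3 : uu (M + (-2 * x i) • m' i) (M + (-2 * x i) • m' i) (M + (-2 * x i) • m' i) = 0 := by
      rw [← hconj, uu_self, e1, mul_zero]
    have e4 : uu (M + (-2 * x i) • m' i) (M + (-2 * x i) • m' i) (M + (-2 * x i) • m' i) =
        uu M M M + 3 * (-2 * x i) * uu M M (m' i) + 3 * (-2 * x i) ^ 2 * uu M (m' i) (m' i) +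
          (-2 * x i) ^ 3 * uu (m' i) (m' i) (m' i) := by
      simp only [uu, rr, Matrix.add_apply, Matrix.smul_apply, smul_eq_mul]
      ring
    rw [e3, e2] at e4
    have e5 : (2 * x i) * (3 * uu M M (m' i) - 6 * x i * uu M (m' i) (m' i) +
        4 * x i ^ 2 * uu (m' i) (m' i) (m' i)) = 0 := by
      linear_combination e4
    exact (mul_eq_zero.1 e5).resolve_left (mul_ne_zero hB2 (h.nx i))
  -- second
  have hBB : ∀ i j, j ≠ i → uu M (m' j) (m' i) = x j * uu (m' j) (m' j) (m' i) +
      x i * uu (m' j) (m' i) (m' i) := by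
    intro i j hj
    have e1 := congrArg (σ j) (hA i)
    simp only [map_add, map_sub, map_mul, map_pow, map_ofNat, map_zero, hσuu, hσm,
      h.so j i (Ne.symm hj), hconj] at e1
    have e2 : uu (M + (-2 * x j) • m' j) (M + (-2 * x j) • m' j) (m' i) = uu M M (m' i) +
        2 * (-2 * x j) * uu M (m' j) (m' i) + (-2 * x j) ^ 2 * uu (m' j) (m' j) (m' i) := by
      simp only [uu, rr, Matrix.add_apply, Matrix.smul_apply, smul_eq_mul]
      ring
    rw [e2, uu_sub] at e1
    have e3 : (12 * x j) * (uu M (m' j) (m' i) - (x j * uu (m' j) (m' j) (m' i) +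
        x i * uu (m' j) (m' i) (m' i))) = 0 := by
      linear_combination hA i - e1
    rcases mul_eq_zero.1 e3 with h' | h'
    · exact absurd h' (mul_ne_zero hB12 (h.nx j))
    · exact sub_eq_zero.1 h'
  -- third
  have hC : ∀ i j k, j ≠ i → k ≠ i → k ≠ j → uu (m k) (m j) (m i) = 0 := by
    intro i j k hj hk hkj
    have e1 := congrArg (σ k) (hBB i j hj)
    simp only [map_add, map_mul, hσuu, hσm, h.so k i (Ne.symm hk), h.so k j (Ne.symm hkj),
      hconj] at e1
    rw [uu_sub, hBB i j hj] at e1
    have e2 : (2 * x k) * uu (m' k) (m' j) (m' i) = 0 := by linear_combination -e1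
    rcases mul_eq_zero.1 e2 with h' | h'
    · exact absurd h' (mul_ne_zero hB2 (h.nx k))
    · rw [huu] at h'
      exact_mod_cast h'
  -- the relation between the squares
  have hS : ∀ i, ∑ j, (((if j = i then uu (m i) (m i) (m i) else 3 * uu (m j) (m j) (m i)) : ℚ) : Ω) *
      x j ^ 2 = 0 := by
    intro i
    have e1 : uu M (m' i) (m' i) = x i * uu (m' i) (m' i) (m' i) +
        ∑ j ∈ Finset.univ.erase i, x j * uu (m' j) (m' i) (m' i) := by
      conv_lhs => rw [hMm]
      rw [uu_sum, ← Finset.add_sum_erase _ _ (Finset.mem_univ i)]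
    have e2 : uu M M (m' i) = x i * uu M (m' i) (m' i) +
        ∑ j ∈ Finset.univ.erase i, (x j ^ 2 * uu (m' j) (m' j) (m' i) +
          x i * (x j * uu (m' j) (m' i) (m' i))) := by
      have e3 : uu M M (m' i) = ∑ j, x j * uu M (m' j) (m' i) := by
        have : uu M M (m' i) = uu (∑ k, x k • m' k) M (m' i) := by rw [← hMm]
        rw [this, uu_sum]
        refine Finset.sum_congr rfl fun j _ => ?_
        rw [uu_swap]
      rw [e3, ← Finset.add_sum_erase _ _ (Finset.mem_univ i)]
      congr 1
      refine Finset.sum_congr rfl fun j hj => ?_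
      rw [hBB i j (Finset.ne_of_mem_erase hj)]
      ring
    rw [Finset.sum_add_distrib, ← Finset.mul_sum] at e2
    rw [← Finset.add_sum_erase _ _ (Finset.mem_univ i)]
    simp only [if_true]
    have e4 : ∑ j ∈ Finset.univ.erase i,
        (((if j = i then uu (m i) (m i) (m i) else 3 * uu (m j) (m j) (m i)) : ℚ) : Ω) * x j ^ 2 =
        3 * ∑ j ∈ Finset.univ.erase i, x j ^ 2 * uu (m' j) (m' j) (m' i) := by
      rw [Finset.mul_sum]
      refine Finset.sum_congr rfl fun j hj => ?_
      rw [if_neg (Finset.ne_of_mem_erase hj), huu]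
      push_cast
      ring
    rw [e4, ← huu]
    have e5 := hA i
    rw [e2, e1] at e5
    linear_combination e5
  have hval : ∀ i j, j ≠ i → 3 * uu (m j) (m j) (m i) = uu (m i) (m i) (m i) := by
    intro i j hj
    have e1 := h.circ (fun j => if j = i then uu (m i) (m i) (m i) else 3 * uu (m j) (m j) (m i))
      (F := 0) (map_zero τ) (by rw [zero_add]; exact hS i)
    have e2 := e1 j
    have e3 := e1 i
    simp only [if_neg hj] at e2
    simp only [if_true] at e3
    exact e2.trans e3.symm
  -- the determinant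
  have hdetX : ∀ X : ZMod ℓ → ℚ, (∑ i, X i • m i).det = (∑ i, (m i).det * X i) * ∑ i, X i ^ 2 := by
    intro X
    have e0 : ∀ i j k, uu (m k) (m j) (m i) = 2 * ((if k = j then (m i).det else 0) +
        (if k = i then (m j).det else 0) + (if j = i then (m k).det else 0)) := by
      intro i j k
      by_cases hji : j = i
      · subst hji
        by_cases hkj : k = j
        · subst hkj
          rw [uu_self]
          simp only [if_true]
          ring
        · rw [if_neg hkj, if_pos rfl]
          have e1 := hval k j (Ne.symm hkj)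
          rw [uu_self] at e1
          have e2 : uu (m k) (m j) (m j) = uu (m j) (m j) (m k) := by
            rw [uu_swap, uu_swap']
          rw [e2]
          linarith
      · rw [if_neg hji]
        by_cases hkj : k = j
        · subst hkj
          rw [if_pos rfl, if_neg hji]
          have e1 := hval i k hji
          rw [uu_self] at e1
          linarith
        · rw [if_neg hkj]
          by_cases hki : k = i
          · subst hki
            rw [if_pos rfl]
            have e1 := hval j k hkj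
            rw [uu_self] at e1
            rw [uu_swap']
            linarith
          · rw [if_neg hki, hC i j k hji hki hkj]
            ring
    have e1 := det_sum6 Finset.univ X m
    have e2 : ∀ i j, ∑ k, X k * uu (m k) (m j) (m i) = 2 * (X j * (m i).det + X i * (m j).det +
        (if j = i then ∑ k, X k * (m k).det else 0)) := by
      intro i j
      simp only [e0, mul_add, mul_ite, mul_zero, Finset.sum_add_distrib, Finset.sum_ite_eq,
        Finset.sum_ite_eq', Finset.mem_univ, if_true]
      by_cases hji : j = i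
      · simp only [if_pos hji, Finset.mul_sum]
        have : ∑ k, X k * (2 * (m k).det) = ∑ k, 2 * (X k * (m k).det) :=
          Finset.sum_congr rfl fun k _ => by ring
        rw [this]
        ring
      · simp only [if_neg hji, Finset.sum_const_zero]
        ring
    have e3 : ∀ i, ∑ j, X j * ∑ k, X k * uu (m k) (m j) (m i) = 2 * ((m i).det * ∑ j, X j ^ 2 +
        2 * (X i * ∑ k, X k * (m k).det)) := by
      intro i
      have e4 : ∑ j, X j * ∑ k, X k * uu (m k) (m j) (m i) =
          ∑ j, (2 * ((m i).det * X j ^ 2) + 2 * (X i * (X j * (m j).det)) +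
            (if j = i then 2 * (X j * ∑ k, X k * (m k).det) else 0)) := by
        refine Finset.sum_congr rfl fun j _ => ?_
        rw [e2]
        by_cases hji : j = i
        · simp only [if_pos hji]
          ring
        · simp only [if_neg hji]
          ring
      rw [e4, Finset.sum_add_distrib, Finset.sum_add_distrib, Finset.sum_ite_eq',
        if_pos (Finset.mem_univ i), ← Finset.mul_sum, ← Finset.mul_sum, ← Finset.mul_sum,
        ← Finset.mul_sum]
      ring
    have e5 : 6 * (∑ i, X i • m i).det = 6 * ((∑ i, (m i).det * X i) * ∑ i, X i ^ 2) := by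
      rw [e1]
      have e6 : ∑ i, X i * ∑ j, X j * ∑ k, X k * uu (m k) (m j) (m i) =
          ∑ i, (2 * (((m i).det * X i) * ∑ j, X j ^ 2) +
            4 * (X i ^ 2 * ∑ k, X k * (m k).det)) := by
        refine Finset.sum_congr rfl fun i _ => ?_
        rw [e3]
        ring
      have e7 : ∑ k, X k * (m k).det = ∑ k, (m k).det * X k :=
        Finset.sum_congr rfl fun k _ => by ring
      rw [e6, Finset.sum_add_distrib, ← Finset.mul_sum, ← Finset.mul_sum, ← Finset.sum_mul,
        ← Finset.sum_mul, e7]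
      ring
    linarith
  -- the rational pair
  obtain ⟨e⟩ : Nonempty (Fin ℓ ≃ ZMod ℓ) := ⟨(Fintype.equivFinOfCardEq (ZMod.card ℓ)).symm⟩
  obtain ⟨w, v, hw, hv, hwv⟩ := hD3 ℓ h5 (fun i => m (e i)) (fun i => (m (e i)).det) (by
    intro X
    have e1 := hdetX (fun i => X (e.symm i))
    have e2 : ∑ i, X i • m (e i) = ∑ i, X (e.symm i) • m i := by
      rw [← Equiv.sum_comp e (fun i => X (e.symm i) • m i)]
      simp
    have e3 : ∑ i, (m (e i)).det * X i = ∑ i, (m i).det * X (e.symm i) := by
      rw [← Equiv.sum_comp e (fun i => (m i).det * X (e.symm i))]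
      simp
    have e4 : ∑ i, X i ^ 2 = ∑ i, X (e.symm i) ^ 2 := by
      rw [← Equiv.sum_comp e (fun i => X (e.symm i) ^ 2)]
      simp
    rw [e2, e3, e4]
    exact e1)
  refine ⟨w, v, hw, hv, ?_⟩
  have hz : ∀ k, ∑ i, ∑ j, (w i : Ω) * m' k i j * (v j : Ω) = 0 := by
    intro k
    have e1 := hwv (e.symm k)
    rw [Equiv.apply_symm_apply] at e1
    have e2 : ∑ i, ∑ j, (w i : Ω) * m' k i j * (v j : Ω) =
        ((w ⬝ᵥ (m k *ᵥ v) : ℚ) : Ω) := by
      rw [hm']
      simp only [dotProduct, Matrix.mulVec, Matrix.map_apply, eq_ratCast]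
      push_cast
      refine Finset.sum_congr rfl fun i _ => ?_
      rw [Finset.mul_sum]
      refine Finset.sum_congr rfl fun j _ => ?_
      ring
    rw [e2, e1]
    simp
  have e1 : ∀ i j, (w i : Ω) * M i j * (v j : Ω) = ∑ k, x k * ((w i : Ω) * m' k i j * (v j : Ω)) := by
    intro i j
    have : M i j = ∑ k, x k * m' k i j := by
      conv_lhs => rw [hMm]
      simp only [Matrix.sum_apply, Matrix.smul_apply, smul_eq_mul]
    rw [this, Finset.mul_sum, Finset.sum_mul]
    refine Finset.sum_congr rfl fun k _ => ?_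
    ring
  have e2 : ∑ i, ∑ j, (w i : Ω) * M i j * (v j : Ω) =
      ∑ k, x k * ∑ i, ∑ j, (w i : Ω) * m' k i j * (v j : Ω) := by
    simp only [e1, Finset.mul_sum]
    rw [Finset.sum_congr rfl fun i _ => Finset.sum_comm]
    rw [Finset.sum_comm]
  rw [e2]
  refine Finset.sum_eq_zero fun k _ => ?_
  rw [hz k, mul_zero]

/-- all odd primes -/
theorem three_wreath (hD3 : S_D3) (h2 : ℓ ≠ 2) (h : Wr ℓ τ σ x) :
    QQ 3 (Submodule.span ℚ (Set.range x)) := by
  by_cases h5 : 5 ≤ ℓ
  · exact three_wreath5 hD3 h5 h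
  · have h3 : ℓ = 3 := by
      have h1 := hℓ.out.two_le
      interval_cases ℓ
      · exact absurd rfl h2
      · rfl
      · exact absurd hℓ.out (by norm_num)
    subst h3
    have hkl : Kl ((σ 1).comp (σ 2)) τ (x 0) (x 1) (x 2) := by
      refine ⟨?_, ?_, ?_, ?_, ?_, ?_, h.nx 0⟩
      · rw [RingHom.comp_apply, h.so 2 0 z02, h.so 1 0 z01]
      · rw [RingHom.comp_apply, h.so 2 1 z12, h.ss 1]
      · rw [RingHom.comp_apply, h.ss 2, map_neg, h.so 1 2 z12.symm]
      · rw [h.tx]; rfl
      · rw [h.tx]; rfl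
      · rw [h.tx]; rfl
    have hr : Set.range x = {x 0, x 1, x 2} := by
      ext y
      simp only [Set.mem_range, Set.mem_insert_iff, Set.mem_singleton_iff]
      constructor
      · rintro ⟨i, rfl⟩
        rcases zmod3_cases i with rfl | rfl | rfl
        · exact Or.inl rfl
        · exact Or.inr (Or.inl rfl)
        · exact Or.inr (Or.inr rfl)
      · rintro (rfl | rfl | rfl)
        · exact ⟨0, rfl⟩
        · exact ⟨1, rfl⟩
        · exact ⟨2, rfl⟩
    rw [hr]
    exact three hkl

end

end Pool.Agent.P8H33.QC
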